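import Mathlib

set_option autoImplicit false

/-!
Products of shifted idempotents.
-/

namespace Pool.Agent.AON

section

variable {R : Type*} [Ring R]

/-- `(1 - p₀) p₁ ⋯ pₙ` -/
def RR (p : ℕ → R) : ℕ → R
  | 0 => 1 - p 0
  | n + 1 => RR p n * p (n + 1)

/-- `(1 - p₀) p₁ ⋯ pₙ (1 - pₙ₊₁)`: the left end of a component with `n + 1` points -/
def QQ (p : ℕ → R) (n : ℕ) : R := RR p n * (1 - p (n + 1))

variable {p : ℕ → R} (hp : ∀ j, p j * p j = p j) (hc : ∀ i j, p i * p j = p j * p i)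

theorem RR_comm (T : R) (hT : ∀ j, T * p j = p j * T) (n : ℕ) : T * RR p n = RR p n * T := by
  induction n with
  | zero =>
    show T * (1 - p 0) = (1 - p 0) * T
    rw [mul_sub, sub_mul, hT, mul_one, one_mul]
  | succ n ih =>
    show T * (RR p n * p (n + 1)) = RR p n * p (n + 1) * T
    rw [← mul_assoc, ih, mul_assoc, hT, mul_assoc]

include hc in
/-- everything that commutes with all `p j` commutes with `QQ p n` -/
theorem QQ_comm (T : R) (hT : ∀ j, T * p j = p j * T) (n : ℕ) : T * QQ p n = QQ p n * T := by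
  have _ := hc
  show T * (RR p n * (1 - p (n + 1))) = RR p n * (1 - p (n + 1)) * T
  have h1 : T * (1 - p (n + 1)) = (1 - p (n + 1)) * T := by
    rw [mul_sub, sub_mul, hT, mul_one, one_mul]
  rw [← mul_assoc, RR_comm T hT n, mul_assoc, h1, mul_assoc]

include hc in
theorem p_comm_QQ (j n : ℕ) : p j * QQ p n = QQ p n * p j := QQ_comm hc _ (fun i => hc j i) n

include hp in
theorem one_sub_idem (j : ℕ) : (1 - p j) * (1 - p j) = 1 - p j := by
  rw [mul_sub, sub_mul, sub_mul, mul_one, one_mul, mul_one, hp]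
  abel

include hp in
theorem p_one_sub (j : ℕ) : p j * (1 - p j) = 0 := by
  rw [mul_sub, mul_one, hp, sub_self]

include hp hc in
theorem p_zero_RR (n : ℕ) : p 0 * RR p n = 0 := by
  induction n with
  | zero => exact p_one_sub hp 0
  | succ n ih =>
    show p 0 * (RR p n * p (n + 1)) = 0
    rw [← mul_assoc, ih, zero_mul]

include hp hc in
theorem p_mid_RR {j n : ℕ} (h1 : 1 ≤ j) (h2 : j ≤ n) : p j * RR p n = RR p n := by
  induction n with
  | zero => omega
  | succ n ih =>
    show p j * (RR p n * p (n + 1)) = RR p n * p (n + 1)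
    by_cases h : j ≤ n
    · rw [← mul_assoc, ih h]
    · have hj : j = n + 1 := by omega
      rw [← mul_assoc, hj, RR_comm (p (n + 1)) (fun i => hc _ i) n, mul_assoc, hp]

include hp hc in
theorem p_zero_QQ (n : ℕ) : p 0 * QQ p n = 0 := by
  show p 0 * (RR p n * (1 - p (n + 1))) = 0
  rw [← mul_assoc, p_zero_RR hp hc, zero_mul]

include hp hc in
theorem p_mid_QQ {j n : ℕ} (h1 : 1 ≤ j) (h2 : j ≤ n) : p j * QQ p n = QQ p n := by
  show p j * (RR p n * (1 - p (n + 1))) = RR p n * (1 - p (n + 1))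
  rw [← mul_assoc, p_mid_RR hp hc h1 h2]

include hp hc in
theorem p_last_QQ (n : ℕ) : p (n + 1) * QQ p n = 0 := by
  show p (n + 1) * (RR p n * (1 - p (n + 1))) = 0
  rw [← mul_assoc, RR_comm (p (n + 1)) (fun i => hc _ i) n, mul_assoc, p_one_sub hp, mul_zero]

include hp hc in
theorem QQ_of_RR (n : ℕ) : RR p n * QQ p n = QQ p n := by
  have key : ∀ m, m ≤ n → RR p m * QQ p n = QQ p n := by
    intro m
    induction m with
    | zero =>
      intro _
      show (1 - p 0) * QQ p n = QQ p n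
      rw [sub_mul, one_mul, p_zero_QQ hp hc, sub_zero]
    | succ m ih =>
      intro hm
      show RR p m * p (m + 1) * QQ p n = QQ p n
      rw [mul_assoc, p_mid_QQ hp hc (by omega) hm, ih (by omega)]
  exact key n le_rfl

include hp hc in
theorem QQ_idem (n : ℕ) : QQ p n * QQ p n = QQ p n := by
  have h1 : (1 - p (n + 1)) * QQ p n = QQ p n := by
    rw [sub_mul, one_mul, p_last_QQ hp hc, sub_zero]
  conv_lhs => rw [show QQ p n * QQ p n = RR p n * ((1 - p (n + 1)) * QQ p n) from mul_assoc _ _ _]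
  rw [h1, QQ_of_RR hp hc]

include hp hc in
theorem QQ_mul_p_last (n : ℕ) : QQ p n * p (n + 1) = 0 := by
  rw [← p_comm_QQ hc, p_last_QQ hp hc]

include hp hc in
theorem QQ_mul_p_mid {j n : ℕ} (h1 : 1 ≤ j) (h2 : j ≤ n) : QQ p n * p j = QQ p n := by
  rw [← p_comm_QQ hc, p_mid_QQ hp hc h1 h2]

include hp hc in
theorem QQ_orth {n m : ℕ} (h : n ≠ m) : QQ p n * QQ p m = 0 := by
  rcases lt_or_gt_of_ne h with h1 | h1
  · have h2 : QQ p m = p (n + 1) * QQ p m := (p_mid_QQ hp hc (by omega) (by omega)).symm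
    rw [h2, ← mul_assoc, QQ_mul_p_last hp hc, zero_mul]
  · have h2 : QQ p n = QQ p n * p (m + 1) := (QQ_mul_p_mid hp hc (by omega) (by omega)).symm
    rw [h2, mul_assoc, p_last_QQ hp hc, mul_zero]

theorem pow_shift {U : R} (hUp : ∀ j, U * p j = p (j + 1) * U) (k j : ℕ) :
    U ^ k * p j = p (j + k) * U ^ k := by
  induction k with
  | zero => rw [pow_zero, one_mul, mul_one, add_zero]
  | succ k ih =>
    rw [pow_succ', mul_assoc, ih, ← mul_assoc, hUp, mul_assoc, add_assoc]

theorem pow_mul_pow_one {U U' : R} (hU : U * U' = 1) (k : ℕ) : U ^ k * U' ^ k = 1 := by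
  induction k with
  | zero => rw [pow_zero, pow_zero, mul_one]
  | succ k ih =>
    rw [pow_succ, pow_succ', mul_assoc, ← mul_assoc U U', hU, one_mul, ih]

include hp hc in
/-- different points are orthogonal -/
theorem QQ_shift_orth {U U' : R} (hU : U * U' = 1) (hU' : U' * U = 1)
    (hUp : ∀ j, U * p j = p (j + 1) * U) {n m k l : ℕ} (hk : k ≤ n) (hl : l ≤ m)
    (h : (n, k) ≠ (m, l)) :
    (U' ^ k * QQ p n * U ^ k) * (U' ^ l * QQ p m * U ^ l) = 0 := by
  have hUp' : ∀ j, U' * p (j + 1) = p j * U' := by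
    intro j
    calc U' * p (j + 1) = U' * p (j + 1) * (U * U') := by rw [hU, mul_one]
      _ = U' * (p (j + 1) * U) * U' := by simp only [mul_assoc]
      _ = U' * (U * p j) * U' := by rw [hUp]
      _ = (U' * U) * p j * U' := by simp only [mul_assoc]
      _ = p j * U' := by rw [hU', one_mul]
  have hpow' : ∀ k j, U' ^ k * p (j + k) = p j * U' ^ k := by
    intro k
    induction k with
    | zero => intro j; rw [pow_zero, one_mul, mul_one, add_zero]
    | succ k ih =>
      intro j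
      rw [pow_succ, mul_assoc, show j + (k + 1) = (j + k) + 1 by ring, hUp', ← mul_assoc, ih,
        mul_assoc]
  rcases lt_trichotomy k l with hkl | hkl | hkl
  · -- `k < l`
    obtain ⟨δ, hδ⟩ : ∃ δ, l = k + (δ + 1) := ⟨l - k - 1, by omega⟩
    subst hδ
    have e1 : U ^ k * U' ^ (k + (δ + 1)) = U' ^ (δ + 1) := by
      rw [pow_add, ← mul_assoc, pow_mul_pow_one hU, one_mul]
    have e2 : QQ p n * (U' ^ (δ + 1) * QQ p m) = 0 := by
      have h1 : QQ p m = p (δ + 1) * QQ p m :=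
        (p_mid_QQ hp hc (by omega) (by omega)).symm
      have h2 : U' ^ (δ + 1) * p (δ + 1) = p 0 * U' ^ (δ + 1) := by
        have := hpow' (δ + 1) 0
        rwa [zero_add] at this
      have h3 : QQ p n * p 0 = 0 := by rw [← p_comm_QQ hc, p_zero_QQ hp hc]
      rw [h1, ← mul_assoc (U' ^ (δ + 1)), h2, mul_assoc (p 0), ← mul_assoc (QQ p n), h3,
        zero_mul]
    calc (U' ^ k * QQ p n * U ^ k) * (U' ^ (k + (δ + 1)) * QQ p m * U ^ (k + (δ + 1)))
        = U' ^ k * (QQ p n * ((U ^ k * U' ^ (k + (δ + 1))) * QQ p m))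
          * U ^ (k + (δ + 1)) := by simp only [mul_assoc]
      _ = 0 := by rw [e1, e2, mul_zero, zero_mul]
  · subst hkl
    have hnm : n ≠ m := fun h' => h (by rw [h'])
    calc (U' ^ k * QQ p n * U ^ k) * (U' ^ k * QQ p m * U ^ k)
        = U' ^ k * (QQ p n * ((U ^ k * U' ^ k) * QQ p m)) * U ^ k := by simp only [mul_assoc]
      _ = 0 := by rw [pow_mul_pow_one hU, one_mul, QQ_orth hp hc hnm, mul_zero, zero_mul]
  · obtain ⟨δ, hδ⟩ : ∃ δ, k = (δ + 1) + l := ⟨k - l - 1, by omega⟩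
    subst hδ
    have e1 : U ^ ((δ + 1) + l) * U' ^ l = U ^ (δ + 1) := by
      rw [pow_add, mul_assoc, pow_mul_pow_one hU, mul_one]
    have e2 : QQ p n * (U ^ (δ + 1) * QQ p m) = 0 := by
      have h1 : QQ p n = QQ p n * p (δ + 1) :=
        (QQ_mul_p_mid hp hc (by omega) (by omega)).symm
      have h2 : p (δ + 1) * U ^ (δ + 1) = U ^ (δ + 1) * p 0 := by
        have := pow_shift hUp (δ + 1) 0
        rw [zero_add] at this
        exact this.symm
      rw [h1, mul_assoc (QQ p n), ← mul_assoc (p (δ + 1)), h2, mul_assoc (U ^ (δ + 1)),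
        p_zero_QQ hp hc, mul_zero, mul_zero]
    calc (U' ^ ((δ + 1) + l) * QQ p n * U ^ ((δ + 1) + l)) * (U' ^ l * QQ p m * U ^ l)
        = U' ^ ((δ + 1) + l) * (QQ p n * ((U ^ ((δ + 1) + l) * U' ^ l) * QQ p m))
          * U ^ l := by simp only [mul_assoc]
      _ = 0 := by rw [e1, e2, mul_zero, zero_mul]

include hp hc in
theorem QQ_shift_idem {U U' : R} (hU : U * U' = 1) (hU' : U' * U = 1) (n k : ℕ) :
    (U' ^ k * QQ p n * U ^ k) * (U' ^ k * QQ p n * U ^ k) = U' ^ k * QQ p n * U ^ k := by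
  have _ := hU'
  calc (U' ^ k * QQ p n * U ^ k) * (U' ^ k * QQ p n * U ^ k)
      = U' ^ k * (QQ p n * ((U ^ k * U' ^ k) * QQ p n)) * U ^ k := by simp only [mul_assoc]
    _ = _ := by rw [pow_mul_pow_one hU, one_mul, QQ_idem hp hc]

end

end Pool.Agent.AON
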