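import Pool.Agent.AON.Base
import Pool.Agent.AON.Idem

set_option autoImplicit false
set_option linter.unusedSectionVars false

noncomputable section

open scoped InnerProductSpace ENNReal Topology
open Classical Filter ContinuousLinearMap
open Pool.Agent.VN

/-!
The component theorem: from a value at the left end of a component to a solution.
-/

namespace Pool.Agent.AON

section

variable {ι G : Type*} [Group G] {U U' TL TR : L2 ι G →L[ℂ] L2 ι G}
  {p : ℕ → (L2 ι G →L[ℂ] L2 ι G)} (hUU' : U * U' = 1) (hU'U : U' * U = 1)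
  (hp : ∀ j, p j * p j = p j) (hc : ∀ i j, p i * p j = p j * p i)
  (hUp : ∀ j, U * p j = p (j + 1) * U) (hL : ∀ j, TL * p j = p j * TL)
  (hR : ∀ m j, (U ^ m * TR * U' ^ m) * p j = p j * (U ^ m * TR * U' ^ m))

include hUU' hU'U hp hc hUp hL hR in
/-- the solution with value `w = QQ p n w` at the left ends of the components with `n + 1` points -/
theorem comp_back {n : ℕ} {w : L2 ι G} (hw : QQ p n w = w) (h1 : TL w = 0)
    (h2 : (U ^ n * TR * U' ^ n) w = 0) (x : L2 ι G)
    (hx : x = ∑ k ∈ Finset.range (n + 1), (U' ^ k) w) :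
    p 0 (x - U' x) = 0 ∧ (1 - p 0) (TL x) = 0 ∧ (1 - p 1) (TR x) = 0 ∧
      ∀ m, QQ p m x = QQ p m w := by
  have ap : ∀ (A B : L2 ι G →L[ℂ] L2 ι G) (y : L2 ι G), (A * B) y = A (B y) := fun _ _ _ => rfl
  have hU1 : ∀ j, p j * U' = U' * p (j + 1) := by
    intro j
    calc p j * U' = U' * U * p j * U' := by rw [hU'U, one_mul]
      _ = U' * (U * p j) * U' := by rw [mul_assoc U' U]
      _ = U' * (p (j + 1) * U) * U' := by rw [hUp]
      _ = U' * p (j + 1) * (U * U') := by simp only [mul_assoc]
      _ = U' * p (j + 1) := by rw [hUU', mul_one]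
  have hUk : ∀ k j, p j * U' ^ k = U' ^ k * p (j + k) := by
    intro k
    induction k with
    | zero =>
      intro j
      rw [pow_zero, mul_one, one_mul, add_zero]
    | succ k ih =>
      intro j
      rw [pow_succ, ← mul_assoc, ih, mul_assoc, hU1, ← mul_assoc, add_assoc]
  have hUk' : ∀ k j (y : L2 ι G), p j ((U' ^ k) y) = (U' ^ k) (p (j + k) y) := by
    intro k j y
    rw [← ap, hUk, ap]
  have hw0 : p 0 w = 0 := by
    rw [← hw, ← ap, p_zero_QQ hp hc]
    rfl
  have hwm : ∀ j, 1 ≤ j → j ≤ n → p j w = w := by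
    intro j h1 h2
    conv_lhs => rw [← hw]
    rw [← ap, p_mid_QQ hp hc h1 h2, hw]
  have hwl : p (n + 1) w = 0 := by
    rw [← hw, ← ap, p_last_QQ hp hc]
    rfl
  have hp0x : x - p 0 x = w := by
    rw [hx, map_sum, ← Finset.sum_sub_distrib, Finset.sum_range_succ']
    rw [Finset.sum_eq_zero, zero_add]
    · rw [pow_zero]
      show w - p 0 w = w
      rw [hw0, sub_zero]
    · intro k hk
      rw [Finset.mem_range] at hk
      rw [hUk', zero_add, hwm (k + 1) (by omega) (by omega), sub_self]
  have hp1x : x - p 1 x = (U' ^ n) w := by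
    rw [hx, map_sum, ← Finset.sum_sub_distrib, Finset.sum_range_succ, Finset.sum_eq_zero, zero_add]
    · rw [hUk', add_comm 1 n, hwl, map_zero, sub_zero]
    · intro k hk
      rw [Finset.mem_range] at hk
      rw [hUk', hwm (1 + k) (by omega) (by omega), sub_self]
  refine ⟨?_, ?_, ?_, ?_⟩
  · have h3 : x - U' x = w - (U' ^ (n + 1)) w := by
      have h4 : U' x = ∑ k ∈ Finset.range (n + 1), (U' ^ (k + 1)) w := by
        rw [hx, map_sum]
        refine Finset.sum_congr rfl fun k _ => ?_
        rw [pow_succ', ap]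
      rw [h4, hx, ← Finset.sum_sub_distrib, Finset.sum_range_sub', pow_zero]
      rfl
    rw [h3, map_sub, hw0, hUk', zero_add, hwl, map_zero, sub_zero]
  · show TL x - p 0 (TL x) = 0
    rw [← ap, ← hL, ap, ← map_sub, hp0x, h1]
  · have hR' : TR * p 1 = p 1 * TR := by
      have := hR 0 1
      rwa [pow_zero, pow_zero, one_mul, mul_one] at this
    show TR x - p 1 (TR x) = 0
    rw [← ap, ← hR', ap, ← map_sub, hp1x]
    have h5 : U' ^ n * U ^ n = 1 := by
      clear hUk hUk' hwm hwl hp0x hp1x hx h2 hw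
      induction n with
      | zero => rw [pow_zero, pow_zero, one_mul]
      | succ n ih =>
        rw [pow_succ, pow_succ']
        calc U' ^ n * U' * (U * U ^ n) = U' ^ n * (U' * U) * U ^ n := by simp only [mul_assoc]
          _ = 1 := by rw [hU'U, mul_one, ih]
    have h6 : TR ((U' ^ n) w) = (U' ^ n) ((U ^ n * TR * U' ^ n) w) := by
      rw [← ap, ← ap, ← mul_assoc, ← mul_assoc, h5, one_mul]
    rw [h6, h2, map_zero]
  · intro m
    have h7 : QQ p m * p 0 = 0 := by
      rw [← p_comm_QQ hc, p_zero_QQ hp hc]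
    have h8 : QQ p m x = QQ p m (x - p 0 x) := by
      rw [map_sub, ← ap (QQ p m) (p 0), h7]
      show _ = _ - (0 : L2 ι G)
      rw [sub_zero]
    rw [h8, hp0x]

end

end Pool.Agent.AON
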