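import Pool.Agent.AON.CompA
import Pool.Agent.AON.CompB

set_option autoImplicit false
set_option linter.unusedSectionVars false

noncomputable section

open scoped InnerProductSpace ENNReal Topology
open Classical Filter ContinuousLinearMap
open Pool.Agent.VN

/-!
The component theorem.
-/

namespace Pool.Agent.AON

section aux

variable {ι G : Type*} [Group G]

lemma equivar_mul {A B : L2 ι G →L[ℂ] L2 ι G} (hA : Equivar A) (hB : Equivar B) :
    Equivar (A * B) := hA.comp hB

lemma equivar_RR {p : ℕ → (L2 ι G →L[ℂ] L2 ι G)} (hpe : ∀ j, Equivar (p j)) (n : ℕ) :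
    Equivar (RR p n) := by
  induction n with
  | zero => exact Equivar.one.sub (hpe 0)
  | succ n ih => exact equivar_mul ih (hpe _)

lemma equivar_QQ {p : ℕ → (L2 ι G →L[ℂ] L2 ι G)} (hpe : ∀ j, Equivar (p j)) (n : ℕ) :
    Equivar (QQ p n) := equivar_mul (equivar_RR hpe n) (Equivar.one.sub (hpe _))

end aux

/-- Let `p j` be commuting projections on `L2 ι G` shifted by the unitary `U`, and `TL`, `TR`
operators such that `TL` and all the shifts of `TR` commute with all `p j`. Let `K` be the space of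
the `x` with `p₀ (x - U⁻¹ x) = 0`, `(1 - p₀) TL x = 0` and `(1 - p₁) TR x = 0`, and let `F` be the
space of the `v` in the sum of the ranges of the `QQ p n`, `n < N`, such that `TL` and
`Uⁿ TR U⁻ⁿ` kill `QQ p n v`. Then the dimension of `K` is that of `F` up to
`|ι| - ∑ (n + 1) tr (QQ p n)`. -/
theorem component {ι G : Type*} [Group G] [Fintype ι]
    {U U' TL TR : L2 ι G →L[ℂ] L2 ι G} {p : ℕ → (L2 ι G →L[ℂ] L2 ι G)}
    (hU : Equivar U) (hU' : Equivar U') (hUU' : U * U' = 1) (hU'U : U' * U = 1)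
    (hUa : adjoint U = U')
    (hTL : Equivar TL) (hTR : Equivar TR)
    (hpe : ∀ j, Equivar (p j)) (hp : ∀ j, p j * p j = p j) (hpa : ∀ j, adjoint (p j) = p j)
    (hc : ∀ i j, p i * p j = p j * p i) (hUp : ∀ j, U * p j = p (j + 1) * U)
    (hL : ∀ j, TL * p j = p j * TL)
    (hR : ∀ m j, (U ^ m * TR * U' ^ m) * p j = p j * (U ^ m * TR * U' ^ m))
    (K : Submodule ℂ (L2 ι G))
    (hK : ∀ x, x ∈ K ↔ p 0 (x - U' x) = 0 ∧ (1 - p 0) (TL x) = 0 ∧ (1 - p 1) (TR x) = 0)
    (N : ℕ) (F : Submodule ℂ (L2 ι G))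
    (hF : ∀ v, v ∈ F ↔ (∑ n ∈ Finset.range N, QQ p n) v = v ∧
      ∀ n < N, TL (QQ p n v) = 0 ∧ (U ^ n * TR * U' ^ n) (QQ p n v) = 0)
    (τ : ℕ → ℝ) (hτ : ∀ n, tr (QQ p n) = τ n) :
    vdim (F : Set (L2 ι G)) ≤ vdim (K : Set (L2 ι G)) ∧
      vdim (K : Set (L2 ι G)) ≤ vdim (F : Set (L2 ι G))
        + (Fintype.card ι - ∑ n ∈ Finset.range N, ((n : ℝ) + 1) * τ n) := by
  have _ := hUa
  have _ := hpa
  set QN : L2 ι G →L[ℂ] L2 ι G := ∑ n ∈ Finset.range N, QQ p n with hQN
  have hQNe : Equivar QN := Equivar.sum _ fun n _ => equivar_QQ hpe n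
  have hQ1 : ∀ n < N, QQ p n * QN = QQ p n := by
    intro n hn
    rw [hQN, Finset.mul_sum, Finset.sum_eq_single n]
    · exact QQ_idem hp hc n
    · intro m _ hm
      exact QQ_orth hp hc hm.symm
    · intro h
      exact absurd (Finset.mem_range.mpr hn) h
  have hQ2 : ∀ n < N, QN * QQ p n = QQ p n := by
    intro n hn
    rw [hQN, Finset.sum_mul, Finset.sum_eq_single n]
    · exact QQ_idem hp hc n
    · intro m _ hm
      exact QQ_orth hp hc hm
    · intro h
      exact absurd (Finset.mem_range.mpr hn) h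
  have hQNi : QN * QN = QN := by
    conv_lhs => rw [hQN]
    rw [Finset.sum_mul]
    conv_rhs => rw [hQN]
    refine Finset.sum_congr rfl fun n hn => ?_
    rw [← hQN]
    exact hQ1 n (Finset.mem_range.mp hn)
  -- `K` is closed and invariant
  have hKeq : K = LinearMap.ker (p 0 * (1 - U')).toLinearMap
      ⊓ LinearMap.ker ((1 - p 0) * TL).toLinearMap
      ⊓ LinearMap.ker ((1 - p 1) * TR).toLinearMap := by
    ext x
    rw [hK, Submodule.mem_inf, Submodule.mem_inf, and_assoc]
    rfl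
  have hKi : Invar K := by
    rw [hKeq]
    exact ((Invar.ker (equivar_mul (hpe 0) (Equivar.one.sub hU'))).inf
      (Invar.ker (equivar_mul (Equivar.one.sub (hpe 0)) hTL))).inf
      (Invar.ker (equivar_mul (Equivar.one.sub (hpe 1)) hTR))
  have hKc : IsClosed (K : Set (L2 ι G)) := by
    rw [hKeq]
    exact ((p 0 * (1 - U')).isClosed_ker.inter ((1 - p 0) * TL).isClosed_ker).inter
      ((1 - p 1) * TR).isClosed_ker
  -- the image of `K`
  have hmap : K.map QN.toLinearMap = F := by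
    ext v
    constructor
    · rintro ⟨x, hx, rfl⟩
      have hx' := (hK x).mp hx
      rw [hF]
      constructor
      · exact congrArg (fun T : L2 ι G →L[ℂ] L2 ι G => T x) hQNi
      · intro n hn
        have e : QQ p n (QN.toLinearMap x) = QQ p n x :=
          congrArg (fun T : L2 ι G →L[ℂ] L2 ι G => T x) (hQ1 n hn)
        rw [e]
        exact ⟨comp_left hc hL hx'.2.1 n,
          comp_right hUU' hU'U hp hc hUp hR hx'.1 hx'.2.2 n⟩
    · intro hv
      obtain ⟨hv1, hv2⟩ := (hF v).mp hv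
      set xn : ℕ → L2 ι G := fun n => ∑ k ∈ Finset.range (n + 1), (U' ^ k) (QQ p n v) with hxn
      have hw : ∀ n, QQ p n (QQ p n v) = QQ p n v := fun n =>
        congrArg (fun T : L2 ι G →L[ℂ] L2 ι G => T v) (QQ_idem hp hc n)
      have hback : ∀ n < N, xn n ∈ K ∧ QN (xn n) = QQ p n v := by
        intro n hn
        obtain ⟨b1, b2, b3, b4⟩ := comp_back hUU' hU'U hp hc hUp hL hR (hw n) (hv2 n hn).1
          (hv2 n hn).2 (xn n) rfl
        refine ⟨(hK _).mpr ⟨b1, b2, b3⟩, ?_⟩
        have e1 : QN (xn n) = QN (QQ p n v) := by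
          rw [hQN, _root_.sum_apply, _root_.sum_apply]
          exact Finset.sum_congr rfl fun m _ => b4 m
        rw [e1]
        exact congrArg (fun T : L2 ι G →L[ℂ] L2 ι G => T v) (hQ2 n hn)
      refine ⟨∑ n ∈ Finset.range N, xn n, ?_, ?_⟩
      · exact K.sum_mem fun n hn => (hback n (Finset.mem_range.mp hn)).1
      · show QN (∑ n ∈ Finset.range N, xn n) = v
        rw [map_sum, Finset.sum_congr rfl fun n hn => (hback n (Finset.mem_range.mp hn)).2]
        conv_rhs => rw [← hv1]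
        rw [hQN, _root_.sum_apply]
  have hvd := vdim_map hQNe hKi hKc
  rw [hmap] at hvd
  constructor
  · have := vdim_nonneg (K ⊓ LinearMap.ker QN.toLinearMap)
    linarith
  -- the upper bound
  set E : (Σ _ : ℕ, ℕ) → (L2 ι G →L[ℂ] L2 ι G) := fun a => U' ^ a.2 * QQ p a.1 * U ^ a.2 with hE
  set s : Finset (Σ _ : ℕ, ℕ) := (Finset.range N).sigma fun n => Finset.range (n + 1) with hs
  set EN : L2 ι G →L[ℂ] L2 ι G := ∑ a ∈ s, E a with hEN
  have hmem : ∀ a ∈ s, a.1 < N ∧ a.2 ≤ a.1 := by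
    intro a ha
    rw [hs, Finset.mem_sigma, Finset.mem_range, Finset.mem_range] at ha
    exact ⟨ha.1, by omega⟩
  have hEe : ∀ a, Equivar (E a) := fun a =>
    equivar_mul (equivar_mul (hU'.pow _) (equivar_QQ hpe _)) (hU.pow _)
  have hENe : Equivar EN := Equivar.sum _ fun a _ => hEe a
  have hEi : EN * EN = EN := by
    rw [hEN, Finset.sum_mul]
    refine Finset.sum_congr rfl fun a ha => ?_
    rw [Finset.mul_sum, Finset.sum_eq_single a]
    · exact QQ_shift_idem hp hc hUU' hU'U a.1 a.2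
    · intro b hb hab
      refine QQ_shift_orth hp hc hUU' hU'U hUp (hmem a ha).2 (hmem b hb).2 ?_
      intro h
      apply hab
      rw [Prod.mk.injEq] at h
      exact Sigma.ext h.1.symm (heq_of_eq h.2.symm)
    · intro h
      exact absurd ha h
  have htrE : ∀ a, tr (E a) = (τ a.1 : ℂ) := by
    intro a
    have h1 : tr (U' ^ a.2 * (QQ p a.1 * U ^ a.2)) = tr ((QQ p a.1 * U ^ a.2) * U' ^ a.2) :=
      tr_comm (equivar_mul (equivar_QQ hpe _) (hU.pow _)) (hU'.pow _)
    have h2 : E a = U' ^ a.2 * (QQ p a.1 * U ^ a.2) := mul_assoc _ _ _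
    rw [h2, h1, mul_assoc, pow_mul_pow_one hUU', mul_one, hτ]
  have htrsum : ∀ (t : Finset (Σ _ : ℕ, ℕ)), tr (∑ a ∈ t, E a) = ∑ a ∈ t, (τ a.1 : ℂ) := by
    intro t
    induction t using Finset.induction_on with
    | empty => simp [tr_zero]
    | insert a t ha ih => rw [Finset.sum_insert ha, Finset.sum_insert ha, tr_add, ih, htrE]
  have htrEN : tr EN = ((∑ n ∈ Finset.range N, ((n : ℝ) + 1) * τ n : ℝ) : ℂ) := by
    rw [hEN, htrsum, hs, Finset.sum_sigma]
    push_cast
    refine Finset.sum_congr rfl fun n _ => ?_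
    rw [Finset.sum_const, Finset.card_range, nsmul_eq_mul]
    push_cast
    ring
  set W : Submodule ℂ (L2 ι G) := LinearMap.ker EN.toLinearMap with hW
  have hWd : vdim (W : Set (L2 ι G))
      = Fintype.card ι - ∑ n ∈ Finset.range N, ((n : ℝ) + 1) * τ n := by
    apply vdim_of_idem (E := 1 - EN) (Equivar.one.sub hENe)
    · rw [mul_sub, sub_mul, sub_mul, hEi, one_mul, mul_one, one_mul]
      abel
    · intro x
      rw [hW]
      show EN x = 0 ↔ x - EN x = x
      rw [sub_eq_self]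
    · rw [tr_sub, tr_one, htrEN]
      push_cast
      ring
  have hle : K ⊓ LinearMap.ker QN.toLinearMap ≤ W := by
    rintro x ⟨hx, hx2⟩
    have hx' := (hK x).mp hx
    have hx2' : QN x = 0 := hx2
    show EN x = 0
    rw [hEN, _root_.sum_apply]
    refine Finset.sum_eq_zero fun a ha => ?_
    show (U' ^ a.2) (QQ p a.1 ((U ^ a.2) x)) = 0
    rw [comp_const hUU' hp hc hUp hx'.1 (hmem a ha).2]
    have e : QQ p a.1 x = QQ p a.1 (QN x) :=
      (congrArg (fun T : L2 ι G →L[ℂ] L2 ι G => T x) (hQ1 a.1 (hmem a ha).1)).symm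
    rw [e, hx2', map_zero, map_zero]
  have := vdim_mono hle
  rw [hWd] at this
  linarith

end Pool.Agent.AON
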