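import Pool.Agent.AON.Defs

set_option autoImplicit false

noncomputable section

/-!
The data in a group used in the construction.
-/

namespace Pool.Agent.AON

/-- elements `t`, `a`, `b` and a copy of `H` in `G` with independent commuting translates, such
that `[a, tᵐ b t⁻ᵐ]` is trivial for `m ∈ S` and has infinite order for `m ∉ S` -/
structure Data (H G : Type) [Group H] [Group G] (S : Set ℕ) where
  t : G
  a : G
  b : G
  f : H →* G
  inj : Function.Injective f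
  comm : ∀ j : ℕ, 0 < j → ∀ h h' : H, Commute (t ^ j * f h * (t ^ j)⁻¹) (f h')
  ca : ∀ (j : ℤ) (h : H), Commute a (t ^ j * f h * (t ^ j)⁻¹)
  cb : ∀ (j : ℤ) (h : H), Commute b (t ^ j * f h * (t ^ j)⁻¹)
  N : ℕ → Subgroup G
  memN : ∀ n j : ℕ, j < n → ∀ h : H, t ^ j * f h * (t ^ j)⁻¹ ∈ N n
  disj : ∀ (n : ℕ) (h : H), t ^ n * f h * (t ^ n)⁻¹ ∈ N n → h = 1
  inS : ∀ m ∈ S, Commute a (t ^ m * b * (t ^ m)⁻¹)
  notS : ∀ m, m ∉ S → ∀ n : ℕ, 0 < n →
    (a * (t ^ m * b * (t ^ m)⁻¹) * a⁻¹ * (t ^ m * b * (t ^ m)⁻¹)⁻¹) ^ n ≠ 1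

end Pool.Agent.AON
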