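import Pool.Agent.AON.Real

set_option autoImplicit false
set_option linter.unusedSectionVars false

noncomputable section

open scoped InnerProductSpace ENNReal Topology
open Classical Filter ContinuousLinearMap
open Pool.Agent.VN

/-!
Subspaces induced from rational subspaces are rational.
-/

namespace Pool.Agent.AON

private lemma Sol_inf_ker {σ G : Type} [Group G] (C : Set (σ × G →₀ ℂ)) (β : σ × G →₀ ℂ) :
    Sol C ⊓ LinearMap.ker (mulR fun _ : Unit => β).toLinearMap = Sol (insert β C) := by
  rw [ker_mulR]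
  ext x
  constructor
  · rintro ⟨h1, h2⟩ a ha
    rcases ha with rfl | ha
    · exact h2 _ ⟨(), rfl⟩
    · exact h1 a ha
  · intro h
    refine ⟨fun a ha => h a (Set.mem_insert_of_mem _ ha), ?_⟩
    rintro _ ⟨_, rfl⟩
    exact h _ (Set.mem_insert _ _)

private lemma resF_mulR {σ H G : Type} [Group H] [Group G] (f : H →* G)
    (hf : Function.Injective f) (β : σ × H →₀ ℂ) (z : L2 σ G) :
    resF f hf (mulR (fun _ : Unit => mapF f β) z) = mulR (fun _ : Unit => β) (resF f hf z) := by
  ext p
  rw [resF_apply, mulR_apply, mulR_apply]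
  simp only
  rw [ev_mapF, ev_def]
  refine Finset.sum_congr rfl fun q _ => ?_
  rw [resF_apply, map_mul, map_inv]

private lemma vdim_rat {σ G : Type} [Group G] [Fintype σ] (C : Set (σ × G →₀ ℂ))
    (β : σ × G →₀ ℂ) :
    vdim (((Sol C).map (mulR fun _ : Unit => β).toLinearMap :
      Submodule ℂ (L2 Unit G)) : Set (L2 Unit G)) =
      vdim (Sol C : Set (L2 σ G)) - vdim (Sol (insert β C) : Set (L2 σ G)) := by
  have h := vdim_map (mulR_equivar fun _ : Unit => β) (Sol_invar C) (Sol_closed C)
  rw [Sol_inf_ker] at h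
  linarith

theorem RatD.ind {k : Subring ℂ} {H G : Type} [Group H] [Group G] (f : H →* G)
    (hf : Function.Injective f) {J : Submodule ℂ (L2 Unit H)} {c : ℝ} (h : RatD k J c) :
    RatD k (Ind f hf J) c := by
  have hJc := h.closed
  have hJi := h.invar
  obtain ⟨σ, _, C, β, hC, hk, hβ, hJ, hc⟩ := h
  have hins : insert (mapF f β) (mapF f '' C) = mapF f '' (insert β C) :=
    (Set.image_insert_eq).symm
  refine ⟨σ, inferInstance, mapF f '' C, mapF f β, hC.image _, ?_, coefIn_mapF f hβ, ?_, ?_⟩
  · rintro _ ⟨a, ha, rfl⟩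
    exact coefIn_mapF f (hk a ha)
  · apply closure_eq_of_vdim ((Sol_invar _).map (mulR_equivar _)) (Ind_invar f hf J)
      (Ind_closed f hf hJc)
    · rintro _ ⟨z, hz, rfl⟩ g
      rw [Sol_mapF f hf] at hz
      have h1 : resF f hf (lt g (mulR (fun _ : Unit => mapF f β) z)) =
          mulR (fun _ : Unit => β) (resF f hf (lt g z)) := by
        rw [← resF_mulR, ← mulR_equivar]
      show resF f hf (lt g (mulR (fun _ : Unit => mapF f β) z)) ∈ J
      rw [h1]
      have h2 : mulR (fun _ : Unit => β) (resF f hf (lt g z)) ∈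
          closure (((Sol C).map (mulR fun _ : Unit => β).toLinearMap :
            Submodule ℂ (L2 Unit H)) : Set (L2 Unit H)) :=
        subset_closure ⟨_, hz g, rfl⟩
      rw [← hJ] at h2
      exact h2
    · rw [vdim_rat, hins, vdim_induced f hf, vdim_induced f hf, vdim_Ind f hf hJi hJc, hJ,
        vdim_closure, vdim_rat]
  · rw [hins, vdim_induced f hf]
    exact hc

end Pool.Agent.AON
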