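import Pool.Agent.AON.Supp2
import Pool.Agent.AON.Idem

set_option autoImplicit false
set_option linter.unusedSectionVars false

noncomputable section

open scoped InnerProductSpace ENNReal Topology
open Classical Filter ContinuousLinearMap
open Pool.Agent.VN

/-!
The trace of `QQ P n` for independent operators.
-/

namespace Pool.Agent.AON

private lemma tr_one_sub {G : Type*} [Group G] {T : L2 Unit G →L[ℂ] L2 Unit G} {d : ℝ}
    (h : tr T = d) : tr (1 - T) = ((1 - d : ℝ) : ℂ) := by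
  rw [tr_sub, tr_one, h]
  simp

private lemma RR_props {G : Type*} [Group G] {P : ℕ → (L2 Unit G →L[ℂ] L2 Unit G)}
    (hPe : ∀ j, Equivar (P j)) (M N : ℕ → Subgroup G) (hM : ∀ j, SuppOn (M j) (P j))
    (hMN : ∀ n j, j < n → M j ≤ N n) (hd : ∀ n, ∀ g ∈ N n, g ∈ M n → g = 1) {d : ℝ}
    (hτ : ∀ j, tr (P j) = d) (n : ℕ) :
    Equivar (RR P n) ∧ (∀ m, n < m → SuppOn (N m) (RR P n)) ∧
      tr (RR P n) = (((1 - d) * d ^ n : ℝ) : ℂ) := by
  induction n with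
  | zero =>
    refine ⟨Equivar.one.sub (hPe 0), fun m hm => (suppOn_one _).sub
      ((hM 0).mono (hMN m 0 hm)), ?_⟩
    show tr (1 - P 0) = _
    rw [tr_one_sub (hτ 0), pow_zero, mul_one]
  | succ n ih =>
    obtain ⟨h1, h2, h3⟩ := ih
    refine ⟨h1.comp (hPe (n + 1)), fun m hm => SuppOn.mul h1 (hPe (n + 1)) (h2 m (by omega))
      ((hM (n + 1)).mono (hMN m (n + 1) hm)), ?_⟩
    show tr (RR P n * P (n + 1)) = _
    rw [tr_mul_of_supp h1 (hPe (n + 1)) (h2 (n + 1) (by omega)) (hM (n + 1)) (hd (n + 1)), h3,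
      hτ, pow_succ]
    push_cast
    ring

theorem tr_QQ {G : Type*} [Group G] {P : ℕ → (L2 Unit G →L[ℂ] L2 Unit G)}
    (hPe : ∀ j, Equivar (P j)) (M N : ℕ → Subgroup G) (hM : ∀ j, SuppOn (M j) (P j))
    (hMN : ∀ n j, j < n → M j ≤ N n) (hd : ∀ n, ∀ g ∈ N n, g ∈ M n → g = 1) {d : ℝ}
    (hτ : ∀ j, tr (P j) = d) (n : ℕ) : tr (QQ P n) = (((1 - d) ^ 2 * d ^ n : ℝ) : ℂ) := by
  obtain ⟨h1, h2, h3⟩ := RR_props hPe M N hM hMN hd hτ n
  show tr (RR P n * (1 - P (n + 1))) = _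
  rw [tr_mul_of_supp h1 (Equivar.one.sub (hPe (n + 1))) (h2 (n + 1) (by omega))
    ((suppOn_one _).sub (hM (n + 1))) (hd (n + 1)), h3, tr_one_sub (hτ (n + 1))]
  push_cast
  ring

end Pool.Agent.AON
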