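import Pool.Agent.AON.Base
import Pool.Agent.AON.Idem

set_option autoImplicit false
set_option linter.unusedSectionVars false

noncomputable section

open scoped InnerProductSpace ENNReal Topology
open Classical Filter ContinuousLinearMap
open Pool.Agent.VN

/-!
The four strands: the holonomy around a component is the commutator of `a` and `b n`.
-/

namespace Pool.Agent.AON

def piL : Fin 4 → Fin 4 := ![1, 0, 3, 2]
def piR : Fin 4 → Fin 4 := ![3, 2, 1, 0]
def sL {G : Type*} [Group G] (a : G) : Fin 4 → G := ![a, a⁻¹, a⁻¹, a]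
def sR {G : Type*} [Group G] (b : G) : Fin 4 → G := ![b, b, b⁻¹, b⁻¹]

private lemma strand_QQ_equivar {G : Type*} [Group G] {P : ℕ → (L2 Unit G →L[ℂ] L2 Unit G)}
    (hPe : ∀ j, Equivar (P j)) (n : ℕ) : Equivar (QQ P n) := by
  have h1 : ∀ m, Equivar (RR P m) := by
    intro m
    induction m with
    | zero => exact Equivar.one.sub (hPe 0)
    | succ m ih => exact ih.comp (hPe (m + 1))
  exact (h1 n).comp (Equivar.one.sub (hPe (n + 1)))

private lemma strand_comm_inv {G : Type*} [Group G] {T : L2 Unit G →L[ℂ] L2 Unit G} {s : G}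
    (h : rt s * T = T * rt s) (x : L2 Unit G) : T (rt s⁻¹ x) = rt s⁻¹ (T x) := by
  have h1 : rt s (T (rt s⁻¹ x)) = T (rt s (rt s⁻¹ x)) :=
    congrArg (fun U : L2 Unit G →L[ℂ] L2 Unit G => U (rt s⁻¹ x)) h
  rw [rt_rt, mul_inv_cancel, rt_one_apply] at h1
  rw [← h1, rt_rt, inv_mul_cancel, rt_one_apply]

private lemma strand_tr_sum {G : Type*} [Group G] (s : Finset ℕ)
    (T : ℕ → (L2 Unit G →L[ℂ] L2 Unit G)) : tr (∑ n ∈ s, T n) = ∑ n ∈ s, tr (T n) := by
  induction s using Finset.induction_on with
  | empty => simp [tr_zero]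
  | insert a s ha ih => rw [Finset.sum_insert ha, Finset.sum_insert ha, tr_add, ih]

private lemma strand_tw {G : Type*} [Group G] (π : Fin 4 → Fin 4) (s : Fin 4 → G)
    (x : L2 (Fin 4) G) :
    tw π s x = x ↔ ∀ i, rt (s i) (coordMap (π i) x) = coordMap i x := by
  constructor
  · intro h i
    rw [← coord_tw, h]
  · intro h
    apply ext_coord
    intro i
    rw [coord_tw, h]

theorem strand {G : Type*} [Group G] {P : ℕ → (L2 Unit G →L[ℂ] L2 Unit G)}
    (hPe : ∀ j, Equivar (P j)) (hP : ∀ j, P j * P j = P j) (hc : ∀ i j, P i * P j = P j * P i)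
    (S : Set ℕ) (a : G) (b : ℕ → G) (ha : ∀ j, rt a * P j = P j * rt a)
    (hb : ∀ n j, rt (b n) * P j = P j * rt (b n)) (hS : ∀ n ∈ S, Commute a (b n))
    (hS' : ∀ n, n ∉ S → ∀ m : ℕ, 0 < m → (a * b n * a⁻¹ * (b n)⁻¹) ^ m ≠ 1)
    (N : ℕ) (F : Submodule ℂ (L2 (Fin 4) G))
    (hF : ∀ v, v ∈ F ↔ (∑ n ∈ Finset.range N, diag (Fin 4) (QQ P n)) v = v ∧
      ∀ n < N, tw piL (sL a) (diag (Fin 4) (QQ P n) v) = diag (Fin 4) (QQ P n) v ∧
        tw piR (sR (b n)) (diag (Fin 4) (QQ P n) v) = diag (Fin 4) (QQ P n) v)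
    (τ : ℕ → ℝ) (hτ : ∀ n, tr (QQ P n) = τ n) :
    vdim (F : Set (L2 (Fin 4) G)) = ∑ n ∈ Finset.range N, if n ∈ S then τ n else 0 := by
  -- the operators
  have hQe : ∀ n, Equivar (QQ P n) := strand_QQ_equivar hPe
  have hQa : ∀ n x, QQ P n (rt a⁻¹ x) = rt a⁻¹ (QQ P n x) := fun n x =>
    strand_comm_inv (QQ_comm hc (rt a) ha n) x
  have hQb : ∀ m n x, QQ P n (rt (b m)⁻¹ x) = rt (b m)⁻¹ (QQ P n x) := fun m n x =>
    strand_comm_inv (QQ_comm hc (rt (b m)) (hb m) n) x
  have hQQ : ∀ n m x, QQ P n (QQ P m x) = if n = m then QQ P n x else 0 := by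
    intro n m x
    by_cases hnm : n = m
    · subst hnm
      rw [if_pos rfl]
      exact congrArg (fun U : L2 Unit G →L[ℂ] L2 Unit G => U x) (QQ_idem hP hc n)
    · rw [if_neg hnm]
      exact congrArg (fun U : L2 Unit G →L[ℂ] L2 Unit G => U x) (QQ_orth hP hc hnm)
  -- the coordinate description of `F`
  have hF' : ∀ v, v ∈ F ↔ (∀ i, ∑ n ∈ Finset.range N, QQ P n (coordMap i v) = coordMap i v) ∧
      ∀ n < N, (∀ i, rt (sL a i) (QQ P n (coordMap (piL i) v)) = QQ P n (coordMap i v)) ∧
        (∀ i, rt (sR (b n) i) (QQ P n (coordMap (piR i) v)) = QQ P n (coordMap i v)) := by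
    intro v
    rw [hF]
    apply and_congr
    · constructor
      · intro h i
        have h1 := congrArg (coordMap i) h
        rw [_root_.sum_apply, map_sum] at h1
        simpa only [coord_diag] using h1
      · intro h
        apply ext_coord
        intro i
        rw [_root_.sum_apply, map_sum]
        simp only [coord_diag]
        exact h i
    · refine forall_congr' fun n => forall_congr' fun _ => ?_
      rw [strand_tw, strand_tw]
      simp only [coord_diag]
  have hcancel : ∀ (g : G) (x : L2 Unit G), rt g (rt g⁻¹ x) = x := fun g x => by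
    rw [rt_rt, mul_inv_cancel, rt_one_apply]
  -- `F` is closed and invariant
  have hFc : IsClosed (F : Set (L2 (Fin 4) G)) := by
    have hset : (F : Set (L2 (Fin 4) G)) =
        {v | (∑ n ∈ Finset.range N, diag (Fin 4) (QQ P n)) v = v} ∩
          ⋂ n, ⋂ (_ : n < N), ({v | tw piL (sL a) (diag (Fin 4) (QQ P n) v) =
            diag (Fin 4) (QQ P n) v} ∩ {v | tw piR (sR (b n)) (diag (Fin 4) (QQ P n) v) =
            diag (Fin 4) (QQ P n) v}) := by
      ext v
      rw [SetLike.mem_coe, hF]
      simp only [Set.mem_inter_iff, Set.mem_iInter, Set.mem_ofPred_eq]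
    rw [hset]
    refine (isClosed_eq (ContinuousLinearMap.continuous _) continuous_id).inter
      (isClosed_iInter fun n => isClosed_iInter fun _ => ?_)
    exact (isClosed_eq ((ContinuousLinearMap.continuous _).comp
      (ContinuousLinearMap.continuous _)) (ContinuousLinearMap.continuous _)).inter
      (isClosed_eq ((ContinuousLinearMap.continuous _).comp
      (ContinuousLinearMap.continuous _)) (ContinuousLinearMap.continuous _))
  have hFi : Invar F := by
    intro s x hx
    rw [hF] at hx ⊢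
    obtain ⟨h1, h2⟩ := hx
    have he : Equivar (∑ n ∈ Finset.range N, diag (Fin 4) (QQ P n)) :=
      Equivar.sum _ fun n _ => diag_equivar (hQe n)
    refine ⟨by rw [he, h1], fun n hn => ?_⟩
    obtain ⟨h3, h4⟩ := h2 n hn
    rw [diag_equivar (hQe n), tw_equivar, tw_equivar, h3, h4]
    exact ⟨rfl, rfl⟩
  -- the kernel of the first coordinate
  have hker : F ⊓ LinearMap.ker (coordMap (G := G) (0 : Fin 4)).toLinearMap = ⊥ := by
    rw [eq_bot_iff]
    rintro v ⟨hv, h0⟩
    rw [Submodule.mem_bot]
    have h0' : coordMap (0 : Fin 4) v = 0 := h0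
    obtain ⟨h1, h2⟩ := (hF' v).1 hv
    apply ext_coord
    intro i
    rw [← h1 i, map_zero]
    apply Finset.sum_eq_zero
    intro n hn
    obtain ⟨h3, h4⟩ := h2 n (Finset.mem_range.1 hn)
    have e0 : QQ P n (coordMap (0 : Fin 4) v) = 0 := by rw [h0', map_zero]
    have e1 : QQ P n (coordMap (1 : Fin 4) v) = 0 := by
      have h5 : rt a⁻¹ (QQ P n (coordMap (0 : Fin 4) v)) = QQ P n (coordMap (1 : Fin 4) v) := h3 1
      rw [← h5, e0, map_zero]
    have e3 : QQ P n (coordMap (3 : Fin 4) v) = 0 := by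
      have h5 : rt (b n)⁻¹ (QQ P n (coordMap (0 : Fin 4) v)) =
        QQ P n (coordMap (3 : Fin 4) v) := h4 3
      rw [← h5, e0, map_zero]
    have e2 : QQ P n (coordMap (2 : Fin 4) v) = 0 := by
      have h5 : rt (b n)⁻¹ (QQ P n (coordMap (1 : Fin 4) v)) =
        QQ P n (coordMap (2 : Fin 4) v) := h4 2
      rw [← h5, e1, map_zero]
    fin_cases i
    · exact e0
    · exact e1
    · exact e2
    · exact e3
  -- the image of the first coordinate
  set E : L2 Unit G →L[ℂ] L2 Unit G := ∑ n ∈ (Finset.range N).filter (· ∈ S), QQ P n with hE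
  have hEx : ∀ x, E x = ∑ n ∈ (Finset.range N).filter (· ∈ S), QQ P n x := by
    intro x
    rw [hE, _root_.sum_apply]
  have himg : ∀ w, w ∈ F.map (coordMap (G := G) (0 : Fin 4)).toLinearMap ↔ E w = w := by
    intro w
    constructor
    · rintro ⟨v, hv, rfl⟩
      show E (coordMap (0 : Fin 4) v) = coordMap (0 : Fin 4) v
      obtain ⟨h1, h2⟩ := (hF' v).1 hv
      rw [hEx]
      conv_rhs => rw [← h1 0]
      rw [Finset.sum_filter]
      apply Finset.sum_congr rfl
      intro n hn
      by_cases hnS : n ∈ S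
      · rw [if_pos hnS]
      · rw [if_neg hnS]
        obtain ⟨h3, h4⟩ := h2 n (Finset.mem_range.1 hn)
        have e0 : rt a (QQ P n (coordMap (1 : Fin 4) v)) = QQ P n (coordMap (0 : Fin 4) v) := h3 0
        have e1 : rt (b n) (QQ P n (coordMap (2 : Fin 4) v)) =
          QQ P n (coordMap (1 : Fin 4) v) := h4 1
        have e2 : rt a⁻¹ (QQ P n (coordMap (3 : Fin 4) v)) = QQ P n (coordMap (2 : Fin 4) v) :=
          h3 2
        have e3 : rt (b n)⁻¹ (QQ P n (coordMap (0 : Fin 4) v)) =
          QQ P n (coordMap (3 : Fin 4) v) := h4 3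
        have e4 : rt (a * b n * a⁻¹ * (b n)⁻¹) (QQ P n (coordMap (0 : Fin 4) v)) =
            QQ P n (coordMap (0 : Fin 4) v) := by
          rw [← rt_rt, ← rt_rt, ← rt_rt, e3, e2, e1, e0]
        symm
        have e5 := no_eigen (QQ P n (coordMap (0 : Fin 4) v)) () _ (hS' n hnS) 1 (fun g => by
          conv_lhs => rw [← e4]
          rw [rt_apply, one_mul])
        ext ⟨u, g⟩
        exact e5 g
    · intro hw
      rw [hEx] at hw
      have hQw : ∀ n < N, n ∉ S → QQ P n w = 0 := by
        intro n hn hnS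
        conv_lhs => rw [← hw]
        rw [map_sum]
        apply Finset.sum_eq_zero
        intro m hm
        rw [hQQ, if_neg]
        rintro rfl
        exact hnS (Finset.mem_filter.1 hm).2
      have hfil : ∀ T : ℕ → L2 Unit G → L2 Unit G, (∀ n, T n 0 = 0) →
          ∑ n ∈ Finset.range N, T n (QQ P n w) =
            ∑ n ∈ (Finset.range N).filter (· ∈ S), T n (QQ P n w) := by
        intro T hT
        rw [Finset.sum_filter]
        apply Finset.sum_congr rfl
        intro n hn
        by_cases hnS : n ∈ S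
        · rw [if_pos hnS]
        · rw [if_neg hnS, hQw n (Finset.mem_range.1 hn) hnS, hT]
      have hQT : ∀ T : ℕ → (L2 Unit G →L[ℂ] L2 Unit G),
          (∀ m n x, QQ P n (T m x) = T m (QQ P n x)) → ∀ n < N,
          QQ P n (∑ m ∈ (Finset.range N).filter (· ∈ S), T m (QQ P m w)) = T n (QQ P n w) := by
        intro T hT n hn
        rw [map_sum]
        simp only [hT, hQQ]
        rw [Finset.sum_filter]
        rw [Finset.sum_eq_single n]
        · by_cases hnS : n ∈ S
          · rw [if_pos hnS, if_pos rfl]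
          · rw [if_neg hnS, hQw n hn hnS, map_zero]
        · intro m _ hm
          rw [if_neg (Ne.symm hm), map_zero, ite_self]
        · intro h
          exact absurd (Finset.mem_range.2 hn) h
      set v3 : L2 Unit G := ∑ m ∈ (Finset.range N).filter (· ∈ S), rt (b m)⁻¹ (QQ P m w) with hv3
      set v2 : L2 Unit G := ∑ m ∈ (Finset.range N).filter (· ∈ S),
        (rt (b m)⁻¹ ∘L rt a⁻¹) (QQ P m w) with hv2
      set v : L2 (Fin 4) G := inc 0 w + inc 1 (rt a⁻¹ w) + inc 2 v2 + inc 3 v3 with hv
      have c0 : coordMap (0 : Fin 4) v = w := by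
        rw [hv, map_add, map_add, map_add, coordMap_inc_self, coordMap_inc_ne (by decide),
          coordMap_inc_ne (by decide), coordMap_inc_ne (by decide), add_zero, add_zero, add_zero]
      have c1 : coordMap (1 : Fin 4) v = rt a⁻¹ w := by
        rw [hv, map_add, map_add, map_add, coordMap_inc_self, coordMap_inc_ne (by decide),
          coordMap_inc_ne (by decide), coordMap_inc_ne (by decide), add_zero, add_zero, zero_add]
      have c2 : coordMap (2 : Fin 4) v = v2 := by
        rw [hv, map_add, map_add, map_add, coordMap_inc_self, coordMap_inc_ne (by decide),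
          coordMap_inc_ne (by decide), coordMap_inc_ne (by decide), add_zero, zero_add, zero_add]
      have c3 : coordMap (3 : Fin 4) v = v3 := by
        rw [hv, map_add, map_add, map_add, coordMap_inc_self, coordMap_inc_ne (by decide),
          coordMap_inc_ne (by decide), coordMap_inc_ne (by decide), add_zero, zero_add, zero_add]
      have q1 : ∀ n, QQ P n (rt a⁻¹ w) = rt a⁻¹ (QQ P n w) := fun n => hQa n w
      have q2 : ∀ n < N, QQ P n v2 = rt (b n)⁻¹ (rt a⁻¹ (QQ P n w)) := by
        intro n hn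
        exact hQT (fun m => rt (b m)⁻¹ ∘L rt a⁻¹) (fun m n x => by
          show QQ P n (rt (b m)⁻¹ (rt a⁻¹ x)) = rt (b m)⁻¹ (rt a⁻¹ (QQ P n x))
          rw [hQb, hQa]) n hn
      have q3 : ∀ n < N, QQ P n v3 = rt (b n)⁻¹ (QQ P n w) := by
        intro n hn
        exact hQT (fun m => rt (b m)⁻¹) (fun m n x => hQb m n x) n hn
      have hsum0 : ∑ n ∈ Finset.range N, QQ P n w = w := by
        have h5 : ∑ n ∈ Finset.range N, QQ P n w =
          ∑ n ∈ (Finset.range N).filter (· ∈ S), QQ P n w := hfil (fun _ x => x) (fun _ => rfl)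
        rw [h5, hw]
      refine ⟨v, ?_, c0⟩
      rw [SetLike.mem_coe, hF']
      constructor
      · intro i
        fin_cases i
        · show ∑ n ∈ Finset.range N, QQ P n (coordMap (0 : Fin 4) v) = coordMap (0 : Fin 4) v
          rw [c0, hsum0]
        · show ∑ n ∈ Finset.range N, QQ P n (coordMap (1 : Fin 4) v) = coordMap (1 : Fin 4) v
          rw [c1]
          simp only [q1]
          rw [← map_sum, hsum0]
        · show ∑ n ∈ Finset.range N, QQ P n (coordMap (2 : Fin 4) v) = coordMap (2 : Fin 4) v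
          rw [c2, Finset.sum_congr rfl fun n hn => q2 n (Finset.mem_range.1 hn)]
          exact hfil (fun n x => rt (b n)⁻¹ (rt a⁻¹ x)) (fun n => by simp only [map_zero])
        · show ∑ n ∈ Finset.range N, QQ P n (coordMap (3 : Fin 4) v) = coordMap (3 : Fin 4) v
          rw [c3, Finset.sum_congr rfl fun n hn => q3 n (Finset.mem_range.1 hn)]
          exact hfil (fun n x => rt (b n)⁻¹ x) (fun n => by simp only [map_zero])
      · intro n hn
        have hcomm : rt a⁻¹ (rt (b n)⁻¹ (QQ P n w)) = rt (b n)⁻¹ (rt a⁻¹ (QQ P n w)) := by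
          by_cases hnS : n ∈ S
          · rw [rt_rt, rt_rt, ← mul_inv_rev, ← mul_inv_rev, (hS n hnS).eq]
          · rw [hQw n hn hnS]
            simp only [map_zero]
        constructor
        · intro i
          fin_cases i
          · show rt a (QQ P n (coordMap (1 : Fin 4) v)) = QQ P n (coordMap (0 : Fin 4) v)
            rw [c0, c1, q1, hcancel]
          · show rt a⁻¹ (QQ P n (coordMap (0 : Fin 4) v)) = QQ P n (coordMap (1 : Fin 4) v)
            rw [c0, c1, q1]
          · show rt a⁻¹ (QQ P n (coordMap (3 : Fin 4) v)) = QQ P n (coordMap (2 : Fin 4) v)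
            rw [c3, c2, q2 n hn, q3 n hn, hcomm]
          · show rt a (QQ P n (coordMap (2 : Fin 4) v)) = QQ P n (coordMap (3 : Fin 4) v)
            rw [c3, c2, q2 n hn, q3 n hn, ← hcomm, hcancel]
        · intro i
          fin_cases i
          · show rt (b n) (QQ P n (coordMap (3 : Fin 4) v)) = QQ P n (coordMap (0 : Fin 4) v)
            rw [c3, c0, q3 n hn, hcancel]
          · show rt (b n) (QQ P n (coordMap (2 : Fin 4) v)) = QQ P n (coordMap (1 : Fin 4) v)
            rw [c2, c1, q2 n hn, q1, hcancel]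
          · show rt (b n)⁻¹ (QQ P n (coordMap (1 : Fin 4) v)) = QQ P n (coordMap (2 : Fin 4) v)
            rw [c2, c1, q2 n hn, q1]
          · show rt (b n)⁻¹ (QQ P n (coordMap (0 : Fin 4) v)) = QQ P n (coordMap (3 : Fin 4) v)
            rw [c3, c0, q3 n hn]
  -- the dimension
  have hEe : Equivar E := Equivar.sum _ fun n _ => hQe n
  have hEE : E * E = E := by
    ext1 x
    show E (E x) = E x
    rw [hEx (E x), hEx x]
    apply Finset.sum_congr rfl
    intro n hn
    rw [map_sum]
    simp only [hQQ]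
    rw [Finset.sum_ite_eq, if_pos hn]
  have htr : tr E = ((∑ n ∈ (Finset.range N).filter (· ∈ S), τ n : ℝ) : ℂ) := by
    rw [hE, strand_tr_sum, Complex.ofReal_sum]
    exact Finset.sum_congr rfl fun n _ => hτ n
  have hdim := vdim_of_idem hEe hEE _ himg htr
  rw [← Finset.sum_filter]
  have hmap := vdim_map (coordMap_equivar (G := G) (0 : Fin 4)) hFi hFc
  rw [hker, vdim_bot, add_zero, hdim] at hmap
  exact hmap.symm

end Pool.Agent.AON
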