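import Pool.Agent.AON.IndL
import Pool.Agent.AON.IndR
import Pool.Agent.AON.Indep
import Pool.Agent.AON.Comp
import Pool.Agent.AON.Strand
import Pool.Agent.AON.DataDef

set_option autoImplicit false
set_option linter.unusedSectionVars false

noncomputable section

open scoped InnerProductSpace ENNReal Topology
open Classical Filter ContinuousLinearMap
open Pool.Agent.VN

/-!
The dimension `(1 - d)² ∑_(s ∈ S) d^s + const`.
-/

namespace Pool.Agent.AON

section twist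

variable {ι G : Type*} [Group G] [Fintype ι]

lemma tw_comm_diag (π : ι → ι) (s : ι → G) (T : L2 Unit G →L[ℂ] L2 Unit G)
    (h : ∀ i, rt (s i) * T = T * rt (s i)) : tw π s * diag ι T = diag ι T * tw π s := by
  ext1 x
  apply ext_coord
  intro i
  show coordMap i (tw π s (diag ι T x)) = coordMap i (diag ι T (tw π s x))
  rw [coord_tw, coord_diag, coord_diag, coord_tw]
  exact congrArg (fun A : L2 Unit G →L[ℂ] L2 Unit G => A (coordMap (π i) x)) (h i)

lemma conj_tw (π : ι → ι) (s : ι → G) (u : G) :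
    rt u * tw π s * rt u⁻¹ = tw π (fun i => u * s i * u⁻¹) := by
  ext1 x
  apply ext_coord
  intro i
  show coordMap i (rt u (tw π s (rt u⁻¹ x))) = _
  rw [coordMap_rt, coord_tw, coordMap_rt, coord_tw, rt_rt, rt_rt, mul_assoc]

lemma rt_mul_diag (u : G) (T : L2 Unit G →L[ℂ] L2 Unit G) :
    rt u * diag ι T = diag ι (rt u * T) := by
  ext1 x
  apply ext_coord
  intro i
  show coordMap i (rt u (diag ι T x)) = _
  rw [coordMap_rt, coord_diag, coord_diag]
  rfl

lemma diag_mul_rt (u : G) (T : L2 Unit G →L[ℂ] L2 Unit G) :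
    diag ι T * rt u = diag ι (T * rt u) := by
  ext1 x
  apply ext_coord
  intro i
  show coordMap i (diag ι T (rt u x)) = _
  rw [coord_diag, coordMap_rt, coord_diag]
  rfl

lemma QQ_diag (P : ℕ → (L2 Unit G →L[ℂ] L2 Unit G)) (n : ℕ) :
    QQ (fun j => diag ι (P j)) n = diag ι (QQ P n) := by
  have h : ∀ n, RR (fun j => diag ι (P j)) n = diag ι (RR P n) := by
    intro n
    induction n with
    | zero =>
      show 1 - diag ι (P 0) = diag ι (1 - P 0)
      rw [diag_sub, diag_one]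
    | succ n ih =>
      show RR (fun j => diag ι (P j)) n * diag ι (P (n + 1)) = diag ι (RR P n * P (n + 1))
      rw [ih, diag_mul]
  show RR (fun j => diag ι (P j)) n * (1 - diag ι (P (n + 1))) = diag ι (RR P n * (1 - P (n + 1)))
  rw [h, diag_mul, diag_sub, diag_one]

lemma diag_apply_eq_zero_iff (T : L2 Unit G →L[ℂ] L2 Unit G) (x : L2 ι G) :
    diag ι T x = 0 ↔ ∀ i, T (coordMap i x) = 0 := by
  constructor
  · intro h i
    rw [← coord_diag, h, map_zero]
  · intro h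
    apply ext_coord
    intro i
    rw [coord_diag, h i, map_zero]

end twist

section

variable {H G : Type} [Group H] [Group G] {S : Set ℕ} (X : Data H G S)
  (J : Submodule ℂ (L2 Unit H))

omit [Group H] in
lemma commute_conj (u : G) {x y : G} (h : Commute x y) :
    Commute (u * x * u⁻¹) (u * y * u⁻¹) := by
  have h' : x * y = y * x := h
  show u * x * u⁻¹ * (u * y * u⁻¹) = u * y * u⁻¹ * (u * x * u⁻¹)
  calc u * x * u⁻¹ * (u * y * u⁻¹) = u * (x * y) * u⁻¹ := by group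
    _ = u * (y * x) * u⁻¹ := by rw [h']
    _ = _ := by group

lemma Data.conj_comm {i j : ℕ} (hij : i ≠ j) (h h' : H) :
    Commute (X.t ^ i * X.f h * (X.t ^ i)⁻¹) (X.t ^ j * X.f h' * (X.t ^ j)⁻¹) := by
  have key : ∀ i j : ℕ, i < j → ∀ h h', Commute (X.t ^ i * X.f h * (X.t ^ i)⁻¹)
      (X.t ^ j * X.f h' * (X.t ^ j)⁻¹) := by
    intro i j hij h h'
    have h1 := (X.comm (j - i) (by omega) h' h).symm
    have h2 := commute_conj (X.t ^ i) h1
    have e : X.t ^ j = X.t ^ i * X.t ^ (j - i) := by rw [← pow_add]; congr 1; omega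
    rw [e]
    convert h2 using 1
    group
  rcases lt_or_gt_of_ne hij with h1 | h1
  · exact key i j h1 h h'
  · exact (key j i h1 h' h).symm

/-- the projections -/
def PP (j : ℕ) : L2 Unit G →L[ℂ] L2 Unit G :=
  rt (X.t ^ j) * prj (Ind X.f X.inj J) * rt (X.t ^ j)⁻¹

variable {J} (hJ : Invar J) (hJc : IsClosed (J : Set (L2 Unit H)))

include hJ hJc in
lemma PP_comm_rt (j : ℕ) (s : G) (hs : ∀ h, Commute s (X.t ^ j * X.f h * (X.t ^ j)⁻¹)) :
    rt s * PP X J j = PP X J j * rt s := by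
  have h1 : ∀ h, Commute ((X.t ^ j)⁻¹ * s * X.t ^ j) (X.f h) := by
    intro h
    have h2 := commute_conj (X.t ^ j)⁻¹ (hs h)
    convert h2 using 1
    · rw [inv_inv]
    · group
  have h2 := rt_comm_prj X.f X.inj hJ hJc _ h1
  have e1 : rt s * rt (X.t ^ j) = (rt (X.t ^ j) * rt ((X.t ^ j)⁻¹ * s * X.t ^ j) :
      L2 Unit G →L[ℂ] L2 Unit G) := by
    rw [← rt_mul, ← rt_mul]
    congr 1
    group
  have e2 : rt ((X.t ^ j)⁻¹ * s * X.t ^ j) * rt (X.t ^ j)⁻¹ = (rt (X.t ^ j)⁻¹ * rt s :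
      L2 Unit G →L[ℂ] L2 Unit G) := by
    rw [← rt_mul, ← rt_mul]
    congr 1
    group
  unfold PP
  calc rt s * (rt (X.t ^ j) * prj (Ind X.f X.inj J) * rt (X.t ^ j)⁻¹)
      = (rt s * rt (X.t ^ j)) * prj (Ind X.f X.inj J) * rt (X.t ^ j)⁻¹ := by
        simp only [mul_assoc]
    _ = rt (X.t ^ j) * (rt ((X.t ^ j)⁻¹ * s * X.t ^ j) * prj (Ind X.f X.inj J))
          * rt (X.t ^ j)⁻¹ := by rw [e1]; simp only [mul_assoc]
    _ = rt (X.t ^ j) * prj (Ind X.f X.inj J)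
          * (rt ((X.t ^ j)⁻¹ * s * X.t ^ j) * rt (X.t ^ j)⁻¹) := by
        rw [h2]; simp only [mul_assoc]
    _ = _ := by rw [e2]; simp only [mul_assoc]

include hJ hJc in
lemma PP_equivar (j : ℕ) : Equivar (PP X J j) :=
  ((rt_equivar _).comp (prj_equivar (Ind_closed X.f X.inj hJc) (Ind_invar _ _ _))).comp
    (rt_equivar _)

include hJc in
lemma PP_idem (j : ℕ) : PP X J j * PP X J j = PP X J j := by
  have h := prj_idem (Ind_closed X.f X.inj hJc)
  have e : (rt (X.t ^ j)⁻¹ * rt (X.t ^ j) : L2 Unit G →L[ℂ] L2 Unit G) = 1 := by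
    rw [← rt_mul, inv_mul_cancel, rt_one]
  unfold PP
  calc rt (X.t ^ j) * prj (Ind X.f X.inj J) * rt (X.t ^ j)⁻¹
        * (rt (X.t ^ j) * prj (Ind X.f X.inj J) * rt (X.t ^ j)⁻¹)
      = rt (X.t ^ j) * prj (Ind X.f X.inj J) * (rt (X.t ^ j)⁻¹ * rt (X.t ^ j))
        * prj (Ind X.f X.inj J) * rt (X.t ^ j)⁻¹ := by simp only [mul_assoc]
    _ = rt (X.t ^ j) * (prj (Ind X.f X.inj J) * prj (Ind X.f X.inj J)) * rt (X.t ^ j)⁻¹ := by
        rw [e]; simp only [mul_assoc, one_mul]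
    _ = _ := by rw [h]

/-- the support of `PP j` -/
def MM (j : ℕ) : Subgroup G := X.f.range.map (MulAut.conj (X.t ^ j)).toMonoidHom

lemma mem_MM {j : ℕ} {g : G} : g ∈ MM X j ↔ ∃ h, X.t ^ j * X.f h * (X.t ^ j)⁻¹ = g := by
  unfold MM
  rw [Subgroup.mem_map]
  constructor
  · rintro ⟨_, ⟨h, rfl⟩, rfl⟩
    exact ⟨h, rfl⟩
  · rintro ⟨h, rfl⟩
    exact ⟨X.f h, ⟨h, rfl⟩, rfl⟩

include hJ hJc in
lemma PP_supp (j : ℕ) : SuppOn (MM X j) (PP X J j) := by
  unfold PP
  apply SuppOn.conj (N := X.f.range) (prj_equivar (Ind_closed X.f X.inj hJc) (Ind_invar _ _ _))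
  · intro g hg
    apply prj_Ind_dl X.f X.inj hJ hJc
    intro h hh
    exact hg ⟨h, hh⟩
  · rintro _ ⟨h, rfl⟩
    rw [mem_MM]
    exact ⟨h, rfl⟩

include hJ hJc in
lemma PP_comm (i j : ℕ) : PP X J i * PP X J j = PP X J j * PP X J i := by
  by_cases hij : i = j
  · rw [hij]
  apply comm_of_supp (PP_equivar X hJ hJc i) (PP_equivar X hJ hJc j) (PP_supp X hJ hJc i)
  intro n hn
  obtain ⟨h, rfl⟩ := (mem_MM X).mp hn
  apply PP_comm_rt X hJ hJc
  intro h'
  exact X.conj_comm hij h h'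

lemma PP_shift (j : ℕ) : rt X.t * PP X J j = PP X J (j + 1) * rt X.t := by
  have e1 : (rt X.t * rt (X.t ^ j) : L2 Unit G →L[ℂ] L2 Unit G) = rt (X.t ^ (j + 1)) := by
    rw [← rt_mul, ← pow_succ']
  have e2 : (rt (X.t ^ (j + 1))⁻¹ * rt X.t : L2 Unit G →L[ℂ] L2 Unit G) = rt (X.t ^ j)⁻¹ := by
    rw [← rt_mul]
    congr 1
    rw [pow_succ]
    group
  unfold PP
  calc rt X.t * (rt (X.t ^ j) * prj (Ind X.f X.inj J) * rt (X.t ^ j)⁻¹)
      = (rt X.t * rt (X.t ^ j)) * prj (Ind X.f X.inj J) * rt (X.t ^ j)⁻¹ := by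
        simp only [mul_assoc]
    _ = rt (X.t ^ (j + 1)) * prj (Ind X.f X.inj J) * (rt (X.t ^ (j + 1))⁻¹ * rt X.t) := by
        rw [e1, e2]
    _ = _ := by simp only [mul_assoc]

include hJ hJc in
lemma PP_tr (j : ℕ) : tr (PP X J j) = (vdim (J : Set (L2 Unit H)) : ℝ) := by
  have hcl := Ind_closed X.f X.inj hJc
  have e : (rt (X.t ^ j)⁻¹ * rt (X.t ^ j) : L2 Unit G →L[ℂ] L2 Unit G) = 1 := by
    rw [← rt_mul, inv_mul_cancel, rt_one]
  have h1 : tr (PP X J j) = tr (prj (Ind X.f X.inj J) * rt (X.t ^ j)⁻¹ * rt (X.t ^ j)) := by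
    have h2 := tr_comm (S := (prj (Ind X.f X.inj J)) ∘L rt (X.t ^ j)⁻¹) (T := rt (X.t ^ j))
      ((prj_equivar hcl (Ind_invar _ _ _)).comp (rt_equivar _)) (rt_equivar _)
    exact h2
  rw [h1, mul_assoc, e, mul_one, tr_prj hcl, vdim_Ind X.f X.inj hJ hJc]

include hJc in
lemma PP_adjoint (j : ℕ) : adjoint (PP X J j) = PP X J j := by
  unfold PP
  show adjoint ((rt (X.t ^ j) ∘L prj (Ind X.f X.inj J)) ∘L rt (X.t ^ j)⁻¹) = _
  rw [adjoint_comp, adjoint_comp, rt_adjoint, rt_adjoint, inv_inv,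
    prj_adjoint (Ind_closed X.f X.inj hJc)]
  rfl

lemma PP_zero : PP X J 0 = prj (Ind X.f X.inj J) := by
  unfold PP
  rw [pow_zero, inv_one, rt_one, one_mul, mul_one]

lemma Data.comm_b (m j : ℕ) (h : H) :
    Commute (X.t ^ m * X.b * (X.t ^ m)⁻¹) (X.t ^ j * X.f h * (X.t ^ j)⁻¹) := by
  have h1 := commute_conj (X.t ^ m) (X.cb ((j : ℤ) - m) h)
  have e : (X.t ^ j : G) = X.t ^ m * X.t ^ ((j : ℤ) - m) := by
    rw [← zpow_natCast X.t m, ← zpow_add, ← zpow_natCast]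
    congr 1
    ring
  rw [e]
  convert h1 using 1
  group

lemma Data.comm_a (j : ℕ) (h : H) : Commute X.a (X.t ^ j * X.f h * (X.t ^ j)⁻¹) := by
  have h1 := X.ca (j : ℤ) h
  rwa [zpow_natCast] at h1

end

/-- the sum `∑ (n + 1) (1 - d)² dⁿ` is `1` -/
lemma hasSum_weights {d : ℝ} (h0 : 0 ≤ d) (h1 : d < 1) :
    HasSum (fun n : ℕ => ((n : ℝ) + 1) * ((1 - d) ^ 2 * d ^ n)) 1 := by
  have hn : ‖d‖ < 1 := by rw [Real.norm_of_nonneg h0]; exact h1
  have h2 := hasSum_coe_mul_geometric_of_norm_lt_one hn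
  have h3 := hasSum_geometric_of_lt_one h0 h1
  have h4 := (h2.add h3).mul_left ((1 - d) ^ 2)
  have hd : 1 - d ≠ 0 := by linarith
  have e1 : (fun n : ℕ => ((n : ℝ) + 1) * ((1 - d) ^ 2 * d ^ n))
      = fun n : ℕ => (1 - d) ^ 2 * ((n : ℝ) * d ^ n + d ^ n) := by
    funext n
    ring
  have e2 : (1 - d) ^ 2 * (d / (1 - d) ^ 2 + (1 - d)⁻¹) = 1 := by
    field_simp
    ring
  rw [e1]
  rw [e2] at h4
  exact h4

lemma one_sub_apply_eq_zero {ι G : Type*} [Group G] (T : L2 ι G →L[ℂ] L2 ι G) (x : L2 ι G) :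
    (1 - T) x = 0 ↔ T x = x := by
  show x - T x = 0 ↔ _
  rw [sub_eq_zero]
  exact eq_comm

section main

variable {H G : Type} [Group H] [Group G] {S : Set ℕ} (X : Data H G S)
  {J : Submodule ℂ (L2 Unit H)} (hJ : Invar J) (hJc : IsClosed (J : Set (L2 Unit H)))

/-- the solution space -/
def KK (J : Submodule ℂ (L2 Unit H)) : Submodule ℂ (L2 (Fin 4) G) :=
  LinearMap.ker (diag (Fin 4) (PP X J 0) * (1 - rt X.t⁻¹)).toLinearMap
    ⊓ LinearMap.ker ((1 - diag (Fin 4) (PP X J 0)) * (1 - tw piL (sL X.a))).toLinearMap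
    ⊓ LinearMap.ker ((1 - diag (Fin 4) (PP X J 1)) * (1 - tw piR (sR X.b))).toLinearMap

lemma mem_KK (x : L2 (Fin 4) G) : x ∈ KK X J ↔ diag (Fin 4) (PP X J 0) (x - rt X.t⁻¹ x) = 0 ∧
    (1 - diag (Fin 4) (PP X J 0)) ((1 - tw piL (sL X.a)) x) = 0 ∧
    (1 - diag (Fin 4) (PP X J 1)) ((1 - tw piR (sR X.b)) x) = 0 := by
  unfold KK
  rw [Submodule.mem_inf, Submodule.mem_inf, and_assoc]
  rfl

lemma sR_conj (u b : G) : (fun i => u * sR b i * u⁻¹) = sR (u * b * u⁻¹) := by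
  funext i
  fin_cases i
  · rfl
  · rfl
  · show u * b⁻¹ * u⁻¹ = (u * b * u⁻¹)⁻¹
    group
  · show u * b⁻¹ * u⁻¹ = (u * b * u⁻¹)⁻¹
    group

lemma rt_inv_comm (s : G) (T : L2 Unit G →L[ℂ] L2 Unit G) (h : rt s * T = T * rt s) :
    rt s⁻¹ * T = T * rt s⁻¹ := by
  have e1 : (rt s⁻¹ * rt s : L2 Unit G →L[ℂ] L2 Unit G) = 1 := by
    rw [← rt_mul, inv_mul_cancel, rt_one]
  have e2 : (rt s * rt s⁻¹ : L2 Unit G →L[ℂ] L2 Unit G) = 1 := by
    rw [← rt_mul, mul_inv_cancel, rt_one]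
  calc rt s⁻¹ * T = rt s⁻¹ * T * (rt s * rt s⁻¹) := by rw [e2, mul_one]
    _ = rt s⁻¹ * (T * rt s) * rt s⁻¹ := by simp only [mul_assoc]
    _ = (rt s⁻¹ * rt s) * T * rt s⁻¹ := by rw [← h]; simp only [mul_assoc]
    _ = T * rt s⁻¹ := by rw [e1, one_mul]

include hJ hJc in
lemma vdim_KK_bound (N : ℕ) :
    |vdim (KK X J : Set (L2 (Fin 4) G)) - ∑ n ∈ Finset.range N,
      (if n ∈ S then (1 - vdim (J : Set (L2 Unit H))) ^ 2 * vdim (J : Set (L2 Unit H)) ^ n else 0)|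
    ≤ 4 * (1 - ∑ n ∈ Finset.range N, ((n : ℝ) + 1) *
        ((1 - vdim (J : Set (L2 Unit H))) ^ 2 * vdim (J : Set (L2 Unit H)) ^ n)) := by
  set d := vdim (J : Set (L2 Unit H)) with hd
  set P : ℕ → (L2 Unit G →L[ℂ] L2 Unit G) := PP X J with hP
  have hPe : ∀ j, Equivar (P j) := PP_equivar X hJ hJc
  have hPi : ∀ j, P j * P j = P j := PP_idem X hJc
  have hPc : ∀ i j, P i * P j = P j * P i := PP_comm X hJ hJc
  have hτ : ∀ n, tr (QQ P n) = (((1 - d) ^ 2 * d ^ n : ℝ) : ℂ) := by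
    intro n
    refine tr_QQ hPe (MM X) X.N (PP_supp X hJ hJc) ?_ ?_ (PP_tr X hJ hJc) n
    · intro n j hj g hg
      obtain ⟨h, rfl⟩ := (mem_MM X).mp hg
      exact X.memN n j hj h
    · intro n g hg hg2
      obtain ⟨h, rfl⟩ := (mem_MM X).mp hg2
      rw [X.disj n h hg, map_one, mul_one, mul_inv_cancel]
  set p : ℕ → (L2 (Fin 4) G →L[ℂ] L2 (Fin 4) G) := fun j => diag (Fin 4) (P j) with hp
  have hQ : ∀ n, QQ p n = diag (Fin 4) (QQ P n) := QQ_diag P
  have hτ4 : ∀ n, tr (QQ p n) = ((4 * ((1 - d) ^ 2 * d ^ n) : ℝ) : ℂ) := by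
    intro n
    rw [hQ, tr_diag, hτ n]
    push_cast
    rw [Fintype.card_fin]
    norm_num
  have ha : ∀ j, rt X.a * P j = P j * rt X.a := fun j =>
    PP_comm_rt X hJ hJc j _ (X.comm_a j)
  have hb : ∀ m j, rt (X.t ^ m * X.b * (X.t ^ m)⁻¹) * P j
      = P j * rt (X.t ^ m * X.b * (X.t ^ m)⁻¹) := fun m j =>
    PP_comm_rt X hJ hJc j _ (X.comm_b m j)
  have hTL : ∀ j, (1 - tw piL (sL X.a)) * p j = p j * (1 - tw piL (sL X.a)) := by
    intro j
    rw [sub_mul, mul_sub, one_mul, mul_one, tw_comm_diag]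
    intro i
    fin_cases i
    · exact ha j
    · exact rt_inv_comm _ _ (ha j)
    · exact rt_inv_comm _ _ (ha j)
    · exact ha j
  have hpow : ∀ n : ℕ, (rt X.t : L2 (Fin 4) G →L[ℂ] L2 (Fin 4) G) ^ n = rt (X.t ^ n) :=
    fun n => (rt_pow _ _).symm
  have hpow' : ∀ n : ℕ, (rt X.t⁻¹ : L2 (Fin 4) G →L[ℂ] L2 (Fin 4) G) ^ n = rt (X.t ^ n)⁻¹ := by
    intro n
    rw [← rt_pow, inv_pow]
  have hTRc : ∀ n : ℕ, (rt X.t : L2 (Fin 4) G →L[ℂ] L2 (Fin 4) G) ^ n
      * (1 - tw piR (sR X.b)) * rt X.t⁻¹ ^ n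
      = 1 - tw piR (sR (X.t ^ n * X.b * (X.t ^ n)⁻¹)) := by
    intro n
    rw [hpow, hpow', mul_sub, sub_mul, mul_one, conj_tw, sR_conj, ← rt_mul, mul_inv_cancel,
      rt_one]
  have hTR : ∀ m j, ((rt X.t : L2 (Fin 4) G →L[ℂ] L2 (Fin 4) G) ^ m
      * (1 - tw piR (sR X.b)) * rt X.t⁻¹ ^ m) * p j
      = p j * (rt X.t ^ m * (1 - tw piR (sR X.b)) * rt X.t⁻¹ ^ m) := by
    intro m j
    rw [hTRc, sub_mul, mul_sub, one_mul, mul_one, tw_comm_diag]
    intro i
    fin_cases i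
    · exact hb m j
    · exact hb m j
    · exact rt_inv_comm _ _ (hb m j)
    · exact rt_inv_comm _ _ (hb m j)
  -- the space `F`
  set F : Submodule ℂ (L2 (Fin 4) G) :=
    LinearMap.ker (1 - ∑ n ∈ Finset.range N, QQ p n).toLinearMap
      ⊓ ⨅ n : Fin N, (LinearMap.ker ((1 - tw piL (sL X.a)) * QQ p n).toLinearMap
        ⊓ LinearMap.ker ((rt X.t ^ (n : ℕ) * (1 - tw piR (sR X.b)) * rt X.t⁻¹ ^ (n : ℕ))
          * QQ p n).toLinearMap) with hFdef
  have hF : ∀ v, v ∈ F ↔ (∑ n ∈ Finset.range N, QQ p n) v = v ∧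
      ∀ n < N, (1 - tw piL (sL X.a)) (QQ p n v) = 0 ∧
        (rt X.t ^ n * (1 - tw piR (sR X.b)) * rt X.t⁻¹ ^ n : L2 (Fin 4) G →L[ℂ] L2 (Fin 4) G)
          (QQ p n v) = 0 := by
    intro v
    rw [hFdef, Submodule.mem_inf, Submodule.mem_iInf]
    refine and_congr ?_ ?_
    · show v - (∑ n ∈ Finset.range N, QQ p n) v = 0 ↔ _
      rw [sub_eq_zero]
      exact eq_comm
    · constructor
      · intro h n hn
        exact h ⟨n, hn⟩
      · intro h n
        exact h n n.2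
  have hpe : ∀ j, Equivar (p j) := fun j => diag_equivar (hPe j)
  have hpi : ∀ j, p j * p j = p j := by
    intro j
    show diag (Fin 4) (P j) * diag (Fin 4) (P j) = diag (Fin 4) (P j)
    rw [← diag_mul, hPi]
  have hpc : ∀ i j, p i * p j = p j * p i := by
    intro i j
    show diag (Fin 4) (P i) * diag (Fin 4) (P j) = diag (Fin 4) (P j) * diag (Fin 4) (P i)
    rw [← diag_mul, ← diag_mul, hPc]
  have hUp : ∀ j, rt X.t * p j = p (j + 1) * rt X.t := by
    intro j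
    show rt X.t * diag (Fin 4) (P j) = diag (Fin 4) (P (j + 1)) * rt X.t
    rw [rt_mul_diag, diag_mul_rt]
    congr 1
    exact PP_shift X j
  have hpa : ∀ j, adjoint (p j) = p j := by
    intro j
    show adjoint (diag (Fin 4) (P j)) = diag (Fin 4) (P j)
    rw [diag_adjoint]
    congr 1
    exact PP_adjoint X hJc j
  have e1 : (rt X.t * rt X.t⁻¹ : L2 (Fin 4) G →L[ℂ] L2 (Fin 4) G) = 1 := by
    rw [← rt_mul, mul_inv_cancel, rt_one]
  have e2 : (rt X.t⁻¹ * rt X.t : L2 (Fin 4) G →L[ℂ] L2 (Fin 4) G) = 1 := by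
    rw [← rt_mul, inv_mul_cancel, rt_one]
  have hcomp := component (U := rt X.t) (U' := rt X.t⁻¹) (TL := 1 - tw piL (sL X.a))
    (TR := 1 - tw piR (sR X.b)) (p := p) (rt_equivar _) (rt_equivar _) e1 e2
    (rt_adjoint _) (Equivar.one.sub (tw_equivar _ _)) (Equivar.one.sub (tw_equivar _ _))
    hpe hpi hpa hpc hUp hTL hTR (KK X J) (mem_KK X) N F hF _ hτ4
  have hstr := strand hPe hPi hPc S X.a (fun n => X.t ^ n * X.b * (X.t ^ n)⁻¹) ha hb
    X.inS X.notS N F (fun v => by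
      rw [hF]
      simp only [hQ]
      refine and_congr Iff.rfl (forall_congr' fun n => imp_congr_right fun _ => ?_)
      rw [hTRc]
      exact and_congr (one_sub_apply_eq_zero _ _) (one_sub_apply_eq_zero _ _)) _ hτ
  rw [hstr, Fintype.card_fin] at hcomp
  obtain ⟨h1, h2⟩ := hcomp
  have h3 : ∑ n ∈ Finset.range N, ((n : ℝ) + 1) * (4 * ((1 - d) ^ 2 * d ^ n))
      = 4 * ∑ n ∈ Finset.range N, ((n : ℝ) + 1) * ((1 - d) ^ 2 * d ^ n) := by
    rw [Finset.mul_sum]
    refine Finset.sum_congr rfl fun n _ => ?_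
    ring
  rw [h3] at h2
  push_cast at h2
  rw [abs_le]
  constructor
  · linarith
  · linarith

include hJ hJc in
lemma vdim_KK (hd1 : vdim (J : Set (L2 Unit H)) < 1) {y : ℝ}
    (hy : HasSum (fun n => if n ∈ S then vdim (J : Set (L2 Unit H)) ^ n else 0) y) :
    vdim (KK X J : Set (L2 (Fin 4) G)) = (1 - vdim (J : Set (L2 Unit H))) ^ 2 * y := by
  set d := vdim (J : Set (L2 Unit H)) with hd
  have h0 : 0 ≤ d := vdim_nonneg J
  have h1 := (hasSum_weights h0 hd1).tendsto_sum_nat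
  have h2 := (hy.mul_left ((1 - d) ^ 2)).tendsto_sum_nat
  have h3 : ∀ N : ℕ, ∑ n ∈ Finset.range N, (1 - d) ^ 2 * (if n ∈ S then d ^ n else 0)
      = ∑ n ∈ Finset.range N, (if n ∈ S then (1 - d) ^ 2 * d ^ n else 0) := by
    intro N
    refine Finset.sum_congr rfl fun n _ => ?_
    split_ifs
    · rfl
    · rw [mul_zero]
  simp only [h3] at h2
  have h4 : Tendsto (fun N : ℕ => 4 * (1 - ∑ n ∈ Finset.range N,
      ((n : ℝ) + 1) * ((1 - d) ^ 2 * d ^ n))) atTop (𝓝 (4 * (1 - 1))) :=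
    (h1.const_sub 1).const_mul 4
  rw [sub_self, mul_zero] at h4
  have h5 : Tendsto (fun N : ℕ => |vdim (KK X J : Set (L2 (Fin 4) G))
      - ∑ n ∈ Finset.range N, (if n ∈ S then (1 - d) ^ 2 * d ^ n else 0)|) atTop
      (𝓝 |vdim (KK X J : Set (L2 (Fin 4) G)) - (1 - d) ^ 2 * y|) :=
    (h2.const_sub _).abs
  have h6 := le_of_tendsto_of_tendsto' h5 h4 (vdim_KK_bound X hJ hJc)
  have h7 := abs_nonpos_iff.mp h6
  linarith

end main

theorem dset_of_data {k : Subring ℂ} {H G : Type} [Group H] [Group G] {S : Set ℕ}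
    (X : Data H G S) {J : Submodule ℂ (L2 Unit H)} {c c' : ℝ} (h1 : RatD k J c)
    (h2 : RatD k Jᗮ c') (hd1 : vdim (J : Set (L2 Unit H)) < 1) {y : ℝ}
    (hy : HasSum (fun n => if n ∈ S then vdim (J : Set (L2 Unit H)) ^ n else 0) y) :
    (1 - vdim (J : Set (L2 Unit H))) ^ 2 * y + (8 * c + 4 * c') ∈ Dset k G := by
  have hJ := h1.invar
  have hJc := h1.closed
  have hr1 : RatD k (Ind X.f X.inj J) c := h1.ind X.f X.inj
  have hr2 : RatD k (Ind X.f X.inj J)ᗮ c' := by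
    rw [Ind_orthogonal X.f X.inj hJ hJc]
    exact h2.ind X.f X.inj
  have hcl := hr1.closed
  have hpc : ∀ (i : Fin 4) (s : G), CoefIn k (Finsupp.single (i, s) (1 : ℂ)) :=
    fun i s => coefIn_single _ _ _ k.one_mem
  have hsub : ∀ a b : Fin 4 × G →₀ ℂ, CoefIn k a → CoefIn k b → CoefIn k (a - b) := by
    intro a b ha hb p
    rw [Finsupp.sub_apply]
    exact k.sub_mem (ha p) (hb p)
  have key := realise (k := k) (G := G) (ι := Fin 4) (q := Fin 4 ⊕ (Fin 4 ⊕ Fin 4))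
    (Sum.elim (fun i => Finsupp.single (i, 1) 1 - Finsupp.single (i, X.t) 1)
      (Sum.elim
        (fun i => Finsupp.single (i, 1) 1 - Finsupp.single (piL i, (sL X.a i)⁻¹) 1)
        (fun i => Finsupp.single (i, X.t) 1
          - Finsupp.single (piR i, (X.t⁻¹ * sR X.b i)⁻¹) 1)))
    (by
      rintro (i | i | i)
      · exact hsub _ _ (hpc _ _) (hpc _ _)
      · exact hsub _ _ (hpc _ _) (hpc _ _)
      · exact hsub _ _ (hpc _ _) (hpc _ _))
    (Sum.elim (fun _ => (Ind X.f X.inj J)ᗮ) (fun _ => Ind X.f X.inj J))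
    (Sum.elim (fun _ => c') (fun _ => c))
    (by
      rintro (i | i)
      · exact hr2
      · exact hr1)
    (KK X J) (by
      intro x
      rw [mem_KK]
      have hP1 : PP X J 1 = rt X.t * prj (Ind X.f X.inj J) * rt X.t⁻¹ := by
        unfold PP
        rw [pow_one]
      constructor
      · rintro ⟨g1, g2, g3⟩ (i | i | i)
        · show mulR (fun _ : Unit => Finsupp.single (i, (1 : G)) 1 - Finsupp.single (i, X.t) 1) x
            ∈ (Ind X.f X.inj J)ᗮ
          rw [mulR_sub_forms, mulR_single, mulR_single, inv_one, rt_one_apply,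
            ← prj_eq_zero_iff hcl, ← PP_zero, ← coordMap_rt, ← map_sub, ← coord_diag, g1,
            map_zero]
        · show mulR (fun _ : Unit => Finsupp.single (i, (1 : G)) 1
            - Finsupp.single (piL i, (sL X.a i)⁻¹) 1) x ∈ Ind X.f X.inj J
          rw [mulR_sub_forms, mulR_single, mulR_single, inv_one, rt_one_apply, inv_inv,
            ← prj_sub_eq_zero_iff hcl, ← PP_zero, ← coord_tw, ← map_sub]
          have e : (1 - PP X J 0) (coordMap i (x - tw piL (sL X.a) x))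
              = coordMap i ((1 - diag (Fin 4) (PP X J 0)) ((1 - tw piL (sL X.a)) x)) := by
            rw [← diag_one (ι := Fin 4), ← diag_sub, coord_diag, diag_one]
            rfl
          rw [e, g2, map_zero]
        · show mulR (fun _ : Unit => Finsupp.single (i, X.t) 1
            - Finsupp.single (piR i, (X.t⁻¹ * sR X.b i)⁻¹) 1) x ∈ Ind X.f X.inj J
          rw [mulR_sub_forms, mulR_single, mulR_single, inv_inv, ← rt_rt,
            ← prj_sub_eq_zero_iff hcl, ← coord_tw, ← map_sub, ← map_sub]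
          have e : rt X.t ((1 - prj (Ind X.f X.inj J)) (rt X.t⁻¹
              (coordMap i (x - tw piR (sR X.b) x))))
              = coordMap i ((1 - diag (Fin 4) (PP X J 1)) ((1 - tw piR (sR X.b)) x)) := by
            rw [← diag_one (ι := Fin 4), ← diag_sub, coord_diag, diag_one, hP1]
            show rt X.t (rt X.t⁻¹ _ - prj (Ind X.f X.inj J) (rt X.t⁻¹ _))
              = _ - rt X.t (prj (Ind X.f X.inj J) (rt X.t⁻¹ _))
            rw [map_sub, rt_rt, mul_inv_cancel, rt_one_apply]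
            rfl
          rw [g3, map_zero] at e
          have e2 := congrArg (rt X.t⁻¹) e
          rw [rt_rt, inv_mul_cancel, rt_one_apply, map_zero] at e2
          exact e2
      · intro hx
        refine ⟨?_, ?_, ?_⟩
        · rw [diag_apply_eq_zero_iff]
          intro i
          have h := hx (Sum.inl i)
          change mulR (fun _ : Unit => Finsupp.single (i, (1 : G)) 1
            - Finsupp.single (i, X.t) 1) x ∈ (Ind X.f X.inj J)ᗮ at h
          rw [mulR_sub_forms, mulR_single, mulR_single, inv_one, rt_one_apply,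
            ← prj_eq_zero_iff hcl, ← PP_zero, ← coordMap_rt, ← map_sub] at h
          exact h
        · rw [← diag_one (ι := Fin 4), ← diag_sub, diag_apply_eq_zero_iff, diag_one]
          intro i
          have h := hx (Sum.inr (Sum.inl i))
          change mulR (fun _ : Unit => Finsupp.single (i, (1 : G)) 1
            - Finsupp.single (piL i, (sL X.a i)⁻¹) 1) x ∈ Ind X.f X.inj J at h
          rw [mulR_sub_forms, mulR_single, mulR_single, inv_one, rt_one_apply, inv_inv,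
            ← prj_sub_eq_zero_iff hcl, ← PP_zero, ← coord_tw, ← map_sub] at h
          exact h
        · rw [← diag_one (ι := Fin 4), ← diag_sub, diag_apply_eq_zero_iff, diag_one, hP1]
          intro i
          have h := hx (Sum.inr (Sum.inr i))
          change mulR (fun _ : Unit => Finsupp.single (i, X.t) 1
            - Finsupp.single (piR i, (X.t⁻¹ * sR X.b i)⁻¹) 1) x ∈ Ind X.f X.inj J at h
          rw [mulR_sub_forms, mulR_single, mulR_single, inv_inv, ← rt_rt,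
            ← prj_sub_eq_zero_iff hcl, ← coord_tw, ← map_sub, ← map_sub] at h
          have e : (1 - rt X.t * prj (Ind X.f X.inj J) * rt X.t⁻¹ :
              L2 Unit G →L[ℂ] L2 Unit G) (coordMap i ((1 - tw piR (sR X.b)) x))
              = rt X.t ((1 - prj (Ind X.f X.inj J)) (rt X.t⁻¹
                (coordMap i (x - tw piR (sR X.b) x)))) := by
            show _ - rt X.t (prj (Ind X.f X.inj J) (rt X.t⁻¹ _))
              = rt X.t (rt X.t⁻¹ _ - prj (Ind X.f X.inj J) (rt X.t⁻¹ _))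
            rw [map_sub, rt_rt, mul_inv_cancel, rt_one_apply]
            rfl
          rw [e, h, map_zero])
  rw [vdim_KK X hJ hJc hd1 hy] at key
  convert key using 1
  congr 1
  rw [Fintype.sum_sum_type]
  simp only [Sum.elim_inl, Sum.elim_inr, Finset.sum_const, Finset.card_univ, Fintype.card_sum,
    Fintype.card_fin, nsmul_eq_mul]
  push_cast
  ring

end Pool.Agent.AON
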