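import Pool.Agent.VN.Ind
import Pool.Agent.VN.Dich
import Pool.Agent.VN.FreeProd

set_option autoImplicit false
set_option linter.unusedSectionVars false

noncomputable section

open scoped InnerProductSpace ENNReal Topology
open Classical Filter ContinuousLinearMap
open Pool.Agent.VN

/-!
Right translations, coordinates, diagonal and twisted operators, orthogonal projections.
-/

namespace Pool.Agent.AON

variable {ι κ σ G H : Type*} [Group G] [Group H]

/-- right translation: `(rt s x) (i, g) = x (i, g s)` -/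
def rt (s : G) : L2 ι G →L[ℂ] L2 ι G :=
  pull (fun p : ι × G => (p.1, p.2 * s)) (by
    rintro ⟨a, b⟩ ⟨c, d⟩ h
    simp only [Prod.mk.injEq, mul_left_inj] at h
    ext
    · exact h.1
    · exact h.2)

@[simp] lemma rt_apply (s : G) (x : L2 ι G) (p : ι × G) : (rt s x) p = x (p.1, p.2 * s) := rfl

lemma rt_rt (s u : G) (x : L2 ι G) : rt s (rt u x) = rt (s * u) x := by
  ext p
  simp [mul_assoc]

lemma rt_one_apply (x : L2 ι G) : rt (1 : G) x = x := by
  ext p
  simp

lemma rt_one : (rt (1 : G) : L2 ι G →L[ℂ] L2 ι G) = 1 := by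
  ext1 x
  exact rt_one_apply x

lemma rt_mul (s u : G) : (rt (s * u) : L2 ι G →L[ℂ] L2 ι G) = rt s * rt u := by
  ext1 x
  exact (rt_rt s u x).symm

lemma rt_pow (s : G) (n : ℕ) : (rt (s ^ n) : L2 ι G →L[ℂ] L2 ι G) = rt s ^ n := by
  induction n with
  | zero => rw [pow_zero, pow_zero, rt_one]
  | succ n ih => rw [pow_succ, pow_succ, rt_mul, ih]

lemma rt_equivar (s : G) : Equivar (rt s : L2 ι G →L[ℂ] L2 ι G) := by
  intro u x
  ext p
  simp [mul_assoc]

lemma rt_dl (s : G) (i : ι) (g : G) : rt s (dl (i, g)) = dl (i, g * s⁻¹) := by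
  ext p
  rw [rt_apply, dl_apply, dl_apply]
  congr 1
  rw [eq_iff_iff]
  constructor
  · intro h
    obtain ⟨p1, p2⟩ := p
    simp only [Prod.mk.injEq] at h ⊢
    exact ⟨h.1, by rw [← h.2]; group⟩
  · intro h
    subst h
    simp

lemma inner_rt (s : G) (x y : L2 ι G) : ⟪rt s x, rt s y⟫_ℂ = ⟪x, y⟫_ℂ := by
  have h1 := hasSum_inner' x y
  have h2 := hasSum_inner' (rt s x) (rt s y)
  let e : ι × G ≃ ι × G := (Equiv.refl ι).prodCongr (Equiv.mulRight s)
  have h3 := (e.hasSum_iff).mpr h1
  exact h2.unique h3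

lemma inner_rt_left (s : G) (x y : L2 ι G) : ⟪rt s x, y⟫_ℂ = ⟪x, rt s⁻¹ y⟫_ℂ := by
  rw [← inner_rt s x (rt s⁻¹ y), rt_rt, mul_inv_cancel, rt_one_apply]

lemma rt_adjoint (s : G) : adjoint (rt s : L2 ι G →L[ℂ] L2 ι G) = rt s⁻¹ := by
  ext1 x
  apply ext_inner_right ℂ
  intro y
  rw [adjoint_inner_left, inner_rt_left, inv_inv]

/-- the coordinate projections -/
lemma coordMap_apply (i : ι) (x : L2 ι G) (q : Unit × G) :
    (coordMap i x) q = x (i, q.2) := by
  unfold coordMap
  rw [mulR_apply]
  unfold eqn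
  rw [ev_single]
  simp

lemma coordMap_equivar (i : ι) : Equivar (coordMap (G := G) i) := mulR_equivar _

lemma ext_coord {x y : L2 ι G} (h : ∀ i, coordMap i x = coordMap i y) : x = y := by
  ext p
  obtain ⟨i, g⟩ := p
  have := congrArg (fun z : L2 Unit G => z ((), g)) (h i)
  simpa only [coordMap_apply] using this

lemma coordMap_rt (s : G) (i : ι) (x : L2 ι G) : coordMap i (rt s x) = rt s (coordMap i x) := by
  ext q
  rw [coordMap_apply, rt_apply, rt_apply, coordMap_apply]

/-- the coordinate inclusions -/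
def inc (i : ι) : L2 Unit G →L[ℂ] L2 ι G := elem i ((), (1 : G))

lemma inc_apply (i : ι) (y : L2 Unit G) (q : ι × G) :
    (inc i y) q = if q.1 = i then y ((), q.2) else 0 := by
  unfold inc
  rw [elem_apply]
  simp

lemma inc_equivar (i : ι) : Equivar (inc (G := G) i) := elem_equivar _ _

lemma coordMap_inc_self (i : ι) (y : L2 Unit G) : coordMap i (inc i y) = y := by
  ext q
  rw [coordMap_apply, inc_apply, if_pos rfl]

lemma coordMap_inc_ne {i j : ι} (h : i ≠ j) (y : L2 Unit G) : coordMap i (inc j y) = 0 := by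
  ext q
  rw [coordMap_apply, inc_apply, if_neg h]
  rfl

/-- the diagonal operator -/
def diag (ι : Type*) [Fintype ι] (T : L2 Unit G →L[ℂ] L2 Unit G) : L2 ι G →L[ℂ] L2 ι G :=
  ∑ i : ι, inc i ∘L T ∘L coordMap i

section diag

variable [Fintype ι]

lemma coord_diag (T : L2 Unit G →L[ℂ] L2 Unit G) (i : ι) (x : L2 ι G) :
    coordMap i (diag ι T x) = T (coordMap i x) := by
  unfold diag
  rw [_root_.sum_apply, map_sum, Finset.sum_eq_single i]
  · exact coordMap_inc_self i _
  · intro j _ hj
    exact coordMap_inc_ne hj.symm _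
  · intro h
    exact absurd (Finset.mem_univ i) h

lemma diag_one : diag ι (1 : L2 Unit G →L[ℂ] L2 Unit G) = 1 := by
  ext1 x
  apply ext_coord
  intro i
  rw [coord_diag]
  rfl

lemma diag_mul (S T : L2 Unit G →L[ℂ] L2 Unit G) : diag ι (S * T) = diag ι S * diag ι T := by
  ext1 x
  apply ext_coord
  intro i
  show _ = coordMap i (diag ι S (diag ι T x))
  rw [coord_diag, coord_diag, coord_diag]
  rfl

lemma diag_sub (S T : L2 Unit G →L[ℂ] L2 Unit G) : diag ι (S - T) = diag ι S - diag ι T := by
  ext1 x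
  apply ext_coord
  intro i
  show _ = coordMap i (diag ι S x - diag ι T x)
  rw [map_sub, coord_diag, coord_diag, coord_diag]
  rfl

lemma diag_zero : diag ι (0 : L2 Unit G →L[ℂ] L2 Unit G) = 0 := by
  ext1 x
  apply ext_coord
  intro i
  rw [coord_diag]
  simp

lemma diag_add (S T : L2 Unit G →L[ℂ] L2 Unit G) : diag ι (S + T) = diag ι S + diag ι T := by
  ext1 x
  apply ext_coord
  intro i
  show _ = coordMap i (diag ι S x + diag ι T x)
  rw [map_add, coord_diag, coord_diag, coord_diag]
  rfl

lemma diag_sum {τ : Type*} (s : Finset τ) (T : τ → (L2 Unit G →L[ℂ] L2 Unit G)) :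
    diag ι (∑ a ∈ s, T a) = ∑ a ∈ s, diag ι (T a) := by
  induction s using Finset.induction_on with
  | empty => simp [diag_zero]
  | insert a s ha ih => rw [Finset.sum_insert ha, Finset.sum_insert ha, diag_add, ih]

lemma diag_equivar {T : L2 Unit G →L[ℂ] L2 Unit G} (hT : Equivar T) : Equivar (diag ι T) :=
  Equivar.sum _ fun i _ => (inc_equivar i).comp (hT.comp (coordMap_equivar i))

lemma adjoint_coordMap (i : ι) : adjoint (coordMap (G := G) i) = inc i := by
  have h : inc (G := G) i = adjoint (elem (κ := Unit) () ((i, 1) : ι × G)) := by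
    rw [adjoint_elem, inv_one]
    rfl
  have h2 : coordMap (G := G) i = elem () ((i, 1) : ι × G) := by
    ext x q
    rw [coordMap_apply, elem_apply, if_pos (Subsingleton.elim _ _)]
    simp
  rw [h, ← h2]

lemma adjoint_inc (i : ι) : adjoint (inc (G := G) i) = coordMap i := by
  rw [← adjoint_coordMap, adjoint_adjoint]

lemma diag_adjoint (T : L2 Unit G →L[ℂ] L2 Unit G) :
    adjoint (diag ι T) = diag ι (adjoint T) := by
  unfold diag
  rw [map_sum]
  refine Finset.sum_congr rfl fun i _ => ?_
  rw [adjoint_comp, adjoint_comp, adjoint_inc, adjoint_coordMap]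
  rfl

lemma tr_diag (T : L2 Unit G →L[ℂ] L2 Unit G) : tr (diag ι T) = Fintype.card ι * tr T := by
  unfold tr
  have h : ∀ i : ι, ⟪dl (i, (1 : G)), diag ι T (dl (i, 1))⟫_ℂ
      = ⟪dl ((), (1 : G)), T (dl ((), 1))⟫_ℂ := by
    intro i
    rw [inner_dl_left, inner_dl_left]
    have h1 : (diag ι T (dl (i, 1))) (i, 1) = (coordMap i (diag ι T (dl (i, 1)))) ((), (1 : G)) := by
      rw [coordMap_apply]
    have h2 : coordMap i (dl (i, (1 : G))) = dl ((), (1 : G)) := by
      ext q
      obtain ⟨u, g⟩ := q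
      rw [coordMap_apply, dl_apply, dl_apply]
      congr 1
      simp
    rw [h1, coord_diag, h2]
  simp only [h, Finset.sum_const, Finset.card_univ, nsmul_eq_mul, Finset.univ_unique]
  simp

end diag

/-- the twisted permutation operator `(tw π s x)_i = rt (s i) (x_(π i))` -/
def tw [Fintype ι] (π : ι → ι) (s : ι → G) : L2 ι G →L[ℂ] L2 ι G :=
  mulR fun i => Finsupp.single (π i, (s i)⁻¹) 1

lemma coord_tw [Fintype ι] (π : ι → ι) (s : ι → G) (i : ι) (x : L2 ι G) :
    coordMap i (tw π s x) = rt (s i) (coordMap (π i) x) := by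
  ext q
  unfold tw
  rw [coordMap_apply, mulR_apply, ev_single, rt_apply, coordMap_apply]
  simp

lemma tw_equivar [Fintype ι] (π : ι → ι) (s : ι → G) :
    Equivar (tw π s) := mulR_equivar _

lemma mulR_sub_forms (a b : ι × G →₀ ℂ) (x : L2 ι G) :
    mulR (fun _ : Unit => a - b) x = mulR (fun _ : Unit => a) x - mulR (fun _ : Unit => b) x := by
  ext q
  show _ = (mulR (fun _ : Unit => a) x) q - (mulR (fun _ : Unit => b) x) q
  rw [mulR_apply, mulR_apply, mulR_apply]
  have h : ev a x q.2 = ev (a - b + b) x q.2 := by rw [sub_add_cancel]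
  rw [h, ev_add]
  ring

lemma mulR_single (i : ι) (s : G) (x : L2 ι G) :
    mulR (fun _ : Unit => Finsupp.single (i, s) 1) x = rt s⁻¹ (coordMap i x) := by
  ext q
  rw [mulR_apply, ev_single, rt_apply, coordMap_apply]
  simp

section prj

/-- the orthogonal projection onto the closure of a subspace -/
def prj (D : Submodule ℂ (L2 ι G)) : L2 ι G →L[ℂ] L2 ι G :=
  haveI : CompleteSpace D.topologicalClosure :=
    (Submodule.isClosed_topologicalClosure _).completeSpace_coe
  D.topologicalClosure.starProjection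

variable {D : Submodule ℂ (L2 ι G)}

lemma prj_eq (hD : IsClosed (D : Set (L2 ι G))) [D.HasOrthogonalProjection] :
    prj D = D.starProjection := by
  unfold prj
  have h : D.topologicalClosure = D := IsClosed.submodule_topologicalClosure_eq hD
  congr 1

lemma prj_mem (hD : IsClosed (D : Set (L2 ι G))) (x : L2 ι G) : prj D x ∈ D := by
  have c1 : CompleteSpace D := hD.completeSpace_coe
  rw [prj_eq hD]
  exact Submodule.starProjection_apply_mem _ _

lemma prj_eq_self_iff (hD : IsClosed (D : Set (L2 ι G))) (x : L2 ι G) : prj D x = x ↔ x ∈ D := by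
  have c1 : CompleteSpace D := hD.completeSpace_coe
  rw [prj_eq hD]
  exact Submodule.starProjection_eq_self_iff

lemma prj_eq_zero_iff (hD : IsClosed (D : Set (L2 ι G))) (x : L2 ι G) : prj D x = 0 ↔ x ∈ Dᗮ := by
  have c1 : CompleteSpace D := hD.completeSpace_coe
  rw [prj_eq hD]
  exact Submodule.starProjection_apply_eq_zero_iff _

lemma prj_sub_eq_zero_iff (hD : IsClosed (D : Set (L2 ι G))) (x : L2 ι G) :
    (1 - prj D) x = 0 ↔ x ∈ D := by
  rw [← prj_eq_self_iff hD]
  show x - prj D x = 0 ↔ _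
  rw [sub_eq_zero]
  exact eq_comm

lemma prj_idem (hD : IsClosed (D : Set (L2 ι G))) : prj D * prj D = prj D := by
  ext1 x
  exact (prj_eq_self_iff hD _).mpr (prj_mem hD x)

lemma prj_adjoint (hD : IsClosed (D : Set (L2 ι G))) : adjoint (prj D) = prj D := by
  have c1 : CompleteSpace D := hD.completeSpace_coe
  rw [prj_eq hD]
  ext1 x
  apply ext_inner_right ℂ
  intro y
  rw [adjoint_inner_left, Submodule.inner_starProjection_left_eq_right]

lemma prj_equivar (hD : IsClosed (D : Set (L2 ι G))) (hi : Invar D) : Equivar (prj D) := by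
  have c1 : CompleteSpace D := hD.completeSpace_coe
  rw [prj_eq hD]
  exact hi.proj

lemma tr_prj [Fintype ι] (hD : IsClosed (D : Set (L2 ι G))) :
    tr (prj D) = (vdim (D : Set (L2 ι G)) : ℝ) := by
  have c1 : CompleteSpace D := hD.completeSpace_coe
  rw [prj_eq hD]
  exact tr_proj D

/-- a self-adjoint idempotent is the projection onto its range -/
lemma vdim_of_idem [Fintype ι] {E : L2 ι G →L[ℂ] L2 ι G} (hE : Equivar E) (h2 : E * E = E)
    (K : Submodule ℂ (L2 ι G)) (hK : ∀ x, x ∈ K ↔ E x = x) {r : ℝ} (hr : tr E = r) :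
    vdim (K : Set (L2 ι G)) = r := by
  have h1 : K = LinearMap.ker ((1 - E : L2 ι G →L[ℂ] L2 ι G)).toLinearMap := by
    ext x
    rw [hK]
    show _ ↔ x - E x = 0
    rw [sub_eq_zero]
    exact eq_comm
  have hi : Invar K := by
    rw [h1]
    exact Invar.ker (Equivar.one.sub hE)
  have hc : IsClosed (K : Set (L2 ι G)) := by
    rw [h1]
    exact (1 - E : L2 ι G →L[ℂ] L2 ι G).isClosed_ker
  have h3 := tr_idem hi hc hE (fun x => (hK _).mpr (by
    have := congrArg (fun T : L2 ι G →L[ℂ] L2 ι G => T x) h2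
    exact this)) (fun x hx => (hK x).mp hx)
  rw [hr] at h3
  exact_mod_cast h3.symm

/-- an operator which preserves `D` and its orthogonal complement commutes with the projection -/
lemma comm_prj (hD : IsClosed (D : Set (L2 ι G))) {T : L2 ι G →L[ℂ] L2 ι G}
    (h1 : ∀ x ∈ D, T x ∈ D) (h2 : ∀ x ∈ Dᗮ, T x ∈ Dᗮ) : T * prj D = prj D * T := by
  ext1 x
  show T (prj D x) = prj D (T x)
  have e : x = prj D x + (x - prj D x) := by abel
  have h3 : x - prj D x ∈ Dᗮ := by
    rw [← prj_eq_zero_iff hD, map_sub, (prj_eq_self_iff hD _).mpr (prj_mem hD x), sub_self]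
  conv_rhs => rw [e]
  rw [map_add, map_add, (prj_eq_self_iff hD _).mpr (h1 _ (prj_mem hD x)),
    (prj_eq_zero_iff hD _).mpr (h2 _ h3), add_zero]

end prj

/-- an invariant subspace of a closed one, with the same dimension, is dense in it -/
theorem closure_eq_of_vdim [Fintype ι] {K L : Submodule ℂ (L2 ι G)} (hK : Invar K)
    (hL : Invar L) (hLc : IsClosed (L : Set (L2 ι G))) (h : K ≤ L)
    (hd : vdim (L : Set (L2 ι G)) ≤ vdim (K : Set (L2 ι G))) :
    (L : Set (L2 ι G)) = closure (K : Set (L2 ι G)) := by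
  have hc : IsClosed (K.topologicalClosure : Set (L2 ι G)) :=
    Submodule.isClosed_topologicalClosure _
  have hle : K.topologicalClosure ≤ L := Submodule.topologicalClosure_minimal _ h hLc
  have c1 : CompleteSpace K.topologicalClosure := hc.completeSpace_coe
  have hv := vdim_compl hK.closure hc hL hLc hle
  have h0 : vdim ((L ⊓ K.topologicalClosureᗮ : Submodule ℂ (L2 ι G)) : Set (L2 ι G)) = 0 := by
    have h1 := vdim_nonneg (L ⊓ K.topologicalClosureᗮ)
    rw [Submodule.topologicalClosure_coe, vdim_closure] at hv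
    linarith
  have h2 := eq_bot_of_vdim_eq_zero (hL.inf hK.closure.orthogonal)
    (hLc.inter (Submodule.isClosed_orthogonal _)) h0
  apply Set.Subset.antisymm
  · intro x hx
    have h3 : x - K.topologicalClosure.starProjection x ∈ L ⊓ K.topologicalClosureᗮ := by
      refine ⟨L.sub_mem hx (hle (Submodule.starProjection_apply_mem _ _)), ?_⟩
      exact Submodule.sub_starProjection_mem_orthogonal x
    rw [h2, Submodule.mem_bot, sub_eq_zero] at h3
    rw [← Submodule.topologicalClosure_coe, h3]
    exact Submodule.starProjection_apply_mem _ _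
  · intro x hx
    rw [← Submodule.topologicalClosure_coe] at hx
    exact hle hx

end Pool.Agent.AON
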