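import Pool.Agent.AON.Base
import Pool.Agent.AON.Idem

set_option autoImplicit false
set_option linter.unusedSectionVars false

noncomputable section

open scoped InnerProductSpace ENNReal Topology
open Classical Filter ContinuousLinearMap
open Pool.Agent.VN

/-!
The component theorem: from a solution to its values at the left ends.
-/

namespace Pool.Agent.AON

/-- shifting past a power -/
private lemma compA_pow_shift {R : Type*} [Ring R] {p : ℕ → R} {U : R}
    (hUp : ∀ j, U * p j = p (j + 1) * U) (m i : ℕ) : U ^ m * p i = p (i + m) * U ^ m := by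
  induction m with
  | zero => simp
  | succ m ih =>
    rw [pow_succ', mul_assoc, ih, ← mul_assoc, hUp, mul_assoc, ← pow_succ', add_assoc]

private lemma compA_RR_factor {R : Type*} [Ring R] {p : ℕ → R}
    (hc : ∀ i j, p i * p j = p j * p i) (n : ℕ) : ∃ S : R, RR p n = S * (1 - p 0) := by
  induction n with
  | zero => exact ⟨1, by simp [RR]⟩
  | succ n ih =>
    obtain ⟨S, hS⟩ := ih
    refine ⟨S * p (n + 1), ?_⟩
    change RR p n * p (n + 1) = _
    rw [hS, mul_assoc, mul_assoc]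
    congr 1
    rw [sub_mul, mul_sub, one_mul, mul_one, hc]

private lemma compA_QQ_factor {R : Type*} [Ring R] {p : ℕ → R}
    (hc : ∀ i j, p i * p j = p j * p i) (n : ℕ) : ∃ S : R, QQ p n = S * (1 - p 0) := by
  obtain ⟨S, hS⟩ := compA_RR_factor hc n
  refine ⟨S * (1 - p (n + 1)), ?_⟩
  unfold QQ
  rw [hS, mul_assoc, mul_assoc]
  congr 1
  have h := hc 0 (n + 1)
  simp only [sub_mul, mul_sub, one_mul, mul_one, h]
  abel

private lemma compA_pow_mul {R : Type*} [Ring R] {U U' : R} (h : U' * U = 1) (n : ℕ) :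
    U' ^ n * U ^ n = 1 := by
  induction n with
  | zero => simp
  | succ n ih =>
    rw [pow_succ, pow_succ', mul_assoc, ← mul_assoc U', h, one_mul, ih]

section

variable {ι G : Type*} [Group G] {U U' TL TR : L2 ι G →L[ℂ] L2 ι G}
  {p : ℕ → (L2 ι G →L[ℂ] L2 ι G)} (hUU' : U * U' = 1) (hU'U : U' * U = 1)
  (hp : ∀ j, p j * p j = p j) (hc : ∀ i j, p i * p j = p j * p i)
  (hUp : ∀ j, U * p j = p (j + 1) * U) (hL : ∀ j, TL * p j = p j * TL)
  (hR : ∀ m j, (U ^ m * TR * U' ^ m) * p j = p j * (U ^ m * TR * U' ^ m))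

include hUU' hp hc hUp in
/-- a solution is constant on a component -/
theorem comp_const {x : L2 ι G} (hx : p 0 (x - U' x) = 0) {n k : ℕ} (hk : k ≤ n) :
    QQ p n ((U ^ k) x) = QQ p n x := by
  induction k with
  | zero => simp
  | succ k ih =>
    have ih' := ih (by omega)
    have h1 : QQ p n = QQ p n * p (k + 1) := by
      rw [← p_comm_QQ hc (k + 1) n, p_mid_QQ hp hc (by omega) hk]
    have h2 : p (k + 1) * (U ^ (k + 1)) = U ^ (k + 1) * p 0 := by
      rw [compA_pow_shift hUp (k + 1) 0, zero_add]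
    have h3 : (U ^ k : L2 ι G →L[ℂ] L2 ι G) = U ^ (k + 1) * U' := by
      rw [pow_succ, mul_assoc, hUU', mul_one]
    have h4 : (U ^ (k + 1)) x - (U ^ k) x = (U ^ (k + 1)) (x - U' x) := by
      rw [map_sub, h3]
      rfl
    have h5 : QQ p n ((U ^ (k + 1)) x - (U ^ k) x) = 0 := by
      rw [h1, h4]
      change QQ p n ((p (k + 1) * U ^ (k + 1)) (x - U' x)) = 0
      rw [h2]
      change QQ p n ((U ^ (k + 1)) (p 0 (x - U' x))) = 0
      rw [hx, map_zero, map_zero]
    rw [map_sub, sub_eq_zero] at h5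
    rw [h5, ih']

include hc hL in
theorem comp_left {x : L2 ι G} (hx : (1 - p 0) (TL x) = 0) (n : ℕ) :
    TL (QQ p n x) = 0 := by
  have h1 : TL (QQ p n x) = QQ p n (TL x) := by
    change (TL * QQ p n) x = (QQ p n * TL) x
    rw [QQ_comm hc TL hL n]
  obtain ⟨S, hS⟩ := compA_QQ_factor hc n
  rw [h1, hS]
  change S ((1 - p 0) (TL x)) = 0
  rw [hx, map_zero]

include hUU' hU'U hp hc hUp hR in
theorem comp_right {x : L2 ι G} (hx : p 0 (x - U' x) = 0) (hx1 : (1 - p 1) (TR x) = 0) (n : ℕ) :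
    (U ^ n * TR * U' ^ n) (QQ p n x) = 0 := by
  have h1 : QQ p n x = QQ p n ((U ^ n) x) := (comp_const hUU' hp hc hUp hx le_rfl).symm
  have h2 : (U ^ n * TR * U' ^ n) * QQ p n = QQ p n * (U ^ n * TR * U' ^ n) :=
    QQ_comm hc _ (hR n) n
  have h3 : (U ^ n * TR * U' ^ n) (QQ p n x) = QQ p n ((U ^ n) (TR x)) := by
    rw [h1]
    change ((U ^ n * TR * U' ^ n) * QQ p n) ((U ^ n) x) = _
    rw [h2]
    change QQ p n ((U ^ n) (TR ((U' ^ n * U ^ n) x))) = _
    rw [compA_pow_mul hU'U]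
    rfl
  rw [h3]
  change RR p n ((1 - p (n + 1)) ((U ^ n) (TR x))) = 0
  have h4 : (1 - p (n + 1)) * U ^ n = U ^ n * (1 - p 1) := by
    rw [sub_mul, mul_sub, one_mul, mul_one, compA_pow_shift hUp n 1, add_comm 1 n]
  have h5 : (1 - p (n + 1)) ((U ^ n) (TR x)) = (U ^ n) ((1 - p 1) (TR x)) := by
    change ((1 - p (n + 1)) * U ^ n) (TR x) = (U ^ n * (1 - p 1)) (TR x)
    rw [h4]
  rw [h5, hx1, map_zero, map_zero]

end

end Pool.Agent.AON
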