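import Mathlib

set_option autoImplicit false

noncomputable section

/-!
The groups occurring in the theorem.
-/

namespace Pool.Agent.AON

/-- The integral Heisenberg group: triples of integers with
`(x, y, z) (x', y', z') = (x + x', y + y', z + z' + x y')`. -/
@[ext] structure Heis where
  x : ℤ
  y : ℤ
  z : ℤ

namespace Heis

instance : Mul Heis := ⟨fun p q => ⟨p.x + q.x, p.y + q.y, p.z + q.z + p.x * q.y⟩⟩
instance : One Heis := ⟨⟨0, 0, 0⟩⟩
instance : Inv Heis := ⟨fun p => ⟨-p.x, -p.y, -p.z + p.x * p.y⟩⟩

@[simp] lemma mul_x (p q : Heis) : (p * q).x = p.x + q.x := rfl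
@[simp] lemma mul_y (p q : Heis) : (p * q).y = p.y + q.y := rfl
@[simp] lemma mul_z (p q : Heis) : (p * q).z = p.z + q.z + p.x * q.y := rfl
@[simp] lemma one_x : (1 : Heis).x = 0 := rfl
@[simp] lemma one_y : (1 : Heis).y = 0 := rfl
@[simp] lemma one_z : (1 : Heis).z = 0 := rfl
@[simp] lemma inv_x (p : Heis) : (p⁻¹).x = -p.x := rfl
@[simp] lemma inv_y (p : Heis) : (p⁻¹).y = -p.y := rfl
@[simp] lemma inv_z (p : Heis) : (p⁻¹).z = -p.z + p.x * p.y := rfl

instance : Group Heis :=
  Group.ofLeftAxioms (fun a b c => by ext <;> simp <;> ring) (fun a => by ext <;> simp)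
    (fun a => by ext <;> simp)

end Heis

/-- The automorphism of the group of functions `Y × ℤ → E` which shifts the second coordinate
by `n`. -/
def shiftAut (Y E : Type) [Group E] (n : ℤ) : MulAut (Y × ℤ → E) where
  toFun c p := c (p.1, p.2 - n)
  invFun c p := c (p.1, p.2 + n)
  left_inv c := by funext p; simp
  right_inv c := by funext p; simp
  map_mul' _ _ := rfl

/-- The action of `ℤ` on the group of functions `Y × ℤ → E` by shifts. -/
def shift (Y E : Type) [Group E] : Multiplicative ℤ →* MulAut (Y × ℤ → E) where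
  toFun n := shiftAut Y E n.toAdd
  map_one' := by
    ext c p
    show c (p.1, p.2 - 0) = c p
    simp
  map_mul' m n := by
    ext c p
    show c (p.1, p.2 - (m.toAdd + n.toAdd)) = c (p.1, p.2 - m.toAdd - n.toAdd)
    rw [sub_sub]

/-- The semidirect product of the group of all functions `Y × ℤ → E` with `ℤ`. -/
abbrev W (Y E : Type) [Group E] : Type := (Y × ℤ → E) ⋊[shift Y E] Multiplicative ℤ

/-- The restricted wreath product of `E` with `ℤ`: the elements `(c, n)` of `(ℤ → E) ⋊ ℤ` such that
`c` has finite support. (Here `ℤ` is written as `Unit × ℤ`.) -/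
def Wr (E : Type) [Group E] : Subgroup (W Unit E) where
  carrier := {g | (Function.mulSupport g.left).Finite}
  one_mem' := by
    show (Function.mulSupport (1 : Unit × ℤ → E)).Finite
    simp
  mul_mem' := by
    intro g h hg hh
    show (Function.mulSupport (g * h).left).Finite
    rw [SemidirectProduct.mul_left]
    refine (hg.union (hh.preimage
      (f := fun p : Unit × ℤ => (p.1, p.2 - g.right.toAdd)) ?_)).subset ?_
    · rintro ⟨a, b⟩ _ ⟨c, d⟩ _ h
      have h2 : b - _ = d - _ := congrArg Prod.snd h
      exact Prod.ext rfl (sub_left_injective h2)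
    · intro p hp
      by_contra hne
      simp only [Set.mem_union, Function.mem_mulSupport, Set.mem_preimage, not_or, not_not] at hne
      apply hp
      show g.left p * h.left (p.1, p.2 - g.right.toAdd) = 1
      rw [hne.1, hne.2, mul_one]
  inv_mem' := by
    intro g hg
    show (Function.mulSupport (g⁻¹).left).Finite
    rw [SemidirectProduct.inv_left]
    refine (Set.Finite.preimage (f := fun p : Unit × ℤ => (p.1, p.2 - (g.right⁻¹).toAdd))
      ?_ hg).subset ?_
    · rintro ⟨a, b⟩ _ ⟨c, d⟩ _ h
      have h2 : b - _ = d - _ := congrArg Prod.snd h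
      exact Prod.ext rfl (sub_left_injective h2)
    · intro p hp h1
      apply hp
      show (g.left (p.1, p.2 - (g.right⁻¹).toAdd))⁻¹ = 1
      rw [inv_eq_one]
      exact h1

end Pool.Agent.AON
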