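import Mathlib

set_option autoImplicit false

/-!
Expansions in powers of `d ≥ 1/2`, and some arithmetic.
-/

namespace Pool.Agent.AON

open Classical in
/-- the remainders of the greedy expansion -/
private noncomputable def digRem (d y : ℝ) : ℕ → ℝ
  | 0 => y
  | n + 1 => digRem d y n - (if d ^ n ≤ digRem d y n then d ^ n else 0)

open Classical in
/-- greedy expansion -/
theorem digits {d : ℝ} (h1 : 1 / 2 ≤ d) (h2 : d < 1) {y : ℝ} (h0 : 0 ≤ y)
    (hy : y ≤ 1 / (1 - d)) : ∃ S : Set ℕ, HasSum (fun n => if n ∈ S then d ^ n else 0) y := by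
  have hd0 : 0 < d := by linarith
  have hd1 : 0 < 1 - d := by linarith
  have hinv : ∀ n, 0 ≤ digRem d y n ∧ digRem d y n ≤ d ^ n / (1 - d) := by
    intro n
    induction n with
    | zero => exact ⟨h0, by simpa [digRem] using hy⟩
    | succ n ih =>
      have hpow : 0 < d ^ n := pow_pos hd0 n
      have hstep : d ^ (n + 1) / (1 - d) = d ^ n / (1 - d) - d ^ n := by
        field_simp
        ring
      simp only [digRem]
      split_ifs with h
      · refine ⟨by linarith, ?_⟩
        rw [hstep]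
        linarith [ih.2]
      · refine ⟨by linarith [ih.1], ?_⟩
        have h3 : d ^ n ≤ d ^ (n + 1) / (1 - d) := by
          rw [le_div_iff₀ hd1, pow_succ]
          nlinarith
        linarith
  refine ⟨{n | d ^ n ≤ digRem d y n}, ?_⟩
  rw [hasSum_iff_tendsto_nat_of_nonneg]
  · have hsum : ∀ n, ∑ i ∈ Finset.range n,
        (if i ∈ {n | d ^ n ≤ digRem d y n} then d ^ i else 0) = y - digRem d y n := by
      intro n
      induction n with
      | zero => simp [digRem]
      | succ n ih =>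
        rw [Finset.sum_range_succ, ih]
        simp only [digRem, Set.mem_ofPred_eq]
        ring
    have hlim : Filter.Tendsto (fun n => digRem d y n) Filter.atTop (nhds 0) := by
      refine squeeze_zero (fun n => (hinv n).1) (fun n => (hinv n).2) ?_
      have := (tendsto_pow_atTop_nhds_zero_of_lt_one hd0.le h2).div_const (1 - d)
      simpa using this
    have h4 := (tendsto_const_nhds (x := y)).sub hlim
    rw [sub_zero] at h4
    refine h4.congr fun n => ?_
    exact (hsum n).symm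
  · intro n
    split_ifs
    · exact (pow_pos hd0 n).le
    · exact le_rfl

/-- every `r ≥ 0` is, up to an integer, a multiple of a number of a given interval -/
theorem exists_copies {c w : ℝ} (hc : 0 ≤ c) (hw : 0 < w) {r : ℝ} (hr : 0 ≤ r) :
    ∃ (p N : ℕ) (v : ℝ), c ≤ v ∧ v ≤ c + w ∧ p * v = r + N := by
  obtain ⟨p, hp⟩ := exists_nat_ge (max 1 r / w)
  have hpw : max 1 r ≤ p * w := by rwa [div_le_iff₀ hw] at hp
  have hpw1 : 1 ≤ p * w := (le_max_left _ _).trans hpw
  have hpwr : r ≤ p * w := (le_max_right _ _).trans hpw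
  have hp0 : (0 : ℝ) < p := by
    by_contra h
    have : (p : ℝ) = 0 := le_antisymm (not_lt.1 h) (Nat.cast_nonneg p)
    rw [this] at hpw1
    linarith
  by_cases h : p * c ≤ r
  · refine ⟨p, 0, r / p, ?_, ?_, ?_⟩
    · rw [le_div_iff₀ hp0]; linarith
    · rw [div_le_iff₀ hp0]; nlinarith
    · rw [mul_div_cancel₀ _ hp0.ne']; simp
  · have h' : r < p * c := not_le.1 h
    have h3 : p * c - r ≤ (⌈p * c - r⌉₊ : ℝ) := Nat.le_ceil _
    have h4 : (⌈p * c - r⌉₊ : ℝ) < p * c - r + 1 := Nat.ceil_lt_add_one (by linarith)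
    refine ⟨p, ⌈p * c - r⌉₊, (r + ⌈p * c - r⌉₊) / p, ?_, ?_, ?_⟩
    · rw [le_div_iff₀ hp0]; linarith
    · rw [div_le_iff₀ hp0]; nlinarith
    · rw [mul_div_cancel₀ _ hp0.ne']

/-- every large `r` is a multiple of a number of a given interval -/
theorem exists_copies' {c w : ℝ} (hc : 0 ≤ c) (hw : 0 < w) :
    ∃ r₀ : ℝ, ∀ r, r₀ ≤ r → ∃ (p : ℕ) (v : ℝ), c ≤ v ∧ v ≤ c + w ∧ p * v = r := by
  have hcw : 0 < c + w := by linarith
  refine ⟨max 1 (c * (c + w) / w), fun r hr => ?_⟩
  have hr1 : 1 ≤ r := (le_max_left _ _).trans hr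
  have hr2 : c * (c + w) / w ≤ r := (le_max_right _ _).trans hr
  rw [div_le_iff₀ hw] at hr2
  have h3 : r / (c + w) ≤ (⌈r / (c + w)⌉₊ : ℝ) := Nat.le_ceil _
  have h4 : (⌈r / (c + w)⌉₊ : ℝ) < r / (c + w) + 1 :=
    Nat.ceil_lt_add_one (div_nonneg (by linarith) hcw.le)
  have hq : 0 < r / (c + w) := div_pos (by linarith) hcw
  have hp0 : (0 : ℝ) < (⌈r / (c + w)⌉₊ : ℝ) := lt_of_lt_of_le hq h3
  refine ⟨⌈r / (c + w)⌉₊, r / ⌈r / (c + w)⌉₊, ?_, ?_, ?_⟩
  · rw [le_div_iff₀ hp0]
    have h5 : c * (r / (c + w) + 1) ≤ r := by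
      rw [mul_add, mul_one, mul_div_assoc', ← le_sub_iff_add_le, div_le_iff₀ hcw]
      nlinarith
    nlinarith [mul_le_mul_of_nonneg_left h4.le hc]
  · rw [div_le_iff₀ hp0]
    rw [div_le_iff₀ hcw] at h3
    linarith
  · rw [mul_div_cancel₀ _ hp0.ne']

end Pool.Agent.AON
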