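import Pool.Agent.HX.StrongDich

set_option autoImplicit false
set_option linter.unusedSectionVars false

noncomputable section

open scoped InnerProductSpace ENNReal Topology
open Classical Filter ContinuousLinearMap
open Pool.Agent.VN

/-!
Every dimension occurs over a finitely generated subgroup.
-/

namespace Pool.Agent.AON

theorem dset_fg {k : Subring ℂ} {G : Type} [Group G] {x : ℝ} (hx : x ∈ Dset k G) :
    ∃ L : Subgroup G, Group.FG L ∧ x ∈ Dset k L := by
  obtain ⟨ι, hι, C, hC, hk, rfl⟩ := hx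
  set s : Finset G := hC.toFinset.biUnion fun c => c.support.image Prod.snd with hs
  have hmem : ∀ c ∈ C, ∀ p ∈ c.support, p.2 ∈ Subgroup.closure (s : Set G) := by
    intro c hc p hp
    apply Subgroup.subset_closure
    rw [hs, Finset.mem_coe, Finset.mem_biUnion]
    exact ⟨c, hC.mem_toFinset.2 hc, Finset.mem_image.2 ⟨p, hp, rfl⟩⟩
  set L := Subgroup.closure (s : Set G) with hL
  refine ⟨L, (Group.fg_iff_subgroup_fg L).mpr ⟨s, rfl⟩, ?_⟩
  have hres : ∀ c ∈ C, ∃ c' : ι × L →₀ ℂ, mapF L.subtype c' = c ∧ CoefIn k c' := by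
    intro c hc
    have hinj : Function.Injective (fun p : ι × L => ((p.1, (p.2 : G)) : ι × G)) := by
      rintro ⟨i, g⟩ ⟨j, g'⟩ h
      rw [Prod.mk.injEq] at h
      exact Prod.ext h.1 (Subtype.ext h.2)
    refine ⟨Finsupp.comapDomain _ c hinj.injOn, ?_, fun p => hk c hc _⟩
    rw [mapF_eq]
    apply Finsupp.mapDomain_comapDomain _ hinj
    intro p hp
    exact ⟨(p.1, ⟨p.2, hmem c hc p hp⟩), rfl⟩
  choose! c' hc' hc'k using hres
  refine ⟨ι, hι, c' '' C, hC.image _, ?_, ?_⟩
  · rintro _ ⟨c, hc, rfl⟩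
    exact hc'k c hc
  · rw [← vdim_induced L.subtype (Subgroup.subtype_injective _), ← Set.image_comp]
    congr 2
    have : (mapF L.subtype ∘ c') '' C = id '' C := Set.image_congr fun c hc => hc' c hc
    rw [this, Set.image_id]

end Pool.Agent.AON
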