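import Pool.Agent.AON.Base

set_option autoImplicit false
set_option linter.unusedSectionVars false

noncomputable section

open scoped InnerProductSpace ENNReal Topology
open Classical Filter ContinuousLinearMap
open Pool.Agent.VN

/-!
Dimension of a fibre product.
-/

namespace Pool.Agent.AON

variable {ι κ μ G : Type*} [Group G]

/-- the left part of a vector indexed by `ι ⊕ κ` -/
def leftM (ι κ G : Type*) [Group G] : L2 (ι ⊕ κ) G →L[ℂ] L2 ι G :=
  pull (fun p : ι × G => ((Sum.inl p.1, p.2) : (ι ⊕ κ) × G)) (by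
    rintro ⟨a, b⟩ ⟨c, d⟩ h
    simp only [Prod.mk.injEq, Sum.inl.injEq] at h
    exact Prod.ext h.1 h.2)

/-- the right part of a vector indexed by `ι ⊕ κ` -/
def rightM (ι κ G : Type*) [Group G] : L2 (ι ⊕ κ) G →L[ℂ] L2 κ G :=
  pull (fun p : κ × G => ((Sum.inr p.1, p.2) : (ι ⊕ κ) × G)) (by
    rintro ⟨a, b⟩ ⟨c, d⟩ h
    simp only [Prod.mk.injEq, Sum.inr.injEq] at h
    exact Prod.ext h.1 h.2)

@[simp] lemma leftM_apply (z : L2 (ι ⊕ κ) G) (p : ι × G) :
    leftM ι κ G z p = z (Sum.inl p.1, p.2) := rfl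

@[simp] lemma rightM_apply (z : L2 (ι ⊕ κ) G) (p : κ × G) :
    rightM ι κ G z p = z (Sum.inr p.1, p.2) := rfl

lemma leftM_equivar : Equivar (leftM ι κ G) := fun _ _ => rfl

lemma rightM_equivar : Equivar (rightM ι κ G) := fun _ _ => rfl

/-- the pair of two vectors -/
private lemma exists_pair (x : L2 ι G) (y : L2 κ G) :
    ∃ z : L2 (ι ⊕ κ) G, leftM ι κ G z = x ∧ rightM ι κ G z = y := by
  have hl : Function.Injective (fun p : ι × G => ((Sum.inl p.1, p.2) : (ι ⊕ κ) × G)) := by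
    rintro ⟨a, b⟩ ⟨c, d⟩ h
    simp only [Prod.mk.injEq, Sum.inl.injEq] at h
    exact Prod.ext h.1 h.2
  have hr : Function.Injective (fun p : κ × G => ((Sum.inr p.1, p.2) : (ι ⊕ κ) × G)) := by
    rintro ⟨a, b⟩ ⟨c, d⟩ h
    simp only [Prod.mk.injEq, Sum.inr.injEq] at h
    exact Prod.ext h.1 h.2
  refine ⟨push _ hl x + push _ hr y, ?_, ?_⟩
  · ext p
    rw [leftM_apply]
    show (push _ hl x) (Sum.inl p.1, p.2) + (push _ hr y) (Sum.inl p.1, p.2) = x p
    have h1 : (push _ hl x) (Sum.inl p.1, p.2) = x p :=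
      push_apply (fun p : ι × G => ((Sum.inl p.1, p.2) : (ι ⊕ κ) × G)) hl x p
    have h2 : (push _ hr y) (Sum.inl p.1, p.2) = 0 := by
      apply push_apply_of_notMem
      intro q hq
      exact absurd (congrArg Prod.fst hq) (by simp)
    rw [h1, h2, add_zero]
  · ext p
    rw [rightM_apply]
    show (push _ hl x) (Sum.inr p.1, p.2) + (push _ hr y) (Sum.inr p.1, p.2) = y p
    have h1 : (push _ hr y) (Sum.inr p.1, p.2) = y p :=
      push_apply (fun p : κ × G => ((Sum.inr p.1, p.2) : (ι ⊕ κ) × G)) hr y p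
    have h2 : (push _ hl x) (Sum.inr p.1, p.2) = 0 := by
      apply push_apply_of_notMem
      intro q hq
      exact absurd (congrArg Prod.fst hq) (by simp)
    rw [h1, h2, zero_add]

private lemma eq_zero_of_parts (z : L2 (ι ⊕ κ) G) (h1 : leftM ι κ G z = 0)
    (h2 : rightM ι κ G z = 0) : z = 0 := by
  ext p
  obtain ⟨i, g⟩ := p
  rcases i with i | i
  · have := congrArg (fun w : L2 ι G => w (i, g)) h1
    exact this
  · have := congrArg (fun w : L2 κ G => w (i, g)) h2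
    exact this

private lemma invar_comap {K : Submodule ℂ (L2 κ G)} (hK : Invar K) {T : L2 ι G →L[ℂ] L2 κ G}
    (hT : Equivar T) : Invar (K.comap T.toLinearMap) := by
  intro s x hx
  show T (lt s x) ∈ K
  rw [hT]
  exact hK s _ hx

private lemma closed_comap {K : Submodule ℂ (L2 κ G)} (hK : IsClosed (K : Set (L2 κ G)))
    (T : L2 ι G →L[ℂ] L2 κ G) :
    IsClosed ((K.comap T.toLinearMap : Submodule ℂ (L2 ι G)) : Set (L2 ι G)) :=
  hK.preimage T.continuous

private lemma vdim_pair [Fintype ι] [Fintype κ] {E1 : Submodule ℂ (L2 ι G)} (h1 : Invar E1)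
    (h1c : IsClosed (E1 : Set (L2 ι G))) {E2 : Submodule ℂ (L2 κ G)} (h2 : Invar E2)
    (h2c : IsClosed (E2 : Set (L2 κ G))) :
    vdim ((E1.comap (leftM ι κ G).toLinearMap ⊓ E2.comap (rightM ι κ G).toLinearMap :
      Submodule ℂ (L2 (ι ⊕ κ) G)) : Set (L2 (ι ⊕ κ) G))
      = vdim (E1 : Set (L2 ι G)) + vdim (E2 : Set (L2 κ G)) := by
  set Y : Submodule ℂ (L2 (ι ⊕ κ) G) :=
    E1.comap (leftM ι κ G).toLinearMap ⊓ E2.comap (rightM ι κ G).toLinearMap with hY
  have hYi : Invar Y := (invar_comap h1 leftM_equivar).inf (invar_comap h2 rightM_equivar)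
  have hYc : IsClosed (Y : Set (L2 (ι ⊕ κ) G)) :=
    (closed_comap h1c _).inter (closed_comap h2c _)
  have e1 := vdim_map (leftM_equivar (ι := ι) (κ := κ) (G := G)) hYi hYc
  set Y2 : Submodule ℂ (L2 (ι ⊕ κ) G) := Y ⊓ LinearMap.ker (leftM ι κ G).toLinearMap with hY2
  have hY2i : Invar Y2 := hYi.inf (Invar.ker leftM_equivar)
  have hY2c : IsClosed (Y2 : Set (L2 (ι ⊕ κ) G)) := hYc.inter (leftM ι κ G).isClosed_ker
  have e2 := vdim_map (rightM_equivar (ι := ι) (κ := κ) (G := G)) hY2i hY2c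
  have m1 : Y.map (leftM ι κ G).toLinearMap = E1 := by
    apply le_antisymm
    · rintro _ ⟨z, hz, rfl⟩
      exact hz.1
    · intro x hx
      obtain ⟨z, hz1, hz2⟩ := exists_pair (κ := κ) x 0
      refine ⟨z, ⟨?_, ?_⟩, hz1⟩
      · show leftM ι κ G z ∈ E1
        rw [hz1]
        exact hx
      · show rightM ι κ G z ∈ E2
        rw [hz2]
        exact E2.zero_mem
  have m2 : Y2.map (rightM ι κ G).toLinearMap = E2 := by
    apply le_antisymm
    · rintro _ ⟨z, hz, rfl⟩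
      exact hz.1.2
    · intro y hy
      obtain ⟨z, hz1, hz2⟩ := exists_pair (ι := ι) 0 y
      refine ⟨z, ⟨⟨?_, ?_⟩, hz1⟩, hz2⟩
      · show leftM ι κ G z ∈ E1
        rw [hz1]
        exact E1.zero_mem
      · show rightM ι κ G z ∈ E2
        rw [hz2]
        exact hy
  have m3 : Y2 ⊓ LinearMap.ker (rightM ι κ G).toLinearMap = ⊥ := by
    rw [Submodule.eq_bot_iff]
    intro z hz
    exact eq_zero_of_parts z hz.1.2 hz.2
  rw [m1] at e1
  rw [m2, m3, vdim_bot] at e2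
  linarith

/-- The dimension of `{(x, y) ∈ E₁ × E₂ : T₁ x = T₂ y}` is the dimension of
`{x ∈ E₁ : T₁ x ∈ F}` plus the dimension of `E₂ ∩ ker T₂`, where `F` is the closure of `T₂ E₂`. -/
theorem vdim_fib [Fintype ι] [Fintype κ] [Fintype μ] {E1 : Submodule ℂ (L2 ι G)} (h1 : Invar E1)
    (h1c : IsClosed (E1 : Set (L2 ι G))) {E2 : Submodule ℂ (L2 κ G)} (h2 : Invar E2)
    (h2c : IsClosed (E2 : Set (L2 κ G))) {T1 : L2 ι G →L[ℂ] L2 μ G} (hT1 : Equivar T1)
    {T2 : L2 κ G →L[ℂ] L2 μ G} (hT2 : Equivar T2) (F : Submodule ℂ (L2 μ G))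
    (hF : (F : Set (L2 μ G))
      = closure ((E2.map T2.toLinearMap : Submodule ℂ (L2 μ G)) : Set (L2 μ G)))
    (X : Submodule ℂ (L2 (ι ⊕ κ) G))
    (hX : ∀ z, z ∈ X ↔ leftM ι κ G z ∈ E1 ∧ rightM ι κ G z ∈ E2
      ∧ T1 (leftM ι κ G z) = T2 (rightM ι κ G z)) :
    vdim (X : Set (L2 (ι ⊕ κ) G))
      = vdim ((E1 ⊓ F.comap T1.toLinearMap : Submodule ℂ (L2 ι G)) : Set (L2 ι G))
        + vdim ((E2 ⊓ LinearMap.ker T2.toLinearMap : Submodule ℂ (L2 κ G)) : Set (L2 κ G)) := by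
  have hFe : F = (E2.map T2.toLinearMap).topologicalClosure := by
    apply SetLike.coe_injective
    rw [hF, Submodule.topologicalClosure_coe]
  have hFc : IsClosed (F : Set (L2 μ G)) := by
    rw [hF]
    exact isClosed_closure
  have hFi : Invar F := by
    rw [hFe]
    exact (h2.map hT2).closure
  set E1' : Submodule ℂ (L2 ι G) := E1 ⊓ F.comap T1.toLinearMap with hE1'
  have h1' : Invar E1' := h1.inf (invar_comap hFi hT1)
  have h1c' : IsClosed (E1' : Set (L2 ι G)) := h1c.inter (closed_comap hFc T1)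
  have e1 := vdim_pair h1' h1c' h2 h2c
  set Y : Submodule ℂ (L2 (ι ⊕ κ) G) :=
    E1'.comap (leftM ι κ G).toLinearMap ⊓ E2.comap (rightM ι κ G).toLinearMap with hY
  have hYi : Invar Y := (invar_comap h1' leftM_equivar).inf (invar_comap h2 rightM_equivar)
  have hYc : IsClosed (Y : Set (L2 (ι ⊕ κ) G)) :=
    (closed_comap h1c' _).inter (closed_comap h2c _)
  have hTe : Equivar (T1 ∘L leftM ι κ G - T2 ∘L rightM ι κ G) :=
    (hT1.comp leftM_equivar).sub (hT2.comp rightM_equivar)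
  have hTap : ∀ z, (T1 ∘L leftM ι κ G - T2 ∘L rightM ι κ G) z
      = T1 (leftM ι κ G z) - T2 (rightM ι κ G z) := fun z => rfl
  set T : L2 (ι ⊕ κ) G →L[ℂ] L2 μ G := T1 ∘L leftM ι κ G - T2 ∘L rightM ι κ G with hT
  have e2 := vdim_map hTe hYi hYc
  have hB : ∀ y ∈ E2, T2 y ∈ F := by
    intro y hy
    rw [hFe]
    exact Submodule.le_topologicalClosure _ ⟨y, hy, rfl⟩
  have hXY : Y ⊓ LinearMap.ker T.toLinearMap = X := by
    ext z
    rw [hX]
    constructor
    · rintro ⟨⟨hz1, hz2⟩, hz3⟩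
      have hz3' : T z = 0 := hz3
      rw [hTap, sub_eq_zero] at hz3'
      exact ⟨hz1.1, hz2, hz3'⟩
    · rintro ⟨hz1, hz2, hz3⟩
      refine ⟨⟨⟨hz1, ?_⟩, hz2⟩, ?_⟩
      · show T1 (leftM ι κ G z) ∈ F
        rw [hz3]
        exact hB _ hz2
      · show T z = 0
        rw [hTap, hz3, sub_self]
  have m1 : Y.map T.toLinearMap ≤ F := by
    rintro _ ⟨z, hz, rfl⟩
    show T z ∈ F
    rw [hTap]
    exact F.sub_mem hz.1.2 (hB _ hz.2)
  have m2 : E2.map T2.toLinearMap ≤ Y.map T.toLinearMap := by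
    rintro _ ⟨y, hy, rfl⟩
    obtain ⟨z, hz1, hz2⟩ := exists_pair (ι := ι) (0 : L2 ι G) (-y)
    refine ⟨z, ⟨?_, ?_⟩, ?_⟩
    · show leftM ι κ G z ∈ E1'
      rw [hz1]
      exact E1'.zero_mem
    · show rightM ι κ G z ∈ E2
      rw [hz2]
      exact E2.neg_mem hy
    · show T z = T2 y
      rw [hTap, hz1, hz2, map_zero, map_neg, zero_sub, neg_neg]
  have v1 := vdim_mono m1
  have v2 := vdim_mono m2
  have v3 : vdim (F : Set (L2 μ G))
      = vdim ((E2.map T2.toLinearMap : Submodule ℂ (L2 μ G)) : Set (L2 μ G)) := by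
    rw [hF, vdim_closure]
  have e3 := vdim_map hT2 h2 h2c
  rw [hXY] at e2
  linarith

end Pool.Agent.AON
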