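import Pool.Agent.AON.DataDef

set_option autoImplicit false

noncomputable section

/-!
The data in the groups `Wr H × W Y Heis`.
-/

namespace Pool.Agent.AON

open SemidirectProduct

section Shift

variable {Y E : Type} [Group E]

private def T (Y E : Type) [Group E] : W Y E := inr (Multiplicative.ofAdd 1)

private def sh (c : Y × ℤ → E) (j : ℤ) : Y × ℤ → E := fun p => c (p.1, p.2 - j)

private theorem T_zpow (j : ℤ) : T Y E ^ j = inr (Multiplicative.ofAdd j) := by
  unfold T
  rw [← map_zpow, ← ofAdd_zsmul, smul_eq_mul, mul_one]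

private theorem conj_zpow (c : Y × ℤ → E) (j : ℤ) :
    T Y E ^ j * inl c * (T Y E ^ j)⁻¹ = inl (sh c j) := by
  rw [T_zpow, ← map_inv, ← inl_aut]
  rfl

private theorem conj_pow (c : Y × ℤ → E) (j : ℕ) :
    T Y E ^ j * inl c * (T Y E ^ j)⁻¹ = inl (sh c j) := by
  rw [← conj_zpow, zpow_natCast]

end Shift

/-- the copy of `H` -/
private def fW (H : Type) [Group H] : H →* W Unit H :=
  inl.comp (MonoidHom.mulSingle (fun _ : Unit × ℤ => H) ((), 0))

private theorem fW_apply {H : Type} [Group H] (h : H) :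
    fW H h = inl (Pi.mulSingle ((), 0) h) := rfl

private theorem sh_single {H : Type} [Group H] (h : H) (j i : ℤ) :
    sh (Pi.mulSingle (M := fun _ : Unit × ℤ => H) ((), 0) h) j ((), i) =
      if i = j then h else 1 := by
  unfold sh
  rw [Pi.mulSingle_apply]
  simp only [Prod.mk.injEq, true_and, sub_eq_zero]

private theorem inl_mem {H : Type} [Group H] {c : Unit × ℤ → H}
    (hc : (Function.mulSupport c).Finite) : (inl c : W Unit H) ∈ Wr H := hc

private theorem fW_mem {H : Type} [Group H] (h : H) : fW H h ∈ Wr H := by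
  rw [fW_apply]
  apply inl_mem
  exact (Set.finite_singleton ((), (0 : ℤ))).subset Pi.mulSupport_mulSingle_subset

private theorem T_mem {H : Type} [Group H] : T Unit H ∈ Wr H := by
  show (Function.mulSupport (1 : Unit × ℤ → H)).Finite
  simp

private theorem conj_f {H : Type} [Group H] (h : H) (j : ℤ) :
    T Unit H ^ j * fW H h * (T Unit H ^ j)⁻¹ =
      inl (sh (Pi.mulSingle ((), 0) h) j) := by
  rw [fW_apply, conj_zpow]

private theorem commute_inl {Y E : Type} [Group E] {c d : Y × ℤ → E}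
    (h : ∀ p, Commute (c p) (d p)) : Commute (inl c : W Y E) (inl d) := by
  show inl c * inl d = inl d * inl c
  rw [← map_mul, ← map_mul]
  congr 1
  funext p
  exact h p

private theorem comm_prod {K L : Type} [Group K] [Group L] {x y : K × L}
    (h1 : Commute x.1 y.1) (h2 : Commute x.2 y.2) : Commute x y := Prod.ext h1 h2

private theorem comm_sub {K : Type} [Group K] {L : Subgroup K} {x y : L}
    (h1 : Commute x.1 y.1) : Commute x y := Subtype.ext h1

/-- the Heisenberg elements -/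
private def hX : Heis := ⟨1, 0, 0⟩
private def hY : Heis := ⟨0, 1, 0⟩

private theorem comm_XY : hX * hY * hX⁻¹ * hY⁻¹ = ⟨0, 0, 1⟩ := by
  ext <;> simp [hX, hY]

private theorem pow_Z (n : ℕ) : (⟨0, 0, 1⟩ : Heis) ^ n = ⟨0, 0, n⟩ := by
  induction n with
  | zero => rfl
  | succ n ih =>
    rw [pow_succ, ih]
    ext <;> simp

private def al (S : Set ℕ) : {n : ℕ // n ∉ S} × ℤ → Heis := fun p => if p.2 = 0 then hX else 1
private def be (S : Set ℕ) : {n : ℕ // n ∉ S} × ℤ → Heis := fun p =>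
  if p.2 = -(p.1.1 : ℤ) then hY else 1

/-- the subgroups -/
private def NN (H : Type) [Group H] (K : Type) [Group K] (n : ℕ) : Subgroup (Wr H × K) where
  carrier := {g | g.2 = 1 ∧ g.1.1.right = 1 ∧ ∀ i : ℤ, (i < 0 ∨ (n : ℤ) ≤ i) →
    g.1.1.left ((), i) = 1}
  one_mem' := ⟨rfl, rfl, fun _ _ => rfl⟩
  mul_mem' := by
    rintro g h ⟨h1, h2, h3⟩ ⟨h1', h2', h3'⟩
    refine ⟨?_, ?_, ?_⟩
    · rw [Prod.snd_mul, h1, h1', one_mul]
    · rw [Prod.fst_mul, Subgroup.coe_mul, SemidirectProduct.mul_right, h2, h2', one_mul]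
    · intro i hi
      rw [Prod.fst_mul, Subgroup.coe_mul, SemidirectProduct.mul_left, h2, map_one]
      show g.1.1.left ((), i) * h.1.1.left ((), i) = 1
      rw [h3 i hi, h3' i hi, one_mul]
  inv_mem' := by
    rintro g ⟨h1, h2, h3⟩
    refine ⟨?_, ?_, ?_⟩
    · rw [Prod.snd_inv, h1, inv_one]
    · rw [Prod.fst_inv, Subgroup.coe_inv, SemidirectProduct.inv_right, h2, inv_one]
    · intro i hi
      rw [Prod.fst_inv, Subgroup.coe_inv, SemidirectProduct.inv_left, h2, inv_one, map_one]
      show (g.1.1.left ((), i))⁻¹ = 1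
      rw [h3 i hi, inv_one]

private theorem conj_fst {H : Type} [Group H] {K : Type} [Group K] (s : K) (h : H) (j : ℤ) :
    ((((⟨T Unit H, T_mem⟩ : Wr H), s) : Wr H × K) ^ j * ((⟨fW H h, fW_mem h⟩ : Wr H), (1 : K)) *
      ((((⟨T Unit H, T_mem⟩ : Wr H), s) : Wr H × K) ^ j)⁻¹).1.1 =
        inl (sh (Pi.mulSingle ((), 0) h) j) := by
  rw [← conj_f]
  rfl

private theorem conj_snd {H : Type} [Group H] {K : Type} [Group K] (s : K) (h : H) (j : ℤ) :
    ((((⟨T Unit H, T_mem⟩ : Wr H), s) : Wr H × K) ^ j * ((⟨fW H h, fW_mem h⟩ : Wr H), (1 : K)) *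
      ((((⟨T Unit H, T_mem⟩ : Wr H), s) : Wr H × K) ^ j)⁻¹).2 = 1 := by
  show s ^ j * 1 * (s ^ j)⁻¹ = 1
  rw [mul_one, mul_inv_cancel]

theorem exists_data (H : Type) [Group H] (S : Set ℕ) :
    Nonempty (Data H (Wr H × W {n : ℕ // n ∉ S} Heis) S) := by
  let t : Wr H × W {n : ℕ // n ∉ S} Heis := (⟨T Unit H, T_mem⟩, T _ _)
  let f : H →* Wr H × W {n : ℕ // n ∉ S} Heis :=
    { toFun := fun h => (⟨fW H h, fW_mem h⟩, 1)
      map_one' := by
        refine Prod.ext (Subtype.ext ?_) rfl
        exact map_one _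
      map_mul' := fun x y => by
        refine Prod.ext (Subtype.ext ?_) (one_mul 1).symm
        exact map_mul _ _ _ }
  have c1 : ∀ (j : ℤ) (h : H), (t ^ j * f h * (t ^ j)⁻¹).1.1 =
      inl (sh (Pi.mulSingle ((), 0) h) j) := fun j h => conj_fst _ h j
  have c2 : ∀ (j : ℤ) (h : H), (t ^ j * f h * (t ^ j)⁻¹).2 = 1 := fun j h => conj_snd _ h j
  have cN : ∀ (j : ℕ) (h : H), t ^ j * f h * (t ^ j)⁻¹ = t ^ (j : ℤ) * f h * (t ^ (j : ℤ))⁻¹ :=
    fun j h => by rw [zpow_natCast]
  let a : Wr H × W {n : ℕ // n ∉ S} Heis := (1, inl (al S))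
  let b : Wr H × W {n : ℕ // n ∉ S} Heis := (1, inl (be S))
  have b1 : ∀ m : ℕ, (t ^ m * b * (t ^ m)⁻¹).1 = 1 := by
    intro m
    show t.1 ^ m * 1 * (t.1 ^ m)⁻¹ = 1
    rw [mul_one, mul_inv_cancel]
  have b2 : ∀ m : ℕ, (t ^ m * b * (t ^ m)⁻¹).2 = inl (sh (be S) m) := fun m => conj_pow _ m
  refine ⟨⟨t, a, b, f, ?_, ?_, ?_, ?_, NN H _, ?_, ?_, ?_, ?_⟩⟩
  · intro x y hxy
    have h1 : fW H x = fW H y := congrArg (fun g => g.1.1) hxy
    rw [fW_apply, fW_apply] at h1
    exact Pi.mulSingle_injective _ (inl_injective h1)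
  · intro j hj h h'
    have hj' : (j : ℤ) ≠ 0 := by exact_mod_cast hj.ne'
    rw [cN]
    apply comm_prod
    · apply comm_sub
      have h0 : (f h').1.1 = inl (Pi.mulSingle ((), 0) h') := rfl
      rw [c1, h0]
      apply commute_inl
      rintro ⟨⟨⟩, i⟩
      rw [sh_single]
      split_ifs with hi
      · rw [Pi.mulSingle_eq_of_ne]
        · exact Commute.one_right _
        · rw [hi]
          simpa using hj'
      · exact Commute.one_left _
    · rw [c2]
      exact Commute.one_left _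
  · intro j h
    apply comm_prod
    · exact Commute.one_left _
    · rw [c2]
      exact Commute.one_right _
  · intro j h
    apply comm_prod
    · exact Commute.one_left _
    · rw [c2]
      exact Commute.one_right _
  · intro n j hj h
    rw [cN]
    refine ⟨c2 _ _, ?_, ?_⟩
    · rw [c1, right_inl]
    · intro i hi
      rw [c1, left_inl, sh_single, if_neg]
      omega
  · intro n h hn
    rw [cN] at hn
    have h1 := hn.2.2 n (Or.inr le_rfl)
    rw [c1, left_inl, sh_single, if_pos rfl] at h1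
    exact h1
  · intro m hm
    apply comm_prod
    · exact Commute.one_left _
    · rw [b2]
      apply commute_inl
      rintro ⟨⟨y, hy⟩, i⟩
      unfold al sh be
      dsimp only
      split_ifs with h1 h2
      · exfalso
        have h3 : y = m := by omega
        exact hy (h3 ▸ hm)
      · exact Commute.one_right _
      · exact Commute.one_left _
      · exact Commute.one_left _
  · intro m hm n hn hcon
    have h1 : (inl ((al S) * (sh (be S) m) * (al S)⁻¹ * (sh (be S) m)⁻¹) :
        W {n : ℕ // n ∉ S} Heis) ^ n = 1 := by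
      have h2 := congrArg Prod.snd hcon
      rw [Prod.pow_snd, Prod.snd_mul, Prod.snd_mul, Prod.snd_mul, Prod.snd_inv, Prod.snd_inv,
        b2] at h2
      rw [map_mul, map_mul, map_mul, map_inv, map_inv]
      exact h2
    rw [← map_pow] at h1
    have h2 := inl_injective (h1.trans (map_one inl).symm)
    have h3 := congrFun h2 (⟨m, hm⟩, 0)
    have h4 : ((al S) * (sh (be S) m) * (al S)⁻¹ * (sh (be S) m)⁻¹) (⟨m, hm⟩, 0) =
        ⟨0, 0, 1⟩ := by
      rw [← comm_XY]
      have e1 : al S (⟨m, hm⟩, 0) = hX := by simp [al]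
      have e2 : sh (be S) m (⟨m, hm⟩, 0) = hY := by simp [sh, be]
      simp only [Pi.mul_apply, Pi.inv_apply, e1, e2]
    rw [Pi.pow_apply, h4, pow_Z, Pi.one_apply] at h3
    have h5 := congrArg Heis.z h3
    simp only [Heis.one_z] at h5
    omega

end Pool.Agent.AON
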