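import Pool.Agent.AON.Defs

set_option autoImplicit false

noncomputable section

/-!
Restricted wreath products of powers.
-/

namespace Pool.Agent.AON

/-- the residue of an integer -/
private def wrRes (p : ℕ) (i : ℤ) : Fin (p + 1) :=
  ⟨(i % ((p : ℤ) + 1)).toNat, by
    have h1 := Int.emod_lt_of_pos i (by positivity : (0 : ℤ) < (p : ℤ) + 1)
    have h2 := Int.emod_nonneg i (by positivity : ((p : ℤ) + 1) ≠ 0)
    omega⟩

private lemma wrRes_sub (p : ℕ) (i n : ℤ) : wrRes p (i - ((p : ℤ) + 1) * n) = wrRes p i := by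
  unfold wrRes
  congr 2
  rw [Int.sub_mul_emod_self_left]

private lemma wrDiv_sub (p : ℕ) (i n : ℤ) :
    (i - ((p : ℤ) + 1) * n) / ((p : ℤ) + 1) = i / ((p : ℤ) + 1) - n := by
  rw [Int.sub_mul_ediv_left _ _ (by positivity : ((p : ℤ) + 1) ≠ 0)]

private lemma wrRes_mk (p : ℕ) (j : ℤ) (r : Fin (p + 1)) :
    wrRes p (((p : ℤ) + 1) * j + r) = r := by
  unfold wrRes
  apply Fin.ext
  show ((((p : ℤ) + 1) * j + r) % ((p : ℤ) + 1)).toNat = r
  have h1 := r.2
  rw [add_comm, Int.add_mul_emod_self_left, Int.emod_eq_of_lt (by positivity) (by omega)]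
  simp

private lemma wrDiv_mk (p : ℕ) (j : ℤ) (r : Fin (p + 1)) :
    (((p : ℤ) + 1) * j + r) / ((p : ℤ) + 1) = j := by
  have h1 := r.2
  rw [add_comm, Int.add_mul_ediv_left _ _ (by positivity : ((p : ℤ) + 1) ≠ 0),
    Int.ediv_eq_zero_of_lt (by positivity) (by omega), zero_add]

private lemma wr_eq (p : ℕ) (i : ℤ) :
    ((p : ℤ) + 1) * (i / ((p : ℤ) + 1)) + (wrRes p i : ℕ) = i := by
  have h2 := Int.emod_nonneg i (by positivity : ((p : ℤ) + 1) ≠ 0)
  show ((p : ℤ) + 1) * (i / ((p : ℤ) + 1)) + ((i % ((p : ℤ) + 1)).toNat : ℕ) = i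
  rw [Int.toNat_of_nonneg h2]
  exact Int.mul_ediv_add_emod i ((p : ℤ) + 1)

/-- the map on the big groups -/
private def wrMap (H : Type) [Group H] (p : ℕ) (g : W Unit (Fin (p + 1) → H)) : W Unit H :=
  ⟨fun q => g.left (q.1, q.2 / ((p : ℤ) + 1)) (wrRes p q.2),
    Multiplicative.ofAdd (((p : ℤ) + 1) * g.right.toAdd)⟩

private lemma wrMap_mul (H : Type) [Group H] (p : ℕ) (g h : W Unit (Fin (p + 1) → H)) :
    wrMap H p (g * h) = wrMap H p g * wrMap H p h := by
  apply SemidirectProduct.ext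
  · funext q
    show g.left (q.1, q.2 / ((p : ℤ) + 1)) (wrRes p q.2) *
        h.left (q.1, q.2 / ((p : ℤ) + 1) - g.right.toAdd) (wrRes p q.2) =
      g.left (q.1, q.2 / ((p : ℤ) + 1)) (wrRes p q.2) *
        h.left (q.1, (q.2 - ((p : ℤ) + 1) * g.right.toAdd) / ((p : ℤ) + 1))
          (wrRes p (q.2 - ((p : ℤ) + 1) * g.right.toAdd))
    rw [wrRes_sub, wrDiv_sub]
  · show Multiplicative.ofAdd (((p : ℤ) + 1) * (g.right.toAdd + h.right.toAdd)) =
      Multiplicative.ofAdd (((p : ℤ) + 1) * g.right.toAdd + ((p : ℤ) + 1) * h.right.toAdd)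
    rw [mul_add]

private lemma wrMap_mem (H : Type) [Group H] (p : ℕ) (g : W Unit (Fin (p + 1) → H))
    (hg : g ∈ Wr (Fin (p + 1) → H)) : wrMap H p g ∈ Wr H := by
  show (Function.mulSupport (wrMap H p g).left).Finite
  have hg' : (Function.mulSupport g.left).Finite := hg
  refine ((hg'.prod (Set.finite_univ (α := Fin (p + 1)))).image
    (fun x : (Unit × ℤ) × Fin (p + 1) => (x.1.1, ((p : ℤ) + 1) * x.1.2 + (x.2 : ℕ)))).subset ?_
  rintro ⟨a, i⟩ hq
  refine ⟨((a, i / ((p : ℤ) + 1)), wrRes p i), ⟨?_, Set.mem_univ _⟩, ?_⟩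
  · intro h0
    apply hq
    show g.left (a, i / ((p : ℤ) + 1)) (wrRes p i) = 1
    rw [h0]
    rfl
  · show (a, ((p : ℤ) + 1) * (i / ((p : ℤ) + 1)) + (wrRes p i : ℕ)) = (a, i)
    rw [wr_eq]

/-- the restricted wreath product of a finite power of `H` with `ℤ` embeds in that of `H` -/
theorem wr_pow (H : Type) [Group H] (p : ℕ) :
    ∃ f : Wr (Fin (p + 1) → H) →* Wr H, Function.Injective f := by
  refine ⟨MonoidHom.mk' (fun g => ⟨wrMap H p g.1, wrMap_mem H p g.1 g.2⟩) ?_, ?_⟩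
  · intro g h
    apply Subtype.ext
    exact wrMap_mul H p g.1 h.1
  · intro g h hgh
    have h1 : wrMap H p g.1 = wrMap H p h.1 := congrArg Subtype.val hgh
    apply Subtype.ext
    apply SemidirectProduct.ext
    · funext q r
      have h2 := congrFun (congrArg SemidirectProduct.left h1) (q.1, ((p : ℤ) + 1) * q.2 + (r : ℕ))
      have h3 : g.1.left (q.1, (((p : ℤ) + 1) * q.2 + (r : ℕ)) / ((p : ℤ) + 1))
          (wrRes p (((p : ℤ) + 1) * q.2 + (r : ℕ))) =
        h.1.left (q.1, (((p : ℤ) + 1) * q.2 + (r : ℕ)) / ((p : ℤ) + 1))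
          (wrRes p (((p : ℤ) + 1) * q.2 + (r : ℕ))) := h2
      rw [wrDiv_mk, wrRes_mk] at h3
      exact h3
    · have h2 := congrArg SemidirectProduct.right h1
      have h3 : ((p : ℤ) + 1) * g.1.right.toAdd = ((p : ℤ) + 1) * h.1.right.toAdd := h2
      have h4 := mul_left_cancel₀ (by positivity : ((p : ℤ) + 1) ≠ 0) h3
      exact h4

end Pool.Agent.AON
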