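import Pool.Agent.AON.Defs

set_option autoImplicit false

noncomputable section

/-!
Torsion-freeness.
-/

namespace Pool.Agent.AON

private lemma heis_pow_x (g : Heis) (n : ℕ) : (g ^ n).x = n * g.x := by
  induction n with
  | zero => simp
  | succ n ih => rw [pow_succ, Heis.mul_x, ih]; push_cast; ring

private lemma heis_pow_y (g : Heis) (n : ℕ) : (g ^ n).y = n * g.y := by
  induction n with
  | zero => simp
  | succ n ih => rw [pow_succ, Heis.mul_y, ih]; push_cast; ring

private lemma heis_pow_z (g : Heis) (hx : g.x = 0) (n : ℕ) : (g ^ n).z = n * g.z := by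
  induction n with
  | zero => simp
  | succ n ih => rw [pow_succ, Heis.mul_z, ih, heis_pow_x, hx]; push_cast; ring

theorem tf_heis : ∀ (g : Heis) (n : ℕ), 0 < n → g ^ n = 1 → g = 1 := by
  intro g n hn h
  have hn' : (n : ℤ) ≠ 0 := by exact_mod_cast hn.ne'
  have hx : g.x = 0 := by
    have h1 := heis_pow_x g n
    rw [h, Heis.one_x] at h1
    rcases mul_eq_zero.1 h1.symm with h2 | h2
    · exact absurd h2 hn'
    · exact h2
  have hy : g.y = 0 := by
    have h1 := heis_pow_y g n
    rw [h, Heis.one_y] at h1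
    rcases mul_eq_zero.1 h1.symm with h2 | h2
    · exact absurd h2 hn'
    · exact h2
  have hz : g.z = 0 := by
    have h1 := heis_pow_z g hx n
    rw [h, Heis.one_z] at h1
    rcases mul_eq_zero.1 h1.symm with h2 | h2
    · exact absurd h2 hn'
    · exact h2
  exact Heis.ext hx hy hz

/-- semidirect products -/
theorem tf_semi {N G : Type} [Group N] [Group G] (φ : G →* MulAut N)
    (hN : ∀ (g : N) (n : ℕ), 0 < n → g ^ n = 1 → g = 1)
    (hG : ∀ (g : G) (n : ℕ), 0 < n → g ^ n = 1 → g = 1) :
    ∀ (g : N ⋊[φ] G) (n : ℕ), 0 < n → g ^ n = 1 → g = 1 := by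
  intro g n hn h
  have h1 : g.right = 1 := by
    apply hG _ n hn
    have h2 := congrArg (SemidirectProduct.rightHom) h
    rw [map_pow, map_one] at h2
    exact h2
  have h2 : g = SemidirectProduct.inl g.left := by
    ext
    · simp
    · simpa using h1
  have h3 : g.left = 1 := by
    apply hN _ n hn
    apply SemidirectProduct.inl_injective (φ := φ)
    rw [map_pow, ← h2, h, map_one]
  rw [h2, h3, map_one]

theorem tf_W (Y E : Type) [Group E] (hE : ∀ (g : E) (n : ℕ), 0 < n → g ^ n = 1 → g = 1) :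
    ∀ (g : W Y E) (n : ℕ), 0 < n → g ^ n = 1 → g = 1 := by
  apply tf_semi
  · intro g n hn h
    funext p
    apply hE _ n hn
    exact congrFun h p
  · intro g n hn h
    have h1 : n • g.toAdd = 0 := by
      have h2 := congrArg Multiplicative.toAdd h
      rwa [toAdd_pow, toAdd_one] at h2
    rcases smul_eq_zero.1 h1 with h2 | h2
    · exact absurd h2 hn.ne'
    · exact Multiplicative.toAdd.injective h2

theorem tf_prod (A B : Type) [Group A] [Group B]
    (hA : ∀ (g : A) (n : ℕ), 0 < n → g ^ n = 1 → g = 1)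
    (hB : ∀ (g : B) (n : ℕ), 0 < n → g ^ n = 1 → g = 1) :
    ∀ (g : A × B) (n : ℕ), 0 < n → g ^ n = 1 → g = 1 := by
  intro g n hn h
  exact Prod.ext (hA g.1 n hn (congrArg Prod.fst h)) (hB g.2 n hn (congrArg Prod.snd h))

theorem tf_of_injective {A B : Type} [Group A] [Group B] (f : A →* B) (hf : Function.Injective f)
    (hB : ∀ (g : B) (n : ℕ), 0 < n → g ^ n = 1 → g = 1) :
    ∀ (g : A) (n : ℕ), 0 < n → g ^ n = 1 → g = 1 := by
  intro g n hn h
  apply hf
  rw [map_one]
  exact hB _ n hn (by rw [← map_pow, h, map_one])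

/-- free groups are torsion-free -/
theorem tf_free (X : Type) : ∀ (g : FreeGroup X) (n : ℕ), 0 < n → g ^ n = 1 → g = 1 := by
  intro g n hn h
  have : IsMulTorsionFree (FreeGroup X) := inferInstance
  exact (pow_eq_one_iff_left hn.ne').1 h

end Pool.Agent.AON
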