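import Pool.Agent.AON.Perp

set_option autoImplicit false
set_option linter.unusedSectionVars false

noncomputable section

open scoped InnerProductSpace ENNReal Topology
open Classical Filter ContinuousLinearMap
open Pool.Agent.VN

/-!
From a non-integral dimension to a rational subspace of `ℓ²(G)` of dimension strictly between `0`
and `1`.
-/

namespace Pool.Agent.AON

theorem exists_slice {k : Subring ℂ} {G : Type} [Group G] {x : ℝ} (hx : x ∈ Dset k G)
    (hn : ¬ ∃ z : ℤ, x = z) :
    ∃ (σ : Type) (_ : Fintype σ) (C : Set (σ × G →₀ ℂ)) (i : σ), C.Finite ∧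
      (∀ a ∈ C, CoefIn k a) ∧
      0 < vdim (((Sol C).map (coordMap i).toLinearMap : Submodule ℂ (L2 Unit G)) :
        Set (L2 Unit G)) ∧
      vdim (((Sol C).map (coordMap i).toLinearMap : Submodule ℂ (L2 Unit G)) :
        Set (L2 Unit G)) < 1 := by
  obtain ⟨ι, hι, C, hC, hk, rfl⟩ := hx
  by_contra hcon
  apply hn
  set f : Finset ι → ℝ := fun I =>
    vdim (Sol (C ∪ (fun i => eqn i) '' (I : Set ι)) : Set (L2 ι G)) with hf
  have hadd : ∀ (I : Finset ι) (i : ι), f (insert i I)
      = vdim ((Sol (C ∪ (fun i => eqn i) '' (I : Set ι)) ⊓ Sol {eqn i} : Submodule ℂ (L2 ι G)) :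
        Set (L2 ι G)) := by
    intro I i
    rw [hf]
    simp only [Finset.coe_insert, Set.image_insert_eq, Set.union_insert]
    rw [← Sol_union, Set.union_singleton]
  have hfuniv : f Finset.univ = 0 := by
    rw [hf]
    simp only
    rw [Sol_all _ (fun i => Or.inr ⟨i, by simp, rfl⟩), vdim_bot]
  have hempty : f ∅ = vdim (Sol C : Set (L2 ι G)) := by
    rw [hf]
    simp
  have hstep : ∀ (I : Finset ι) (i : ι), ∃ d : ℤ, f I - f (insert i I) = d := by
    intro I i
    set M : Submodule ℂ (L2 Unit G) :=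
      (Sol (C ∪ (fun i => eqn i) '' (I : Set ι))).map (coordMap i).toLinearMap with hM
    have h1 := vdim_map (coordMap_equivar (G := G) i)
      (Sol_invar (C ∪ (fun i => eqn i) '' (I : Set ι)))
      (Sol_closed (C ∪ (fun i => eqn i) '' (I : Set ι)))
    rw [ker_coordMap, ← hadd I i, ← hM] at h1
    have h1' : vdim (M : Set (L2 Unit G)) + f (insert i I) = f I := h1
    have h2 : 0 ≤ vdim (M : Set (L2 Unit G)) := vdim_nonneg _
    have h3 := vdim_le_card M
    rw [Fintype.card_unit, Nat.cast_one] at h3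
    rcases h2.eq_or_lt with h4 | h4
    · exact ⟨0, by push_cast; linarith⟩
    · refine ⟨1, ?_⟩
      have h5 : ¬ vdim (M : Set (L2 Unit G)) < 1 := by
        intro h6
        refine hcon ⟨ι, hι, C ∪ (fun i => eqn i) '' (I : Set ι), i, ?_, ?_, h4, h6⟩
        · exact hC.union ((Finset.finite_toSet I).image _)
        · rintro a (ha | ⟨j, _, rfl⟩)
          · exact hk a ha
          · exact coefIn_single _ _ _ k.one_mem
      push_cast
      linarith [not_lt.1 h5]
  have hall : ∀ I : Finset ι, ∃ d : ℤ, f ∅ - f I = d := by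
    intro I
    induction I using Finset.induction_on with
    | empty => exact ⟨0, by simp⟩
    | insert i I _ ih =>
      obtain ⟨d, hd⟩ := ih
      obtain ⟨e, he⟩ := hstep I i
      exact ⟨d + e, by push_cast; linarith⟩
  obtain ⟨d, hd⟩ := hall Finset.univ
  exact ⟨d, by rw [← hempty]; linarith⟩

/-- A rational subspace of dimension in `[1/2, 1)` with a rational complement. -/
theorem exists_J {k : Subring ℂ} (hk : ∀ z ∈ k, star z ∈ k) {G : Type} [Group G] {x : ℝ}
    (hx : x ∈ Dset k G) (hn : ¬ ∃ z : ℤ, x = z) :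
    ∃ (J : Submodule ℂ (L2 Unit G)) (c c' : ℝ), RatD k J c ∧ RatD k Jᗮ c' ∧
      1 / 2 ≤ vdim (J : Set (L2 Unit G)) ∧ vdim (J : Set (L2 Unit G)) < 1 := by
  obtain ⟨σ, hσ, C, i, hC, hCk, h0, h1⟩ := exists_slice hx hn
  set M : Submodule ℂ (L2 Unit G) := (Sol C).map (coordMap i).toLinearMap with hM
  have hcl : IsClosed (M.topologicalClosure : Set (L2 Unit G)) :=
    Submodule.isClosed_topologicalClosure _
  have c1 : CompleteSpace M.topologicalClosure := hcl.completeSpace_coe
  have hv : vdim (M.topologicalClosure : Set (L2 Unit G)) = vdim (M : Set (L2 Unit G)) := by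
    rw [Submodule.topologicalClosure_coe, vdim_closure]
  have hR : ∃ c, RatD k M.topologicalClosure c :=
    ⟨_, σ, hσ, C, eqn i, hC, hCk, coefIn_single _ _ _ k.one_mem, rfl, rfl⟩
  obtain ⟨c, hR⟩ := hR
  obtain ⟨c', hR'⟩ := ratD_perp hk hC hCk i M.topologicalClosure rfl
  have hvo := vdim_orthogonal M.topologicalClosure
  rw [Fintype.card_unit, Nat.cast_one, hv] at hvo
  rcases le_total (1 / 2) (vdim (M : Set (L2 Unit G))) with h | h
  · exact ⟨_, c, c', hR, hR', by rw [hv]; exact h, by rw [hv]; exact h1⟩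
  · refine ⟨M.topologicalClosureᗮ, c', c, hR', ?_, by rw [hvo]; linarith, by rw [hvo]; linarith⟩
    rw [Submodule.orthogonal_orthogonal]
    exact hR

end Pool.Agent.AON
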