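import Pool.Agent.AON.Stmt
import Pool.Agent.AON.Analytic
import Pool.Agent.AON.Slice
import Pool.Agent.AON.Digits
import Pool.Agent.AON.Fg
import Pool.Agent.AON.GrpA
import Pool.Agent.AON.GrpB
import Pool.Agent.AON.GrpC
import Pool.Agent.HX.StrongDich

set_option autoImplicit false
set_option linter.unusedSectionVars false

noncomputable section

open scoped InnerProductSpace ENNReal Topology
open Classical Filter ContinuousLinearMap
open Pool.Agent.VN

/-!
Assembly.
-/

namespace Pool.Agent.AON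

lemma intRing_star : ∀ z ∈ intRing, star z ∈ intRing := by
  rintro z ⟨n, rfl⟩
  exact ⟨n, by simp⟩

/-- a multiple of a value -/
lemma dset_nsmul {k : Subring ℂ} {G : Type} [Group G] (p : ℕ) {x : ℝ} (hx : x ∈ Dset k G) :
    p * x ∈ Dset k G := by
  have h1 : (p : ℝ) ∈ Dset k Unit := Dset_nat k p
  have h2 := Dset_mul k h1 hx
  refine Dset_map k (MonoidHom.snd Unit G) ?_ h2
  rintro ⟨a, b⟩ ⟨c, d⟩ h
  exact Prod.ext rfl h

/-- powers of a value -/
lemma dset_pow {k : Subring ℂ} {A : Type} [Group A] {y : ℝ} (hy : y ∈ Dset k A) (j : ℕ) :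
    y ^ j ∈ Dset k (Fin j → A) := by
  induction j with
  | zero => simpa using Dset_nat (G := Fin 0 → A) k 1
  | succ j ih =>
    have h := Dset_mul k ih hy
    rw [← pow_succ] at h
    refine Dset_map k (MonoidHom.mk' (fun (u : (Fin j → A) × A) (i : Fin (j + 1)) =>
      Fin.snoc (α := fun _ => A) u.1 u.2 i) ?_) ?_ h
    · intro u v
      funext i
      refine Fin.lastCases ?_ (fun i => ?_) i
      · simp
      · simp
    · intro u v h
      refine Prod.ext ?_ ?_
      · funext i
        have := congrFun h (Fin.castSucc i)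
        simpa using this
      · have := congrFun h (Fin.last j)
        simpa using this

/-- powers of a value over a power of a group -/
lemma dset_pow' {k : Subring ℂ} {H : Type} [Group H] {q : ℕ} {y : ℝ}
    (hy : y ∈ Dset k (Fin q → H)) (j : ℕ) : y ^ j ∈ Dset k (Fin (j * q) → H) := by
  refine Dset_map k (MonoidHom.mk' (fun (u : Fin j → Fin q → H) p =>
    u (finProdFinEquiv.symm p).1 (finProdFinEquiv.symm p).2) fun _ _ => rfl) ?_ (dset_pow hy j)
  intro u v h
  funext a b
  have h1 := congrFun h (finProdFinEquiv (a, b))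
  change u (finProdFinEquiv.symm (finProdFinEquiv (a, b))).1
      (finProdFinEquiv.symm (finProdFinEquiv (a, b))).2
    = v (finProdFinEquiv.symm (finProdFinEquiv (a, b))).1
      (finProdFinEquiv.symm (finProdFinEquiv (a, b))).2 at h1
  rw [Equiv.symm_apply_apply] at h1
  exact h1

/-- The values over the groups `(H ≀ ℤ) × (Heis^(Y × ℤ) ⋊ ℤ)`. -/
theorem interval {H : Type} [Group H] {x : ℝ} (hx : x ∈ Dset intRing H)
    (hn : ¬ ∃ z : ℤ, x = z) :
    ∃ c w : ℝ, 0 ≤ c ∧ 0 < w ∧ ∀ v, c ≤ v → v ≤ c + w →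
      ∃ S : Set ℕ, v ∈ Dset intRing (Wr H × W {n : ℕ // n ∉ S} Heis) := by
  obtain ⟨J, c, c', h1, h2, hd, hd1⟩ := exists_J intRing_star hx hn
  set d := vdim (J : Set (L2 Unit H)) with hdd
  have hd2 : 0 < 1 - d := by linarith
  refine ⟨8 * c + 4 * c', 1 - d, ?_, hd2, fun v hv1 hv2 => ?_⟩
  · have := h1.nonneg
    have := h2.nonneg
    linarith
  · obtain ⟨S, hS⟩ := digits hd hd1 (y := (v - (8 * c + 4 * c')) / (1 - d) ^ 2)
      (div_nonneg (by linarith) (by positivity)) (by
        rw [div_le_div_iff₀ (by positivity) hd2]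
        nlinarith)
    obtain ⟨X⟩ := exists_data H S
    have h := dset_of_data X h1 h2 hd1 hS
    refine ⟨S, ?_⟩
    convert h using 1
    rw [← hdd]
    field_simp
    ring

/-- a non-integral value over the complex numbers gives one over the integers -/
theorem exists_nonint {H : Type} [Group H] (hH : ¬ AtiyahOver ⊤ H) :
    ∃ (p : ℕ) (x : ℝ), x ∈ Dset intRing (Fin (p + 1) → H) ∧ ¬ ∃ z : ℤ, x = z := by
  by_contra hcon
  push Not at hcon
  apply hH
  have h1 : ∀ m : ℕ, AtiyahOver intRing (Fin m → H) := by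
    intro m
    have h2 : AtiyahOver intRing (Fin (m + 1) → H) := by
      intro m' n' A hA
      rw [kerDim_eq]
      exact hcon m _ ⟨Fin m', inferInstance, Set.range (colF A), Set.finite_range _,
        fun c hc p => colF_coef hA c hc p, rfl⟩
    refine h2.of_injective (MonoidHom.mk' (fun (u : Fin m → H) (i : Fin (m + 1)) =>
      Fin.snoc (α := fun _ => H) u 1 i) ?_) ?_
    · intro u v
      funext i
      refine Fin.lastCases ?_ (fun i => ?_) i
      · simp
      · simp
    · intro u v h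
      funext i
      have := congrFun h (Fin.castSucc i)
      simpa using this
  have h3 := HX.base_change intRing H h1 1
  refine h3.of_injective (MonoidHom.mk' (fun (g : H) (_ : Fin 1) => g) fun _ _ => rfl) ?_
  intro a b h
  exact congrFun h 0

/-- the amplification theorem -/
theorem amplification (H : Type) [Group H] (hH : ¬ AtiyahOver ⊤ H) {r : ℝ} (hr : 0 ≤ r) :
    ∃ (S : Set ℕ) (j : ℕ), r ∈ Dset intRing ((Fin j → H) × Wr H × W S Heis) := by
  obtain ⟨p, x, hx, hn⟩ := exists_nonint hH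
  obtain ⟨c, w, hc, hw, hI⟩ := interval hx hn
  obtain ⟨f, hf⟩ := wr_pow H p
  obtain ⟨y, hy, hy0, hy1⟩ := Dset_small intRing hx hn
  obtain ⟨r₀, hr0⟩ := exists_copies' hc hw
  rcases hr.eq_or_lt with rfl | hr'
  · exact ⟨∅, 0, by simpa using Dset_nat (G := (Fin 0 → H) × Wr H × W (∅ : Set ℕ) Heis) intRing 0⟩
  -- choose the power of `y`
  obtain ⟨j, hj⟩ : ∃ j : ℕ, r₀ ≤ r / y ^ j := by
    obtain ⟨j, hj⟩ := exists_pow_lt_of_lt_one (show 0 < r / (|r₀| + 1) by positivity) hy1
    refine ⟨j, ?_⟩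
    rw [le_div_iff₀ (by positivity)]
    rw [lt_div_iff₀ (by positivity)] at hj
    have h1 : r₀ ≤ |r₀| + 1 := by linarith [le_abs_self r₀]
    have h2 : 0 < y ^ j := by positivity
    nlinarith
  obtain ⟨q, v, h1, h2, h3⟩ := hr0 _ hj
  obtain ⟨S, hS⟩ := hI v h1 h2
  have h4 : r / y ^ j ∈ Dset intRing (Wr H × W {n : ℕ // n ∉ S} Heis) := by
    rw [← h3]
    refine dset_nsmul q (Dset_map intRing (f.prodMap (MonoidHom.id _)) ?_ hS)
    exact hf.prodMap Function.injective_id
  refine ⟨Sᶜ, j * (p + 1), ?_⟩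
  have h5 := Dset_mul intRing (dset_pow' hy j) h4
  have h6 : y ^ j * (r / y ^ j) = r := by
    field_simp
  rw [h6] at h5
  exact h5

/-- The dichotomy for a group. -/
theorem all_or_nothing (H : Type) [Group H] :
    AtiyahOver ⊤ H ∨
    ∀ r : ℝ, 0 ≤ r → ∃ (S : Set ℕ) (j : ℕ) (G : Subgroup (Gam H S j)),
      Group.FG G ∧ (TorsionFree H → TorsionFree G) ∧ Occurs G r := by
  by_cases hat : AtiyahOver ⊤ H
  · exact Or.inl hat
  right
  intro r hr
  obtain ⟨S, j, hj⟩ := amplification H hat hr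
  have hj' : r ∈ Dset intRing (Gam H S j) := hj
  obtain ⟨L, hL, hx⟩ := dset_fg hj'
  refine ⟨S, j, L, hL, fun htf => ?_, exists_threeSparse hx⟩
  have h1 : ∀ (g : (Fin j → H) × Wr H × W S Heis) (n : ℕ), 0 < n → g ^ n = 1 → g = 1 := by
    apply tf_prod
    · intro g n hn h
      funext i
      exact htf _ n hn (congrFun h i)
    apply tf_prod
    · exact tf_of_injective (Wr H).subtype (Wr H).subtype_injective (tf_W _ _ htf)
    · exact tf_W _ _ tf_heis
  exact tf_of_injective L.subtype L.subtype_injective h1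

end Pool.Agent.AON
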