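import Pool.Agent.AON.GrpC

set_option autoImplicit false

noncomputable section

/-!
Torsion-freeness of free products with free groups.
-/

namespace Pool.Agent.AON

/-- the action of `G` on the free group on `G × Fin m` -/
private def grpD_act (G : Type) [Group G] (m : ℕ) : G →* MulAut (FreeGroup (G × Fin m)) where
  toFun g := FreeGroup.freeGroupCongr ((Equiv.mulLeft g).prodCongr (Equiv.refl (Fin m)))
  map_one' := by
    ext x
    induction x using FreeGroup.induction_on with
    | C1 => simp
    | of p => simp
    | inv_of p ih => rw [map_inv, map_inv, ih]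
    | mul x y hx hy => rw [map_mul, map_mul, hx, hy]
  map_mul' g h := by
    ext x
    rw [MulAut.mul_apply]
    induction x using FreeGroup.induction_on with
    | C1 => simp
    | of p =>
      obtain ⟨p1, p2⟩ := p
      simp [mul_assoc]
    | inv_of p ih => rw [map_inv, map_inv, map_inv, ih]
    | mul x y hx hy => rw [map_mul, map_mul, map_mul, hx, hy]

private lemma grpD_act_of (G : Type) [Group G] (m : ℕ) (g h : G) (i : Fin m) :
    grpD_act G m g (FreeGroup.of (h, i)) = FreeGroup.of (g * h, i) := by
  show FreeGroup.freeGroupCongr _ _ = _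
  simp

private def grpD_one (G : Type) [Group G] (m : ℕ) :
    FreeGroup (G × Fin m) →* Monoid.Coprod G (FreeGroup (Fin m)) :=
  FreeGroup.lift fun p => Monoid.Coprod.inl p.1 * Monoid.Coprod.inr (FreeGroup.of p.2) *
    (Monoid.Coprod.inl p.1)⁻¹

private def grpD_back (G : Type) [Group G] (m : ℕ) :
    (FreeGroup (G × Fin m) ⋊[grpD_act G m] G) →* Monoid.Coprod G (FreeGroup (Fin m)) :=
  SemidirectProduct.lift (grpD_one G m) Monoid.Coprod.inl (by
    intro g
    ext ⟨h, i⟩
    simp only [MonoidHom.comp_apply, MulEquiv.coe_toMonoidHom, grpD_act_of, MulAut.conj_apply]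
    unfold grpD_one
    simp only [FreeGroup.lift_apply_of, map_mul, mul_inv_rev, mul_assoc])

private def grpD_emb (G : Type) [Group G] (m : ℕ) :
    Monoid.Coprod G (FreeGroup (Fin m)) →* (FreeGroup (G × Fin m) ⋊[grpD_act G m] G) :=
  Monoid.Coprod.lift SemidirectProduct.inr
    (FreeGroup.lift fun i => SemidirectProduct.inl (FreeGroup.of (1, i)))

private lemma grpD_comp (G : Type) [Group G] (m : ℕ) :
    (grpD_back G m).comp (grpD_emb G m) = MonoidHom.id _ := by
  apply Monoid.Coprod.hom_ext
  · ext g
    simp [grpD_back, grpD_emb]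
  · apply FreeGroup.ext_hom
    intro i
    simp [grpD_back, grpD_emb, grpD_one]

/-- `G * F_m` is torsion-free if `G` is: it embeds in the semidirect product of the free group on
`G × Fin m` with `G` -/
theorem tf_coprod (G : Type) [Group G] (m : ℕ)
    (hG : ∀ (g : G) (n : ℕ), 0 < n → g ^ n = 1 → g = 1) :
    ∀ (g : Monoid.Coprod G (FreeGroup (Fin m))) (n : ℕ), 0 < n → g ^ n = 1 → g = 1 := by
  apply tf_of_injective (grpD_emb G m)
  · apply Function.LeftInverse.injective (g := grpD_back G m)
    intro x
    exact DFunLike.congr_fun (grpD_comp G m) x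
  · exact tf_semi _ (tf_free _) hG

end Pool.Agent.AON
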