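import Pool.Agent.AON.Base

set_option autoImplicit false
set_option linter.unusedSectionVars false

noncomputable section

open scoped InnerProductSpace ENNReal Topology
open Classical Filter ContinuousLinearMap
open Pool.Agent.VN

/-!
Induced subspaces: orthogonal complement and projection.
-/

namespace Pool.Agent.AON

section

variable {ι H G : Type*} [Group H] [Group G]

private lemma push_mem_Ind (f : H →* G) (hf : Function.Injective f) {M : Submodule ℂ (L2 ι H)}
    (hMi : Invar M) {x : L2 ι H} (hx : x ∈ M) :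
    push _ (injIdx (ι := ι) f hf) x ∈ Ind f hf M := by
  intro g
  by_cases hg : ∃ b, f b = g
  · obtain ⟨b, rfl⟩ := hg
    rw [resF_lt]
    apply hMi
    have : resF f hf (push _ (injIdx (ι := ι) f hf) x) = x := by
      ext p
      rw [resF_apply]
      exact push_apply _ (injIdx (ι := ι) f hf) x p
    rw [this]
    exact hx
  · have : resF f hf (lt g (push _ (injIdx (ι := ι) f hf) x)) = 0 := by
      ext p
      rw [resF_apply, lt_apply, push_apply_of_notMem]
      · rfl
      · intro q hq
        apply hg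
        have h2 : f q.2 = g⁻¹ * f p.2 := congrArg Prod.snd hq
        exact ⟨p.2 * q.2⁻¹, by rw [map_mul, map_inv, h2]; group⟩
    rw [this]
    exact M.zero_mem

private lemma inner_push (f : H →* G) (hf : Function.Injective f) (u : L2 ι H) (z : L2 ι G) :
    ⟪push _ (injIdx (ι := ι) f hf) u, z⟫_ℂ = ⟪u, resF f hf z⟫_ℂ := by
  rw [push, ContinuousLinearMap.adjoint_inner_left]
  rfl

private lemma prj_dl (f : H →* G) (hf : Function.Injective f) {J : Submodule ℂ (L2 ι H)}
    (hJ : Invar J) (hJc : IsClosed (J : Set (L2 ι H))) [J.HasOrthogonalProjection] (i : ι) :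
    prj (Ind f hf J) (dl (i, (1 : G)))
      = push _ (injIdx (ι := ι) f hf) (J.starProjection (dl (i, (1 : H)))) := by
  have hc := Ind_closed f hf hJc
  have c1 : CompleteSpace (Ind f hf J) := hc.completeSpace_coe
  rw [prj_eq hc]
  apply Submodule.eq_starProjection_of_mem_of_inner_eq_zero
  · exact push_mem_Ind f hf hJ (Submodule.starProjection_apply_mem _ _)
  · intro w hw
    have hdl : (dl (i, (1 : G)) : L2 ι G) = push _ (injIdx (ι := ι) f hf) (dl (i, (1 : H))) := by
      rw [push_dl]
      simp
    rw [hdl, ← map_sub, inner_push f hf]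
    exact J.starProjection_inner_eq_zero _ _ (resF_mem f hf hw)

theorem Ind_orthogonal [Fintype ι] (f : H →* G) (hf : Function.Injective f)
    {J : Submodule ℂ (L2 ι H)} (hJ : Invar J) (hJc : IsClosed (J : Set (L2 ι H))) :
    (Ind f hf J)ᗮ = Ind f hf Jᗮ := by
  have c1 : CompleteSpace J := hJc.completeSpace_coe
  have hc : IsClosed (Ind f hf J : Set (L2 ι G)) := Ind_closed f hf hJc
  apply le_antisymm
  · intro y hy g
    rw [Submodule.mem_orthogonal]
    intro u hu
    rw [← inner_push f hf, ← inv_inv g, ← inner_lt_left]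
    exact (Submodule.mem_orthogonal _ _).mp hy _
      (Ind_invar f hf J _ _ (push_mem_Ind f hf hJ hu))
  · intro y hy
    rw [← prj_eq_zero_iff hc]
    ext p
    obtain ⟨i, g⟩ := p
    rw [← inner_dl_left]
    have e1 : (dl (i, g) : L2 ι G) = lt g (dl (i, 1)) := by
      rw [lt_dl, mul_one]
    have e2 : ⟪dl (i, g), prj (Ind f hf J) y⟫_ℂ = ⟪prj (Ind f hf J) (dl (i, g)), y⟫_ℂ := by
      rw [← adjoint_inner_left, prj_adjoint hc]
    rw [e2, e1, prj_equivar hc (Ind_invar f hf J), prj_dl f hf hJ hJc, inner_lt_left, inner_push f hf]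
    exact (Submodule.mem_orthogonal _ _).mp (hy g⁻¹) _ (Submodule.starProjection_apply_mem _ _)

/-- the projection onto an induced subspace is supported on the subgroup -/
theorem prj_Ind_dl (f : H →* G) (hf : Function.Injective f)
    {J : Submodule ℂ (L2 ι H)} (hJ : Invar J) (hJc : IsClosed (J : Set (L2 ι H))) (i j : ι)
    (g : G) (hg : ∀ h, f h ≠ g) : (prj (Ind f hf J) (dl (i, 1))) (j, g) = 0 := by
  have c1 : CompleteSpace J := hJc.completeSpace_coe
  rw [prj_dl f hf hJ hJc]
  apply push_apply_of_notMem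
  intro q hq
  exact hg q.2 (congrArg Prod.snd hq)

/-- right translations by elements which commute with the subgroup preserve induced subspaces -/
theorem rt_mem_Ind (f : H →* G) (hf : Function.Injective f) (J : Submodule ℂ (L2 ι H)) (s : G)
    (hs : ∀ h, Commute s (f h)) {x : L2 ι G} (hx : x ∈ Ind f hf J) : rt s x ∈ Ind f hf J := by
  intro g
  have h1 : resF f hf (lt g (rt s x)) = resF f hf (lt (s⁻¹ * g) x) := by
    ext p
    rw [resF_apply, resF_apply, lt_apply, lt_apply, rt_apply]
    show x (p.1, g⁻¹ * f p.2 * s) = x (p.1, (s⁻¹ * g)⁻¹ * f p.2)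
    have h2 : g⁻¹ * f p.2 * s = (s⁻¹ * g)⁻¹ * f p.2 := by
      rw [mul_assoc, ← (hs p.2).eq]
      group
    rw [h2]
  rw [h1]
  exact hx _

theorem rt_comm_prj [Fintype ι] (f : H →* G) (hf : Function.Injective f)
    {J : Submodule ℂ (L2 ι H)} (hJ : Invar J) (hJc : IsClosed (J : Set (L2 ι H))) (s : G)
    (hs : ∀ h, Commute s (f h)) : rt s * prj (Ind f hf J) = prj (Ind f hf J) * rt s := by
  apply comm_prj (Ind_closed f hf hJc)
  · intro x hx
    exact rt_mem_Ind f hf J s hs hx
  · intro x hx
    rw [Ind_orthogonal f hf hJ hJc] at hx ⊢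
    exact rt_mem_Ind f hf _ s hs hx

end

end Pool.Agent.AON
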