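import Pool.Agent.AON.Base
import Pool.Agent.VN.FreeFinal
import Pool.Agent.VN.ZExt3

set_option autoImplicit false
set_option linter.unusedSectionVars false

noncomputable section

open scoped InnerProductSpace ENNReal Topology
open Classical Filter ContinuousLinearMap
open Pool.Agent.VN

/-!
Injectivity of a combination of free generators.
-/

namespace Pool.Agent.AON

section Trivial

variable {G : Type} [Group G]

private lemma lowA_orthonormal (ι : Type) :
    Orthonormal ℂ fun i : ι => (dl (i, (1 : G)) : L2 ι G) := by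
  rw [orthonormal_iff_ite]
  intro i j
  rw [inner_dl_left, dl_apply]
  congr 1
  simp only [Prod.mk.injEq, and_true]

private lemma lowA_span [Subsingleton G] (ι : Type) [Fintype ι] :
    ⊤ ≤ Submodule.span ℂ (Set.range fun i : ι => (dl (i, (1 : G)) : L2 ι G)) := by
  intro x _
  have h : x = ∑ i : ι, x (i, (1 : G)) • (dl (i, (1 : G)) : L2 ι G) := by
    ext ⟨j, g⟩
    have hg : g = 1 := Subsingleton.elim _ _
    subst hg
    rw [lp.coeFn_sum, Finset.sum_apply, Finset.sum_eq_single j]
    · rw [lp.coeFn_smul, Pi.smul_apply, dl_self, smul_eq_mul, mul_one]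
    · intro i _ hij
      rw [lp.coeFn_smul, Pi.smul_apply, dl_apply, if_neg, smul_zero]
      intro he
      exact hij (Prod.mk.inj he).1.symm
    · intro h
      exact absurd (Finset.mem_univ j) h
  rw [h]
  exact Submodule.sum_mem _ fun i _ => Submodule.smul_mem _ _ (Submodule.subset_span ⟨i, rfl⟩)

/-- dimensions over a trivial group are integers -/
private lemma lowA_vdim [Subsingleton G] {ι : Type} [Fintype ι] (K : Submodule ℂ (L2 ι G))
    [K.HasOrthogonalProjection] :
    vdim (K : Set (L2 ι G)) = (Module.finrank ℂ K : ℝ) := by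
  set bs : OrthonormalBasis ι ℂ (L2 ι G) := OrthonormalBasis.mk (lowA_orthonormal ι) (lowA_span ι)
    with hbs
  have hfd : FiniteDimensional ℂ (L2 ι G) := bs.toBasis.finiteDimensional_of_finite
  have hproj : LinearMap.IsProj K (K.starProjection : L2 ι G →ₗ[ℂ] L2 ι G) := by
    constructor
    · intro x
      exact K.starProjection_apply_mem x
    · intro x hx
      exact K.starProjection_eq_self_iff.mpr hx
  have h1 := hproj.trace
  rw [LinearMap.trace_eq_sum_inner _ bs] at h1
  have h2 := tr_proj K
  unfold tr at h2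
  have h3 : ∀ i, bs i = dl (i, (1 : G)) := by
    intro i
    rw [hbs, OrthonormalBasis.coe_mk]
  simp only [h3] at h1
  have h4 : ((vdim (K : Set (L2 ι G)) : ℝ) : ℂ) = ((Module.finrank ℂ K : ℝ) : ℂ) := by
    rw [← h2]
    push_cast
    rw [← h1]
    rfl
  exact_mod_cast h4

/-- the Atiyah property of a trivial group -/
private lemma lowA_trivial (k : Subring ℂ) (G : Type) [Group G] [Subsingleton G] :
    AtiyahOver k G := by
  intro m n A _
  rw [kerDim_eq]
  have c1 : CompleteSpace (Sol (Set.range (colF A))) := (Sol_closed _).completeSpace_coe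
  exact ⟨_, lowA_vdim _⟩

end Trivial

/-- the Atiyah property of an infinite cyclic group -/
private lemma lowA_cyclic (k : Subring ℂ) : AtiyahOver k (FreeGroup Unit) := by
  let e : FreeGroup Unit ≃* Multiplicative ℤ := FreeGroup.mulEquivIntOfUnique
  have hφ : ∀ a b : FreeGroup Unit, (Multiplicative.toAdd (e (a * b))) =
      Multiplicative.toAdd (e a) + Multiplicative.toAdd (e b) := by
    intro a b
    rw [map_mul, toAdd_mul]
  refine AtiyahOver.of_kerZ' (fun g => Multiplicative.toAdd (e g)) hφ ?_
  have hs : Subsingleton (kerZ (fun g => Multiplicative.toAdd (e g)) hφ) := by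
    refine ⟨fun x y => Subtype.ext (e.injective ?_)⟩
    have hx : Multiplicative.toAdd (e x.1) = 0 := x.2
    have hy : Multiplicative.toAdd (e y.1) = 0 := y.2
    exact Multiplicative.toAdd.injective (hx.trans hy.symm)
  exact lowA_trivial k _

/-- the Atiyah property of a free group -/
private lemma lowA_free (σ : Type) [Nonempty σ] : AtiyahOver ⊤ (FreeGroup σ) := by
  have h1 : AtiyahOver ⊤ (Monoid.CoprodI fun _ : σ => FreeGroup Unit) := by
    intro m n A _
    rw [kerDim_eq]
    have h2 := coprod_mem (fun _ : σ => FreeGroup Unit) (Int.castAddHom ℝ).range ⟨1, by simp⟩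
      (fun i m n M => by
        obtain ⟨z, hz⟩ := lowA_cyclic ⊤ m n M (fun _ _ _ => Subring.mem_top _)
        exact ⟨z, hz.symm⟩) (Set.range (colF A)) (Set.finite_range _)
    obtain ⟨z, hz⟩ := h2
    exact ⟨z, hz.symm⟩
  exact h1.of_injective freeGroupEquivCoprodI.toMonoidHom freeGroupEquivCoprodI.injective

/-- a nonzero combination of the free generators is injective on `ℓ²` of the free group -/
theorem free_inj {σ : Type} [Fintype σ] (c : σ → ℂ) (hc : c ≠ 0) (w : L2 Unit (FreeGroup σ))
    (hw : ∀ g : FreeGroup σ, ∑ i, c i * w ((), g * FreeGroup.of i) = 0) : w = 0 := by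
  obtain ⟨i0, hi0⟩ : ∃ i, c i ≠ 0 := by
    by_contra h
    push Not at h
    exact hc (funext h)
  have hne : Nonempty σ := ⟨i0⟩
  set a : Unit × FreeGroup σ →₀ ℂ := ∑ i, Finsupp.single ((), (FreeGroup.of i)⁻¹) (c i) with ha
  have hev : ∀ (x : Unit × FreeGroup σ → ℂ) (g : FreeGroup σ),
      ev a x g = ∑ i, c i * x ((), g * FreeGroup.of i) := by
    intro x g
    rw [ha, ev_finsetSum]
    refine Finset.sum_congr rfl fun i _ => ?_
    rw [ev_single, inv_inv]
  set K : Submodule ℂ (L2 Unit (FreeGroup σ)) := Sol {a} with hK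
  have hKi : Invar K := Sol_invar _
  have hKc : IsClosed (K : Set (L2 Unit (FreeGroup σ))) := Sol_closed _
  have c1 : CompleteSpace K := hKc.completeSpace_coe
  have hwK : w ∈ K := by
    rw [hK, mem_Sol]
    rintro b hb g
    rw [Set.mem_singleton_iff.1 hb, hev]
    exact hw g
  obtain ⟨z, hz⟩ := (lowA_free σ).forms {a} (Set.finite_singleton a)
    (fun _ _ _ => Subring.mem_top _)
  have h0 := vdim_nonneg K
  have h1 := vdim_le_card K
  rw [Fintype.card_unit, Nat.cast_one] at h1
  have hz' : vdim (K : Set (L2 Unit (FreeGroup σ))) = z := hz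
  rw [hz'] at h0 h1
  have hz0 : (0 : ℤ) ≤ z := by exact_mod_cast h0
  have hz1 : z ≤ 1 := by exact_mod_cast h1
  have hcases : z = 0 ∨ z = 1 := by omega
  rcases hcases with h | h
  · have hbot := eq_bot_of_vdim_eq_zero hKi hKc (by rw [hz', h, Int.cast_zero])
    rw [hbot] at hwK
    exact (Submodule.mem_bot ℂ).1 hwK
  · exfalso
    have h2 := vdim_orthogonal K
    rw [hz', h, Fintype.card_unit, Nat.cast_one, Int.cast_one, sub_self] at h2
    have h3 := eq_bot_of_vdim_eq_zero hKi.orthogonal (Submodule.isClosed_orthogonal K) h2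
    have h4 : K = ⊤ := (Submodule.orthogonal_eq_bot_iff).1 h3
    have h5 : (dl ((), FreeGroup.of i0) : L2 Unit (FreeGroup σ)) ∈ K := by
      rw [h4]
      exact Submodule.mem_top
    rw [hK, mem_Sol] at h5
    have h6 := h5 a (Set.mem_singleton a) 1
    rw [hev, Finset.sum_eq_single i0] at h6
    · rw [one_mul, dl_self, mul_one] at h6
      exact hi0 h6
    · intro j _ hj
      rw [one_mul, dl_apply, if_neg, mul_zero]
      intro he
      exact hj (FreeGroup.of_injective (Prod.mk.inj he).2)
    · intro hh
      exact absurd (Finset.mem_univ i0) hh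

end Pool.Agent.AON
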