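import Pool.Agent.AON.LowA

set_option autoImplicit false
set_option linter.unusedSectionVars false

noncomputable section

open scoped InnerProductSpace ENNReal Topology
open Classical Filter ContinuousLinearMap
open Pool.Agent.VN

/-!
The generic equation over the free group.
-/

namespace Pool.Agent.AON

/-- the generic equation over the free group, on the vectors with values in the range of a
projection of rank `d` -/
theorem free_generic {σ : Type} [Fintype σ] (π : (σ → ℂ) →ₗ[ℂ] (σ → ℂ)) (hπ : ∀ v, π (π v) = π v)
    (d : ℕ) (hd : ∑ l : σ, π (Pi.single l 1) l = (d : ℂ)) (h0 : π ≠ 0) :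
    vdim (Sol (insert (∑ i, Finsupp.single (i, FreeGroup.of i) 1)
      (Set.range (scalF (FreeGroup σ) π))) : Set (L2 σ (FreeGroup σ))) = d - 1 := by
  set E : Submodule ℂ (L2 σ (FreeGroup σ)) := Sol (Set.range (scalF (FreeGroup σ) π)) with hE
  have hEi : Invar E := Sol_invar _
  have hEc : IsClosed (E : Set (L2 σ (FreeGroup σ))) := Sol_closed _
  -- the dimension of `E`
  let P : L2 σ (FreeGroup σ) →L[ℂ] L2 σ (FreeGroup σ) :=
    mulR fun k => ∑ l : σ, Finsupp.single (l, (1 : FreeGroup σ)) (π (Pi.single l 1) k)
  have hP : ∀ (x : L2 σ (FreeGroup σ)) (g : FreeGroup σ), valAt g (P x) = π (valAt g x) := by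
    intro x g
    funext k
    rw [valAt_apply]
    show (mulR (fun k => ∑ l : σ, Finsupp.single (l, (1 : FreeGroup σ)) (π (Pi.single l 1) k)) x)
      (k, g) = _
    rw [mulR_apply, ev_finsetSum, lin_expand π (valAt g x), Finset.sum_apply]
    refine Finset.sum_congr rfl fun l _ => ?_
    rw [ev_single]
    simp only [inv_one, mul_one, Pi.smul_apply, smul_eq_mul, valAt_apply]
    ring
  have hEd : vdim (E : Set (L2 σ (FreeGroup σ))) = d := by
    have h1 : tr P = (vdim (E : Set (L2 σ (FreeGroup σ))) : ℝ) := by
      refine tr_idem hEi hEc (mulR_equivar _) (fun x => ?_) fun x hx => ?_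
      · rw [hE, mem_Sol_scalF]
        intro b
        rw [hP, hπ]
      · rw [hE, mem_Sol_scalF] at hx
        ext q
        have h2 := congrFun ((hP x q.2).trans (hx q.2)) q.1
        exact h2
    have h2 : tr P = d := by
      unfold tr
      rw [← hd]
      refine Finset.sum_congr rfl fun i _ => ?_
      rw [inner_dl_left]
      have h3 := congrFun (hP (dl (i, (1 : FreeGroup σ))) 1) i
      have h4 : valAt (1 : FreeGroup σ) (dl (i, (1 : FreeGroup σ)) : L2 σ (FreeGroup σ)) =
          Pi.single i (1 : ℂ) := by
        funext k
        rw [valAt_apply, dl_apply]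
        by_cases hk : k = i
        · subst hk
          simp
        · rw [if_neg fun h => hk (congrArg Prod.fst h), Pi.single_eq_of_ne hk]
      rw [h4] at h3
      exact h3
    rw [h1] at h2
    exact_mod_cast h2
  -- the generic equation
  let T : L2 σ (FreeGroup σ) →L[ℂ] L2 Unit (FreeGroup σ) :=
    mulR fun _ : Unit => ∑ i : σ, Finsupp.single (i, FreeGroup.of i) 1
  have hT : ∀ (i : σ) (g : FreeGroup σ), T (dl (i, g)) = dl ((), g * FreeGroup.of i) := by
    intro i g
    ext q
    show (mulR (fun _ : Unit => ∑ i : σ, Finsupp.single (i, FreeGroup.of i) 1) (dl (i, g))) q = _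
    rw [mulR_apply, ev_finsetSum, Finset.sum_eq_single i]
    · rw [ev_single, one_mul, dl_apply, dl_apply]
      congr 1
      rw [eq_iff_iff]
      constructor
      · intro h
        have h2 : q.2 * (FreeGroup.of i)⁻¹ = g := congrArg Prod.snd h
        refine Prod.ext (Subsingleton.elim _ _) ?_
        show q.2 = g * FreeGroup.of i
        rw [← h2, inv_mul_cancel_right]
      · intro h
        rw [h]
        simp
    · intro j _ hj
      rw [ev_single, one_mul, dl_apply, if_neg]
      intro h
      exact hj (congrArg Prod.fst h)
    · intro h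
      exact absurd (Finset.mem_univ i) h
  have h1 := vdim_map (mulR_equivar fun _ : Unit =>
    (∑ i : σ, Finsupp.single (i, FreeGroup.of i) 1 : σ × FreeGroup σ →₀ ℂ)) hEi hEc
  have h2 : E ⊓ LinearMap.ker (mulR fun _ : Unit =>
      (∑ i : σ, Finsupp.single (i, FreeGroup.of i) 1 : σ × FreeGroup σ →₀ ℂ)).toLinearMap =
      Sol (insert (∑ i, Finsupp.single (i, FreeGroup.of i) 1)
      (Set.range (scalF (FreeGroup σ) π))) := by
    rw [ker_mulR, hE, ← Sol_union, Set.range_const, Set.union_singleton]
  rw [h2, hEd] at h1
  -- the image is dense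
  have hbot : (E.map T.toLinearMap)ᗮ = ⊥ := by
    rw [Submodule.eq_bot_iff]
    intro w hw
    rw [Submodule.mem_orthogonal] at hw
    obtain ⟨v, hv⟩ : ∃ v, π v ≠ 0 := by
      by_contra hcon
      push Not at hcon
      exact h0 (LinearMap.ext hcon)
    refine free_inj (fun i => star (π v i)) (fun h => hv (funext fun i => ?_)) w fun g => ?_
    · have := congrFun h i
      exact star_eq_zero.mp this
    · have hval : ∀ b : FreeGroup σ, valAt b (∑ i, (π v i) • dl (i, g) : L2 σ (FreeGroup σ)) =
          if b = g then π v else 0 := by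
        intro b
        rw [map_sum]
        funext k
        rw [Finset.sum_apply, Finset.sum_eq_single k]
        · rw [map_smul, Pi.smul_apply, valAt_apply, dl_apply]
          by_cases hb : b = g
          · subst hb
            simp
          · rw [if_neg fun h => hb (congrArg Prod.snd h), if_neg hb]
            simp
        · intro j _ hj
          rw [map_smul, Pi.smul_apply, valAt_apply, dl_apply,
            if_neg fun h => hj (congrArg Prod.fst h).symm, smul_zero]
        · intro h
          exact absurd (Finset.mem_univ k) h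
      have hmem : (∑ i, (π v i) • dl (i, g) : L2 σ (FreeGroup σ)) ∈ E := by
        rw [hE, mem_Sol_scalF]
        intro b
        rw [hval]
        split_ifs
        · exact hπ v
        · exact map_zero π
      have h3 := hw _ ⟨_, hmem, rfl⟩
      have h4 : T.toLinearMap (∑ i, (π v i) • dl (i, g) : L2 σ (FreeGroup σ)) =
          ∑ i, (π v i) • dl ((), g * FreeGroup.of i) := by
        rw [map_sum]
        refine Finset.sum_congr rfl fun i _ => ?_
        rw [map_smul]
        exact congrArg (fun z => π v i • z) (hT i g)
      rw [h4, sum_inner] at h3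
      rw [← h3]
      refine Finset.sum_congr rfl fun i _ => ?_
      rw [inner_smul_left, inner_dl_left]
      rfl
  have h5 : vdim ((E.map T.toLinearMap : Submodule ℂ (L2 Unit (FreeGroup σ))) :
      Set (L2 Unit (FreeGroup σ))) = 1 := by
    have c3 : CompleteSpace (E.map T.toLinearMap).topologicalClosure :=
      (Submodule.isClosed_topologicalClosure _).completeSpace_coe
    have h6 := vdim_orthogonal (E.map T.toLinearMap).topologicalClosure
    rw [Submodule.orthogonal_closure, Submodule.topologicalClosure_coe, vdim_closure, hbot,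
      vdim_bot, Fintype.card_unit, Nat.cast_one] at h6
    linarith
  have h7 : vdim ((E.map T.toLinearMap : Submodule ℂ (L2 Unit (FreeGroup σ))) :
      Set (L2 Unit (FreeGroup σ))) + vdim (Sol (insert (∑ i, Finsupp.single (i, FreeGroup.of i) 1)
      (Set.range (scalF (FreeGroup σ) π))) : Set (L2 σ (FreeGroup σ))) = d := h1
  linarith

end Pool.Agent.AON
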