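import Mathlib

set_option autoImplicit false
set_option linter.unusedSectionVars false

noncomputable section

open scoped InnerProductSpace ENNReal Topology
open Classical Filter ContinuousLinearMap

/-!
Associativity of free products.
-/

namespace Pool.Agent.AON

/-- `(G * F_m) * F_n` embeds in `G * F_(m + n)` -/
theorem coprod_assoc (G : Type) [Group G] (m n : ℕ) :
    ∃ f : Monoid.Coprod (Monoid.Coprod G (FreeGroup (Fin m))) (FreeGroup (Fin n)) →*
      Monoid.Coprod G (FreeGroup (Fin (m + n))), Function.Injective f := by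
  let f : Monoid.Coprod (Monoid.Coprod G (FreeGroup (Fin m))) (FreeGroup (Fin n)) →*
      Monoid.Coprod G (FreeGroup (Fin (m + n))) :=
    Monoid.Coprod.lift
      (Monoid.Coprod.lift Monoid.Coprod.inl
        (FreeGroup.lift fun i => Monoid.Coprod.inr (FreeGroup.of (Fin.castAdd n i))))
      (FreeGroup.lift fun j => Monoid.Coprod.inr (FreeGroup.of (Fin.natAdd m j)))
  let g : Monoid.Coprod G (FreeGroup (Fin (m + n))) →*
      Monoid.Coprod (Monoid.Coprod G (FreeGroup (Fin m))) (FreeGroup (Fin n)) :=
    Monoid.Coprod.lift (Monoid.Coprod.inl.comp Monoid.Coprod.inl)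
      (FreeGroup.lift (Fin.addCases
        (fun i => Monoid.Coprod.inl (Monoid.Coprod.inr (FreeGroup.of i)))
        (fun j => Monoid.Coprod.inr (FreeGroup.of j))))
  have h : g.comp f = MonoidHom.id _ := by
    apply Monoid.Coprod.hom_ext
    · apply Monoid.Coprod.hom_ext
      · ext x
        simp [f, g]
      · apply FreeGroup.ext_hom
        intro i
        simp [f, g]
    · apply FreeGroup.ext_hom
      intro j
      simp [f, g]
  refine ⟨f, fun x y hxy => ?_⟩
  have hx := DFunLike.congr_fun h x
  have hy := DFunLike.congr_fun h y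
  simp only [MonoidHom.comp_apply, MonoidHom.id_apply] at hx hy
  rw [← hx, ← hy, hxy]

end Pool.Agent.AON
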