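import Pool.Agent.AON.LowB

set_option autoImplicit false
set_option linter.unusedSectionVars false

noncomputable section

open scoped InnerProductSpace ENNReal Topology
open Classical Filter ContinuousLinearMap
open Pool.Agent.VN

/-!
Lowering a dimension by one.
-/

namespace Pool.Agent.AON

/-- the two factors -/
def AA (G F : Type) : Bool → Type
  | true => G
  | false => F

instance instAA (G F : Type) [Group G] [Group F] : ∀ b, Group (AA G F b)
  | true => (inferInstance : Group G)
  | false => (inferInstance : Group F)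

/-- the systems in the two factors -/
def CC {G F σ : Type} (C : Set (σ × G →₀ ℂ)) (D : Set (σ × F →₀ ℂ)) :
    ∀ b, Set (σ × AA G F b →₀ ℂ)
  | true => C
  | false => D

lemma map_symm_map {σ τ : Type} (e : σ ≃ τ) (a : FreeGroup σ) :
    FreeGroup.map e.symm (FreeGroup.map e a) = a := by
  rw [FreeGroup.map.comp, Equiv.symm_comp_self, FreeGroup.map.id]

lemma coprodI_emb (G : Type) [Group G] (σ : Type) (m : ℕ) (e : σ ≃ Fin m) :
    ∃ f : Monoid.CoprodI (AA G (FreeGroup σ)) →* Monoid.Coprod G (FreeGroup (Fin m)),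
      Function.Injective f := by
  let F : ∀ b, AA G (FreeGroup σ) b →* Monoid.Coprod G (FreeGroup (Fin m)) := fun b =>
    match b with
    | true => (Monoid.Coprod.inl : G →* Monoid.Coprod G (FreeGroup (Fin m)))
    | false => (Monoid.Coprod.inr : FreeGroup (Fin m) →* Monoid.Coprod G (FreeGroup (Fin m))).comp
        (FreeGroup.map e)
  let f : Monoid.CoprodI (AA G (FreeGroup σ)) →* Monoid.Coprod G (FreeGroup (Fin m)) :=
    Monoid.CoprodI.lift F
  let r : Monoid.Coprod G (FreeGroup (Fin m)) →* Monoid.CoprodI (AA G (FreeGroup σ)) :=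
    Monoid.Coprod.lift
      (Monoid.CoprodI.of (M := AA G (FreeGroup σ)) (i := true))
      ((Monoid.CoprodI.of (M := AA G (FreeGroup σ)) (i := false)).comp (FreeGroup.map e.symm))
  have h : r.comp f = MonoidHom.id _ := by
    apply Monoid.CoprodI.ext_hom
    intro b
    cases b with
    | true =>
      ext a
      show r (f (Monoid.CoprodI.of (M := AA G (FreeGroup σ)) a))
        = Monoid.CoprodI.of (M := AA G (FreeGroup σ)) a
      have h1 : f (Monoid.CoprodI.of (M := AA G (FreeGroup σ)) a) = F true a :=
        Monoid.CoprodI.lift_of _ _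
      rw [h1]
      exact Monoid.Coprod.lift_apply_inl _ _ _
    | false =>
      ext a
      show r (f (Monoid.CoprodI.of (M := AA G (FreeGroup σ)) a))
        = Monoid.CoprodI.of (M := AA G (FreeGroup σ)) a
      have h1 : f (Monoid.CoprodI.of (M := AA G (FreeGroup σ)) a) = F false a :=
        Monoid.CoprodI.lift_of _ _
      rw [h1]
      have h2 : r (F false a) = Monoid.CoprodI.of (M := AA G (FreeGroup σ)) (i := false)
          (FreeGroup.map e.symm (FreeGroup.map e a)) :=
        Monoid.Coprod.lift_apply_inr _ _ _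
      rw [h2]
      exact congrArg (Monoid.CoprodI.of (M := AA G (FreeGroup σ)) (i := false)) (map_symm_map e a)
  refine ⟨f, fun x y hxy => ?_⟩
  have h1 := DFunLike.congr_fun h x
  have h2 := DFunLike.congr_fun h y
  simp only [MonoidHom.comp_apply, MonoidHom.id_apply] at h1 h2
  rw [← h1, ← h2, hxy]

theorem lower {k : Subring ℂ} {G : Type} [Group G] {x : ℝ} (hx : x ∈ Dset k G) (h1 : 1 ≤ x) :
    ∃ m : ℕ, x - 1 ∈ Dset k (Monoid.Coprod G (FreeGroup (Fin m))) := by
  obtain ⟨σ, hσ, C, hC, hk, hxC⟩ := hx
  set β : σ × FreeGroup σ →₀ ℂ := ∑ i, Finsupp.single (i, FreeGroup.of i) 1 with hβ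
  have hβk : CoefIn k β := coefIn_sum _ _ _ fun i _ => coefIn_single _ _ _ k.one_mem
  set A := AA G (FreeGroup σ) with hA
  set D : ∀ b, Set (σ × A b →₀ ℂ) := CC C {β} with hD
  have hSecs := secs_coprodI A
  set f : ∀ b, A b →* Monoid.CoprodI A := fun b => Monoid.CoprodI.of with hf
  have hfi : ∀ b, Function.Injective (f b) := fun b => Monoid.CoprodI.of_injective b
  set U : Set (σ × Monoid.CoprodI A →₀ ℂ) := ⋃ b, mapF (f b) '' D b with hU
  have hUeq : U = mapF (f false) '' D false ∪ mapF (f true) '' D true := by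
    rw [hU, Set.union_eq_iUnion]
    ext a
    simp only [Set.mem_iUnion, Bool.exists_bool]
    tauto
  obtain ⟨d, π, hπ, hd, hform⟩ := hSecs.formula' (ι := σ) D
  rw [Fintype.sum_bool, Fintype.card_bool] at hform
  -- the dimension over `CoprodI A`
  have hlow : x - 1 ≤ vdim (Sol U : Set (L2 σ (Monoid.CoprodI A))) := by
    have h2 := vdim_inter (Sol_invar (mapF (f false) '' D false)) (Sol_closed _)
      (Sol_invar (mapF (f true) '' D true)) (Sol_closed _)
    rw [← Sol_union, ← hUeq, vdim_induced (f false) (hfi false), vdim_induced (f true) (hfi true)]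
      at h2
    have h3 : vdim (Sol (D true) : Set (L2 σ (A true))) = x := hxC
    have h4' : (Fintype.card σ : ℝ) - 1
        ≤ vdim (Sol ({β} : Set (σ × FreeGroup σ →₀ ℂ)) : Set (L2 σ (FreeGroup σ))) := by
      have h5 := vdim_map (mulR_equivar fun _ : Unit => β)
        (K := (⊤ : Submodule ℂ (L2 σ (FreeGroup σ)))) (fun _ _ _ => trivial) isClosed_univ
      rw [top_inf_eq, ker_mulR, vdim_top] at h5
      have h6 := vdim_le_card ((⊤ : Submodule ℂ (L2 σ (FreeGroup σ))).map
        (mulR fun _ : Unit => β).toLinearMap)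
      rw [Fintype.card_unit, Nat.cast_one] at h6
      have h7 : (Set.range fun _ : Unit => β) = {β} := by
        ext a
        simp
      rw [h7] at h5
      linarith
    have h4 : (Fintype.card σ : ℝ) - 1 ≤ vdim (Sol (D false) : Set (L2 σ (A false))) := h4'
    rw [h3] at h2
    linarith
  have hup : vdim (Sol U : Set (L2 σ (Monoid.CoprodI A))) ≤ x - 1 := by
    by_cases h0 : π = 0
    · have hd0 : (d : ℂ) = 0 := by
        rw [← hd, h0]
        simp
      have hd0' : d = 0 := by exact_mod_cast hd0
      have hz : ∀ b, vdim (Sol (D b ∪ Set.range (scalF (A b) π)) : Set (L2 σ (A b))) = 0 := by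
        intro b
        have : Sol (D b ∪ Set.range (scalF (A b) π)) = ⊥ := by
          rw [Submodule.eq_bot_iff]
          intro z hz
          have hz2 : z ∈ Sol (Set.range (scalF (A b) π)) := fun a ha g => hz a (Or.inr ha) g
          rw [mem_Sol_scalF, h0] at hz2
          ext p
          have h3 := congrFun (hz2 p.2) p.1
          exact h3.symm
        rw [this, vdim_bot]
      rw [hz, hz, hd0'] at hform
      push_cast at hform
      have h3 : vdim (Sol U : Set (L2 σ (Monoid.CoprodI A))) = 0 := by
        rw [hU]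
        linarith
      rw [h3]
      linarith
    · have hgen := free_generic π hπ d hd h0
      have h3 : vdim (Sol (D false ∪ Set.range (scalF (A false) π)) : Set (L2 σ (A false)))
          = d - 1 := by
        rw [← hgen, Set.insert_eq]
        rfl
      have h4 : vdim (Sol (D true ∪ Set.range (scalF (A true) π)) : Set (L2 σ (A true))) ≤ x := by
        rw [← hxC]
        exact vdim_mono (K := Sol (D true ∪ Set.range (scalF (A true) π))) (L := Sol (D true))
          fun z hz a ha g => hz a (Or.inl ha) g
      rw [h3] at hform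
      push_cast at hform
      have h5 : vdim (Sol U : Set (L2 σ (Monoid.CoprodI A)))
          = vdim (Sol (⋃ i, mapF (f i) '' D i) : Set (L2 σ (Monoid.CoprodI A))) := rfl
      rw [h5]
      linarith
  have hval : vdim (Sol U : Set (L2 σ (Monoid.CoprodI A))) = x - 1 := le_antisymm hup hlow
  obtain ⟨g, hg⟩ := coprodI_emb G σ (Fintype.card σ) (Fintype.equivFin σ)
  refine ⟨Fintype.card σ, Dset_map k g hg ⟨σ, hσ, U, ?_, ?_, hval⟩⟩
  · rw [hUeq]
    exact ((Set.finite_singleton β).image _).union (hC.image _)
  · rw [hUeq]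
    rintro _ (⟨a, ha, rfl⟩ | ⟨a, ha, rfl⟩)
    · have ha' : a = β := ha
      rw [ha']
      exact coefIn_mapF _ hβk
    · exact coefIn_mapF _ (hk a ha)

end Pool.Agent.AON
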