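import Pool.Agent.AON.LowC
import Pool.Agent.AON.LowD

set_option autoImplicit false
set_option linter.unusedSectionVars false

noncomputable section

open scoped InnerProductSpace ENNReal Topology
open Classical Filter ContinuousLinearMap
open Pool.Agent.VN

/-!
Lowering a dimension by an integer.
-/

namespace Pool.Agent.AON

theorem lower_many {k : Subring ℂ} {G : Type} [Group G] (N : ℕ) {x : ℝ} (hx : 0 ≤ x)
    (h : x + N ∈ Dset k G) : ∃ m : ℕ, x ∈ Dset k (Monoid.Coprod G (FreeGroup (Fin m))) := by
  induction N generalizing x with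
  | zero =>
    refine ⟨0, Dset_map k (Monoid.Coprod.inl) Monoid.Coprod.inl_injective ?_⟩
    simpa using h
  | succ N ih =>
    obtain ⟨m, hm⟩ := ih (x := x + 1) (by linarith) (by
      have e : x + 1 + N = x + ((N + 1 : ℕ) : ℝ) := by push_cast; ring
      rw [e]; exact h)
    obtain ⟨n, hn⟩ := lower hm (by linarith)
    obtain ⟨f, hf⟩ := coprod_assoc G m n
    refine ⟨m + n, Dset_map k f hf ?_⟩
    simpa using hn

end Pool.Agent.AON
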