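import Pool.Agent.AON.Real

set_option autoImplicit false
set_option linter.unusedSectionVars false

noncomputable section

open scoped InnerProductSpace ENNReal Topology
open Classical Filter ContinuousLinearMap
open Pool.Agent.VN

/-!
The orthogonal complement of a rational subspace is rational.
-/

namespace Pool.Agent.AON

theorem ratD_perp {k : Subring ℂ} (hk : ∀ z ∈ k, star z ∈ k) {G : Type} [Group G] {σ : Type}
    [Fintype σ] {C : Set (σ × G →₀ ℂ)} (hC : C.Finite) (hCk : ∀ a ∈ C, CoefIn k a) (i : σ)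
    (J : Submodule ℂ (L2 Unit G))
    (hJ : (J : Set (L2 Unit G)) = closure (((Sol C).map (coordMap i).toLinearMap :
      Submodule ℂ (L2 Unit G)) : Set (L2 Unit G))) :
    ∃ c, RatD k Jᗮ c := by
  let κ : Type := hC.toFinset
  let A : κ → (σ × G →₀ ℂ) := fun j => j.1
  have hA : Set.range A = C := by
    ext a
    constructor
    · rintro ⟨j, rfl⟩
      exact hC.mem_toFinset.mp j.2
    · intro ha
      exact ⟨⟨a, hC.mem_toFinset.mpr ha⟩, rfl⟩
  have hAk : ∀ j : σ, CoefIn k (starF A j) := by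
    intro j
    unfold starF
    exact coefIn_sum _ _ _ fun j' _ => coefIn_sum _ _ _ fun p _ => coefIn_single _ _ _
      (hk _ (hCk _ (hA ▸ ⟨j', rfl⟩) p))
  let S : L2 κ G →L[ℂ] L2 σ G := mulR (starF A)
  let B : {j : σ // j ≠ i} → (κ × G →₀ ℂ) := fun j => starF A j.1
  let Q : L2 σ G →L[ℂ] L2 {j : σ // j ≠ i} G := mulR fun j => eqn j.1
  have hQ : ∀ (x : L2 σ G) (q : {j : σ // j ≠ i} × G), (Q x) q = x (q.1.1, q.2) := by
    intro x q
    show (mulR (fun j : {j : σ // j ≠ i} => eqn (G := G) j.1) x) q = _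
    rw [mulR_apply]
    unfold eqn
    rw [ev_single]
    simp
  have hQS : ∀ w : L2 κ G, Q (S w) = mulR B w := by
    intro w
    ext q
    rw [hQ]
    exact (mulR_apply (starF A) w (q.1.1, q.2)).trans (mulR_apply B w q).symm
  have hcS : ∀ w : L2 κ G, coordMap i (S w) = mulR (fun _ : Unit => starF A i) w := by
    intro w
    ext q
    rw [coordMap_apply]
    exact (mulR_apply (starF A) w (i, q.2)).trans (mulR_apply (fun _ : Unit => starF A i) w q).symm
  have hins : insert (starF A i) (Set.range B) = Set.range (starF A) := by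
    ext a
    constructor
    · rintro (rfl | ⟨j, rfl⟩)
      · exact ⟨i, rfl⟩
      · exact ⟨j.1, rfl⟩
    · rintro ⟨j, rfl⟩
      by_cases hj : j = i
      · left
        rw [hj]
      · right
        exact ⟨⟨j, hj⟩, rfl⟩
  have hker : LinearMap.ker S.toLinearMap = Sol (insert (starF A i) (Set.range B)) := by
    rw [hins]
    exact ker_mulR (starF A)
  -- the orthogonal complement
  let Jm : Submodule ℂ (L2 Unit G) := (Sol C).map (coordMap i).toLinearMap
  have hJm : J = Jm.topologicalClosure := SetLike.coe_injective hJ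
  have hJo : Jᗮ = Jmᗮ := by
    rw [hJm, Submodule.orthogonal_closure]
  have hJi : Invar Jᗮ := by
    rw [hJo]
    exact ((Sol_invar C).map (coordMap_equivar i)).orthogonal
  have hJc : IsClosed ((Jᗮ : Submodule ℂ (L2 Unit G)) : Set (L2 Unit G)) :=
    Submodule.isClosed_orthogonal _
  have hadj : ∀ (w : L2 κ G) (u : L2 σ G), ⟪S w, u⟫_ℂ = ⟪w, mulR A u⟫_ℂ := by
    intro w u
    have h1 : S = adjoint (mulR A) := (adjoint_mulR A).symm
    rw [h1, adjoint_inner_left]
  have hAu : ∀ u ∈ Sol C, mulR A u = 0 := by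
    intro u hu
    have h1 : u ∈ LinearMap.ker (mulR A).toLinearMap := by
      rw [ker_mulR, hA]
      exact hu
    exact h1
  let R : Submodule ℂ (L2 σ G) := (Sol C)ᗮ
  have hSR : (⊤ : Submodule ℂ (L2 κ G)).map S.toLinearMap ≤ R := by
    rintro _ ⟨w, -, rfl⟩
    rw [Submodule.mem_orthogonal']
    intro u hu
    show ⟪S w, u⟫_ℂ = 0
    rw [hadj, hAu u hu, inner_zero_right]
  have hle : (Sol (Set.range B)).map (mulR fun _ : Unit => starF A i).toLinearMap ≤ Jᗮ := by
    rintro _ ⟨w, hw, rfl⟩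
    rw [hJo, Submodule.mem_orthogonal']
    rintro _ ⟨u, hu, rfl⟩
    show ⟪mulR (fun _ : Unit => starF A i) w, coordMap i u⟫_ℂ = 0
    have h1 : inc i (coordMap i (S w)) = S w := by
      ext q
      rw [inc_apply, coordMap_apply]
      split_ifs with h2
      · rw [← h2]
      · have h3 : w ∈ LinearMap.ker (mulR B).toLinearMap := by
          rw [ker_mulR]
          exact hw
        have h4 : mulR B w = 0 := h3
        rw [← hQS] at h4
        have h5 := hQ (S w) (⟨q.1, h2⟩, q.2)
        rw [h4] at h5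
        exact h5
    rw [← hcS, ← adjoint_inc, adjoint_inner_right, adjoint_inc, h1, hadj, hAu u hu,
      inner_zero_right]
  -- dimensions
  have c1 : CompleteSpace (Sol C) := (Sol_closed C).completeSpace_coe
  have hRdim : vdim (R : Set (L2 σ G)) = Fintype.card κ -
      vdim (LinearMap.ker S.toLinearMap : Set (L2 κ G)) := by
    have h1 := vdim_orthogonal (Sol C)
    have h2 := vdim_star A
    rw [hA, ← ker_mulR (starF A)] at h2
    rw [h1]
    exact h2
  have hRi : Invar R := (Sol_invar C).orthogonal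
  have hRc : IsClosed (R : Set (L2 σ G)) := Submodule.isClosed_orthogonal _
  have d1 := vdim_map (mulR_equivar B) (K := ⊤) (fun _ _ _ => trivial) isClosed_univ
  rw [vdim_top, top_inf_eq, ker_mulR] at d1
  have d2 := vdim_map (mulR_equivar fun j : {j : σ // j ≠ i} => eqn (G := G) j.1) hRi hRc
  have d3 : vdim (((⊤ : Submodule ℂ (L2 κ G)).map (mulR B).toLinearMap :
      Submodule ℂ (L2 {j : σ // j ≠ i} G)) : Set (L2 {j : σ // j ≠ i} G)) ≤
      vdim ((R.map Q.toLinearMap : Submodule ℂ (L2 {j : σ // j ≠ i} G)) :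
        Set (L2 {j : σ // j ≠ i} G)) := by
    apply vdim_mono
    rintro _ ⟨w, -, rfl⟩
    refine ⟨S w, hSR ⟨w, trivial, rfl⟩, ?_⟩
    exact hQS w
  have d4 := vdim_map (inc_equivar i) hJi hJc
  have d5 : vdim (((Jᗮ : Submodule ℂ (L2 Unit G)) ⊓ LinearMap.ker (inc (G := G) i).toLinearMap :
      Submodule ℂ (L2 Unit G)) : Set (L2 Unit G)) = 0 := by
    have h1 : ((Jᗮ : Submodule ℂ (L2 Unit G)) ⊓ LinearMap.ker (inc (G := G) i).toLinearMap :
      Submodule ℂ (L2 Unit G)) = ⊥ := by
      rw [Submodule.eq_bot_iff]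
      rintro y ⟨-, hy⟩
      have h2 : inc i y = 0 := hy
      rw [← coordMap_inc_self i y, h2, map_zero]
    rw [h1, vdim_bot]
  have d6 : vdim (((Jᗮ : Submodule ℂ (L2 Unit G)).map (inc (G := G) i).toLinearMap :
      Submodule ℂ (L2 σ G)) : Set (L2 σ G)) ≤
      vdim ((R ⊓ LinearMap.ker Q.toLinearMap : Submodule ℂ (L2 σ G)) : Set (L2 σ G)) := by
    apply vdim_mono
    rintro _ ⟨y, hy, rfl⟩
    constructor
    · show inc i y ∈ (Sol C)ᗮ
      rw [Submodule.mem_orthogonal']
      intro u hu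
      rw [← adjoint_inner_right, adjoint_inc]
      have hy' : y ∈ Jmᗮ := hJo ▸ hy
      rw [Submodule.mem_orthogonal'] at hy'
      exact hy' _ ⟨u, hu, rfl⟩
    · show Q (inc i y) = 0
      ext q
      rw [hQ, inc_apply, if_neg q.1.2]
      rfl
  have d7 := vdim_map (mulR_equivar fun _ : Unit => starF A i) (Sol_invar (Set.range B))
    (Sol_closed (Set.range B))
  have d8 : Sol (Set.range B) ⊓ LinearMap.ker (mulR fun _ : Unit => starF A i).toLinearMap =
      LinearMap.ker S.toLinearMap := by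
    rw [ker_mulR, ← Sol_union, hker]
    congr 1
    rw [Set.range_const, Set.union_singleton]
  rw [d8] at d7
  refine ⟨vdim (Sol (insert (starF A i) (Set.range B)) : Set (L2 κ G)), κ, inferInstance,
    Set.range B, starF A i, Set.finite_range B, ?_, hAk i, ?_, rfl⟩
  · rintro _ ⟨j, rfl⟩
    exact hAk _
  · refine closure_eq_of_vdim ((Sol_invar _).map (mulR_equivar _)) hJi hJc hle ?_
    have d2' : vdim ((R.map Q.toLinearMap : Submodule ℂ (L2 {j : σ // j ≠ i} G)) :
        Set (L2 {j : σ // j ≠ i} G)) + vdim ((R ⊓ LinearMap.ker Q.toLinearMap :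
        Submodule ℂ (L2 σ G)) : Set (L2 σ G)) = vdim (R : Set (L2 σ G)) := d2
    linarith

end Pool.Agent.AON
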