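import Pool.Agent.AON.Fib

set_option autoImplicit false
set_option linter.unusedSectionVars false

noncomputable section

open scoped InnerProductSpace ENNReal Topology
open Classical Filter ContinuousLinearMap
open Pool.Agent.VN

/-!
Replacing conditions of the form : a linear form takes values in a rational subspace, by a finite
system.
-/

namespace Pool.Agent.AON

/-- `D` is the closure of the set of values of a linear form `β` on the solutions of a finite
system `C` over `kG`, and `c` is the dimension of the space of the solutions on which `β`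
vanishes. -/
def RatD (k : Subring ℂ) {G : Type} [Group G] (D : Submodule ℂ (L2 Unit G)) (c : ℝ) : Prop :=
  ∃ (σ : Type) (_ : Fintype σ) (C : Set (σ × G →₀ ℂ)) (β : σ × G →₀ ℂ), C.Finite ∧
    (∀ a ∈ C, CoefIn k a) ∧ CoefIn k β ∧
    (D : Set (L2 Unit G)) = closure (((Sol C).map (mulR fun _ : Unit => β).toLinearMap :
      Submodule ℂ (L2 Unit G)) : Set (L2 Unit G)) ∧
    vdim (Sol (insert β C) : Set (L2 σ G)) = c

theorem RatD.closed {k : Subring ℂ} {G : Type} [Group G] {D : Submodule ℂ (L2 Unit G)} {c : ℝ}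
    (h : RatD k D c) : IsClosed (D : Set (L2 Unit G)) := by
  obtain ⟨σ, _, C, β, _, _, _, hD, _⟩ := h
  rw [hD]
  exact isClosed_closure

theorem RatD.invar {k : Subring ℂ} {G : Type} [Group G] {D : Submodule ℂ (L2 Unit G)} {c : ℝ}
    (h : RatD k D c) : Invar D := by
  obtain ⟨σ, _, C, β, _, _, _, hD, _⟩ := h
  have h2 : D = ((Sol C).map (mulR fun _ : Unit => β).toLinearMap).topologicalClosure :=
    SetLike.coe_injective hD
  rw [h2]
  exact ((Sol_invar C).map (mulR_equivar _)).closure

theorem RatD.nonneg {k : Subring ℂ} {G : Type} [Group G] {D : Submodule ℂ (L2 Unit G)} {c : ℝ}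
    (h : RatD k D c) : 0 ≤ c := by
  obtain ⟨σ, _, C, β, _, _, _, _, hc⟩ := h
  rw [← hc]
  exact vdim_nonneg _

/-- moving the index set of a linear form -/
private def reF {α β G : Type} (j : α → β) (a : α × G →₀ ℂ) : β × G →₀ ℂ :=
  a.sum fun p c => Finsupp.single (j p.1, p.2) c

private lemma ev_reF {α β G : Type} [Group G] (j : α → β) (a : α × G →₀ ℂ) (x : β × G → ℂ)
    (g : G) : ev (reF j a) x g = ev a (fun p => x (j p.1, p.2)) g := by
  unfold reF Finsupp.sum
  rw [ev_finsetSum]
  simp only [ev_single]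
  rfl

private lemma coefIn_reF {α β G : Type} {k : Subring ℂ} (j : α → β) {a : α × G →₀ ℂ}
    (ha : CoefIn k a) : CoefIn k (reF j a) :=
  coefIn_sum _ _ _ fun p _ => coefIn_single _ _ _ (ha p)

private lemma coefIn_sub' {α : Type} {k : Subring ℂ} {a b : α →₀ ℂ} (ha : CoefIn k a)
    (hb : CoefIn k b) : CoefIn k (a - b) := fun p => by
  rw [Finsupp.sub_apply]
  exact k.sub_mem (ha p) (hb p)

private lemma ev_sub' {α G : Type} [Group G] (a b : α × G →₀ ℂ) (x : α × G → ℂ) (g : G) :
    ev (a - b) x g = ev a x g - ev b x g := by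
  have h : ev a x g = ev (a - b + b) x g := by rw [sub_add_cancel]
  rw [h, ev_add]
  ring

/-- the restriction to a part of the indices -/
private def sel {ι τ G : Type} [Group G] (j : ι → τ) (hj : Function.Injective j) :
    L2 τ G →L[ℂ] L2 ι G :=
  pull (fun p : ι × G => ((j p.1, p.2) : τ × G)) (by
    rintro ⟨a, b⟩ ⟨c, d⟩ h
    simp only [Prod.mk.injEq] at h
    exact Prod.ext (hj h.1) h.2)

private lemma sel_apply {ι τ G : Type} [Group G] (j : ι → τ) (hj : Function.Injective j)
    (z : L2 τ G) (p : ι × G) : sel j hj z p = z (j p.1, p.2) := rfl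

private lemma sel_equivar {ι τ G : Type} [Group G] (j : ι → τ) (hj : Function.Injective j) :
    Equivar (sel (G := G) j hj) := fun _ _ => rfl

private lemma invar_comap {ι κ G : Type} [Group G] {T : L2 ι G →L[ℂ] L2 κ G} (hT : Equivar T)
    {L : Submodule ℂ (L2 κ G)} (hL : Invar L) : Invar (L.comap T.toLinearMap) := by
  intro s x hx
  show T (lt s x) ∈ L
  rw [hT s x]
  exact hL s _ hx

private lemma closed_comap {ι κ G : Type} [Group G] (T : L2 ι G →L[ℂ] L2 κ G)
    {L : Submodule ℂ (L2 κ G)} (hL : IsClosed (L : Set (L2 κ G))) :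
    IsClosed ((L.comap T.toLinearMap : Submodule ℂ (L2 ι G)) : Set (L2 ι G)) :=
  hL.preimage T.continuous

/-- `K` is described by a finite system with auxiliary unknowns, up to the constant `c` -/
private def RealK (k : Subring ℂ) {G ι : Type} [Group G] [Fintype ι]
    (K : Submodule ℂ (L2 ι G)) (c : ℝ) : Prop :=
  ∃ (τ : Type) (_ : Fintype τ) (j : ι → τ) (hj : Function.Injective j)
    (C : Set (τ × G →₀ ℂ)), C.Finite ∧ (∀ a ∈ C, CoefIn k a) ∧
    ∀ L : Submodule ℂ (L2 ι G), Invar L → IsClosed (L : Set (L2 ι G)) →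
      vdim ((Sol C ⊓ L.comap (sel j hj).toLinearMap : Submodule ℂ (L2 τ G)) : Set (L2 τ G)) =
        vdim ((K ⊓ L : Submodule ℂ (L2 ι G)) : Set (L2 ι G)) + c

private lemma realK_top (k : Subring ℂ) {G ι : Type} [Group G] [Fintype ι] :
    RealK k (⊤ : Submodule ℂ (L2 ι G)) 0 := by
  refine ⟨ι, inferInstance, id, Function.injective_id, ∅, Set.finite_empty, by simp,
    fun L _ _ => ?_⟩
  have h : (Sol (∅ : Set (ι × G →₀ ℂ)) ⊓
      L.comap (sel (G := G) (id : ι → ι) Function.injective_id).toLinearMap) = ⊤ ⊓ L := by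
    ext x
    constructor
    · rintro ⟨-, h⟩
      exact ⟨trivial, h⟩
    · rintro ⟨-, h⟩
      exact ⟨fun a ha => absurd ha (Set.notMem_empty a), h⟩
  rw [h, add_zero]

private lemma realK_step {k : Subring ℂ} {G ι : Type} [Group G] [Fintype ι]
    {K : Submodule ℂ (L2 ι G)} {c : ℝ} (h : RealK k K c) {α : ι × G →₀ ℂ} (hα : CoefIn k α)
    {D : Submodule ℂ (L2 Unit G)} {c' : ℝ} (hD : RatD k D c') :
    RealK k (K ⊓ D.comap (mulR fun _ : Unit => α).toLinearMap) (c + c') := by
  have hDc := hD.closed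
  have hDi := hD.invar
  obtain ⟨τ, _, j, hj, C, hC, hCk, hL⟩ := h
  obtain ⟨σ, _, C', β, hC', hCk', hβ, hDe, hc'⟩ := hD
  have hinl : Function.Injective (Sum.inl : τ → τ ⊕ σ) := Sum.inl_injective
  refine ⟨τ ⊕ σ, inferInstance, Sum.inl ∘ j, hinl.comp hj,
    (reF Sum.inl '' C ∪ reF Sum.inr '' C') ∪ {reF (Sum.inl ∘ j) α - reF Sum.inr β},
    ((hC.image _).union (hC'.image _)).union (Set.finite_singleton _), ?_, ?_⟩
  · rintro a ((⟨b, hb, rfl⟩ | ⟨b, hb, rfl⟩) | rfl)
    · exact coefIn_reF _ (hCk b hb)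
    · exact coefIn_reF _ (hCk' b hb)
    · exact coefIn_sub' (coefIn_reF _ hα) (coefIn_reF _ hβ)
  · intro L hLi hLc
    have e1 : ∀ (a : τ × G →₀ ℂ) (z : L2 (τ ⊕ σ) G) (g : G),
        ev (reF (Sum.inl : τ → τ ⊕ σ) a) z g = ev a (leftM τ σ G z) g := fun a z g =>
      ev_reF _ a z g
    have e2 : ∀ (a : σ × G →₀ ℂ) (z : L2 (τ ⊕ σ) G) (g : G),
        ev (reF (Sum.inr : σ → τ ⊕ σ) a) z g = ev a (rightM τ σ G z) g := fun a z g =>
      ev_reF _ a z g
    have e3 : ∀ (z : L2 (τ ⊕ σ) G) (g : G),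
        ev (reF (Sum.inl ∘ j) α) z g = ev (reF j α) (leftM τ σ G z) g := fun z g => by
      rw [ev_reF, ev_reF]
      rfl
    have hT : ∀ w : L2 τ G, mulR (fun _ : Unit => reF j α) w =
        mulR (fun _ : Unit => α) (sel j hj w) := fun w => by
      ext q
      rw [mulR_apply, mulR_apply, ev_reF]
      rfl
    have hfib := vdim_fib (E1 := Sol C ⊓ L.comap (sel j hj).toLinearMap) (E2 := Sol C')
      (T1 := mulR fun _ : Unit => reF j α) (T2 := mulR fun _ : Unit => β)
      ((Sol_invar C).inf (invar_comap (sel_equivar j hj) hLi))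
      ((Sol_closed C).inter (closed_comap _ hLc)) (Sol_invar C') (Sol_closed C')
      (mulR_equivar _) (mulR_equivar _) D hDe
      (Sol ((reF Sum.inl '' C ∪ reF Sum.inr '' C') ∪ {reF (Sum.inl ∘ j) α - reF Sum.inr β}) ⊓
        L.comap (sel (Sum.inl ∘ j) (hinl.comp hj)).toLinearMap) (fun z => by
        constructor
        · rintro ⟨h1, h2⟩
          refine ⟨⟨fun a ha g => ?_, h2⟩, fun a ha g => ?_, ?_⟩
          · rw [← e1]
            exact h1 _ (Or.inl (Or.inl ⟨a, ha, rfl⟩)) g
          · rw [← e2]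
            exact h1 _ (Or.inl (Or.inr ⟨a, ha, rfl⟩)) g
          · ext q
            rw [mulR_apply, mulR_apply]
            have h3 := h1 _ (Or.inr rfl) q.2
            rw [ev_sub', e3, e2, sub_eq_zero] at h3
            exact h3
        · rintro ⟨⟨h1, h2⟩, h3, h4⟩
          refine ⟨?_, h2⟩
          rintro a ((⟨b, hb, rfl⟩ | ⟨b, hb, rfl⟩) | rfl) g
          · rw [e1]
            exact h1 b hb g
          · rw [e2]
            exact h3 b hb g
          · rw [ev_sub', e3, e2, sub_eq_zero]
            have h5 := congrArg (fun y : L2 Unit G => y ((), g)) h4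
            simp only [mulR_apply] at h5
            exact h5)
    rw [hfib]
    have f1 : (Sol C' ⊓ LinearMap.ker (mulR fun _ : Unit => β).toLinearMap) =
        Sol (insert β C') := by
      rw [ker_mulR]
      ext x
      constructor
      · rintro ⟨h1, h2⟩ a ha g
        rcases Set.mem_insert_iff.1 ha with rfl | ha
        · exact h2 _ ⟨(), rfl⟩ g
        · exact h1 a ha g
      · intro h1
        refine ⟨fun a ha g => h1 a (Set.mem_insert_of_mem _ ha) g, ?_⟩
        rintro a ⟨u, rfl⟩ g
        exact h1 _ (Set.mem_insert _ _) g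
    rw [f1, hc']
    have f2 : ((Sol C ⊓ L.comap (sel j hj).toLinearMap) ⊓
        D.comap (mulR fun _ : Unit => reF j α).toLinearMap) =
        Sol C ⊓ (L ⊓ D.comap (mulR fun _ : Unit => α).toLinearMap).comap
          (sel j hj).toLinearMap := by
      ext x
      constructor
      · rintro ⟨⟨h1, h2⟩, h3⟩
        refine ⟨h1, h2, ?_⟩
        have h4 : mulR (fun _ : Unit => reF j α) x ∈ D := h3
        rw [hT] at h4
        exact h4
      · rintro ⟨h1, h2, h3⟩
        refine ⟨⟨h1, h2⟩, ?_⟩
        show mulR (fun _ : Unit => reF j α) x ∈ D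
        rw [hT]
        exact h3
    rw [f2, hL _ (hLi.inf (invar_comap (mulR_equivar _) hDi)) (hLc.inter (closed_comap _ hDc))]
    have f3 : K ⊓ (L ⊓ D.comap (mulR fun _ : Unit => α).toLinearMap) =
        (K ⊓ D.comap (mulR fun _ : Unit => α).toLinearMap) ⊓ L := by
      rw [inf_comm L, inf_assoc]
    rw [f3]
    ring

/-- The solutions `x` of the conditions `α i (x) ∈ D i` have, up to the constant `∑ c i`, the
dimension of the solution space of a finite system. -/
theorem realise {k : Subring ℂ} {G : Type} [Group G] {ι : Type} [Fintype ι] {q : Type} [Fintype q]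
    (α : q → (ι × G →₀ ℂ)) (hα : ∀ i, CoefIn k (α i)) (D : q → Submodule ℂ (L2 Unit G))
    (c : q → ℝ) (hD : ∀ i, RatD k (D i) (c i)) (K : Submodule ℂ (L2 ι G))
    (hK : ∀ x, x ∈ K ↔ ∀ i, mulR (fun _ : Unit => α i) x ∈ D i) :
    vdim (K : Set (L2 ι G)) + ∑ i, c i ∈ Dset k G := by
  have key : ∀ s : Finset q, RealK k
      (s.inf fun i => (D i).comap (mulR fun _ : Unit => α i).toLinearMap) (∑ i ∈ s, c i) := by
    intro s
    induction s using Finset.induction_on with
    | empty =>
      rw [Finset.inf_empty, Finset.sum_empty]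
      exact realK_top k
    | insert i s hi ih =>
      rw [Finset.inf_insert, Finset.sum_insert hi, inf_comm, add_comm]
      exact realK_step ih (hα i) (hD i)
  obtain ⟨τ, _, j, hj, C, hC, hCk, hL⟩ := key Finset.univ
  refine ⟨τ, inferInstance, C, hC, hCk, ?_⟩
  have h1 := hL ⊤ (fun _ _ _ => trivial) isClosed_univ
  rw [Submodule.comap_top, inf_top_eq, inf_top_eq] at h1
  rw [h1]
  congr 3
  ext x
  rw [hK]
  simp only [Submodule.mem_finsetInf, Finset.mem_univ, true_implies]
  rfl

end Pool.Agent.AON
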