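import Pool.Agent.AON.Defs
import Pool.Agent.VN.DefsQ
import Pool.Agent.VN.DefsK

set_option autoImplicit false

noncomputable section

/-!
Definitions used in the statement of the theorem.
-/

namespace Pool.Agent.AON

open Pool.Agent.VN

/-- The only element of finite order is the identity. -/
def TorsionFree (G : Type) [Group G] : Prop :=
  ∀ g : G, ∀ n : ℕ, 0 < n → g ^ n = 1 → g = 1

/-- The number `r` is the kernel dimension of a matrix whose entries are `0` or elements of `G`,
at most three entries of every row and of every column being elements of `G`. -/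
def Occurs (G : Type) [Group G] (r : ℝ) : Prop :=
  ∃ (m n : ℕ) (B : Matrix (Fin m) (Fin n) (Option G)), ThreeSparse B ∧ kerDimQ (monoMat B) = r

/-- The group `H^j × (H ≀ ℤ) × (Heis^(S × ℤ) ⋊ ℤ)`. -/
def Gam (H : Type) [Group H] (S : Set ℕ) (j : ℕ) : Type :=
  (Fin j → H) × Wr H × W S Heis

instance instGroupGam (H : Type) [Group H] (S : Set ℕ) (j : ℕ) : Group (Gam H S j) :=
  Prod.instGroup (G := Fin j → H) (H := Wr H × W S Heis)

end Pool.Agent.AON
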