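import Pool.Agent.AON.Base

set_option autoImplicit false
set_option linter.unusedSectionVars false

noncomputable section

open scoped InnerProductSpace ENNReal Topology
open Classical Filter ContinuousLinearMap
open Pool.Agent.VN

/-!
Operators supported on a subgroup.
-/

namespace Pool.Agent.AON

variable {G : Type*} [Group G]

/-- The convolution kernel of `T` is supported on the subgroup `N`. -/
def SuppOn (N : Subgroup G) (T : L2 Unit G →L[ℂ] L2 Unit G) : Prop :=
  ∀ g : G, g ∉ N → (T (dl ((), 1))) ((), g) = 0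

theorem suppOn_one (N : Subgroup G) : SuppOn N (1 : L2 Unit G →L[ℂ] L2 Unit G) := by
  intro g hg
  show (dl ((), (1 : G)) : L2 Unit G) ((), g) = 0
  rw [dl_apply, if_neg]
  intro h
  apply hg
  have : g = 1 := congrArg Prod.snd h
  rw [this]
  exact N.one_mem

theorem SuppOn.mono {N M : Subgroup G} (h : N ≤ M) {T : L2 Unit G →L[ℂ] L2 Unit G}
    (hT : SuppOn N T) : SuppOn M T := fun g hg => hT g fun h' => hg (h h')

theorem SuppOn.sub {N : Subgroup G} {S T : L2 Unit G →L[ℂ] L2 Unit G} (hS : SuppOn N S)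
    (hT : SuppOn N T) : SuppOn N (S - T) := by
  intro g hg
  show (S (dl ((), 1)) - T (dl ((), 1)) : L2 Unit G) ((), g) = 0
  rw [lp.coeFn_sub, Pi.sub_apply, hS g hg, hT g hg, sub_zero]

theorem SuppOn.mul {N : Subgroup G} {S T : L2 Unit G →L[ℂ] L2 Unit G} (hSe : Equivar S)
    (hTe : Equivar T) (hS : SuppOn N S) (hT : SuppOn N T) : SuppOn N (S * T) := by
  intro g hg
  have h0 : ∀ h : G, (dl ((), h) : L2 Unit G) = lt h (dl ((), 1)) := by
    intro h
    rw [lt_dl, mul_one]
  have h1 : ((S * T) (dl ((), 1))) ((), g) = ⟪adjoint S (dl ((), g)), T (dl ((), 1))⟫_ℂ := by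
    rw [adjoint_inner_left, inner_dl_left]
    rfl
  have h2 := hasSum_inner' (adjoint S (dl ((), g))) (T (dl ((), (1 : G))))
  have h3 : (fun p : Unit × G => star ((adjoint S (dl ((), g)) : L2 Unit G) p)
      * (T (dl ((), (1 : G)))) p) = fun _ => 0 := by
    funext p
    obtain ⟨u, h⟩ := p
    have e : (adjoint S (dl ((), g)) : L2 Unit G) ((), h) = star ((S (dl ((), 1))) ((), h⁻¹ * g)) := by
      rw [← inner_dl_left, adjoint_inner_right, inner_dl_right, h0 h, hSe, lt_apply]
    show star ((adjoint S (dl ((), g)) : L2 Unit G) ((), h)) * (T (dl ((), (1 : G)))) ((), h) = 0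
    rw [e, star_star]
    by_cases hh : h ∈ N
    · have hh2 : h⁻¹ * g ∉ N := by
        intro hn
        apply hg
        have := N.mul_mem hh hn
        rwa [mul_inv_cancel_left] at this
      rw [hS _ hh2, zero_mul]
    · rw [hT _ hh, mul_zero]
  rw [h3] at h2
  rw [h1]
  exact h2.unique hasSum_zero

/-- conjugation by a right translation -/
theorem SuppOn.conj {N M : Subgroup G} {T : L2 Unit G →L[ℂ] L2 Unit G} (hTe : Equivar T)
    (hT : SuppOn N T) (t : G) (h : ∀ n ∈ N, t * n * t⁻¹ ∈ M) :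
    SuppOn M (rt t * T * rt t⁻¹) := by
  intro g hg
  have h1 : (rt t * T * rt t⁻¹ : L2 Unit G →L[ℂ] L2 Unit G) (dl ((), 1))
      = rt t (T (rt t⁻¹ (dl ((), 1)))) := rfl
  have h2 : (dl ((), t) : L2 Unit G) = lt t (dl ((), 1)) := by
    rw [lt_dl, mul_one]
  rw [h1, rt_dl, inv_inv, one_mul, h2, hTe, rt_apply, lt_apply]
  apply hT
  intro hn
  apply hg
  have := h _ hn
  have e : t * (t⁻¹ * (g * t)) * t⁻¹ = g := by group
  rwa [e] at this

end Pool.Agent.AON
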