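import Pool.Agent.AON.Supp

set_option autoImplicit false
set_option linter.unusedSectionVars false

noncomputable section

open scoped InnerProductSpace ENNReal Topology
open Classical Filter ContinuousLinearMap
open Pool.Agent.VN

/-!
Operators supported on a subgroup: traces of products, commutation.
-/

namespace Pool.Agent.AON

variable {G : Type*} [Group G]

private lemma s2_conv {S T : L2 Unit G →L[ℂ] L2 Unit G} (hSe : Equivar S) (g : G) :
    HasSum (fun p : Unit × G => (S (dl ((), 1))) ((), p.2⁻¹ * g) * (T (dl ((), (1 : G)))) p)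
      (((S * T) (dl ((), 1))) ((), g)) := by
  have h0 : ∀ h : G, (dl ((), h) : L2 Unit G) = lt h (dl ((), 1)) := by
    intro h
    rw [lt_dl, mul_one]
  have h1 : ((S * T) (dl ((), 1))) ((), g) = ⟪adjoint S (dl ((), g)), T (dl ((), 1))⟫_ℂ := by
    rw [adjoint_inner_left, inner_dl_left]
    rfl
  have h2 := hasSum_inner' (adjoint S (dl ((), g))) (T (dl ((), (1 : G))))
  rw [h1]
  convert h2 using 1
  funext p
  obtain ⟨u, h⟩ := p
  have e : (adjoint S (dl ((), g)) : L2 Unit G) ((), h) = star ((S (dl ((), 1))) ((), h⁻¹ * g)) := by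
    rw [← inner_dl_left, adjoint_inner_right, inner_dl_right, h0 h, hSe, lt_apply]
  show _ = star ((adjoint S (dl ((), g)) : L2 Unit G) ((), h)) * (T (dl ((), (1 : G)))) ((), h)
  rw [e, star_star]

private lemma s2_tr (S : L2 Unit G →L[ℂ] L2 Unit G) : tr S = (S (dl ((), (1 : G)))) ((), 1) := by
  unfold tr
  rw [Fintype.sum_unique]
  exact inner_dl_left _ _

private lemma s2_ext {A B : L2 Unit G →L[ℂ] L2 Unit G} (hA : Equivar A) (hB : Equivar B)
    (h : A (dl ((), (1 : G))) = B (dl ((), 1))) : A = B := by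
  have h0 : ∀ h : G, (dl ((), h) : L2 Unit G) = lt h (dl ((), 1)) := by
    intro h
    rw [lt_dl, mul_one]
  have h1 : ∀ q : Unit × G, A (dl q) = B (dl q) := by
    rintro ⟨u, g⟩
    show A (dl ((), g)) = B (dl ((), g))
    rw [h0 g, hA, hB, h]
  have h2 : ∀ p : Unit × G, adjoint A (dl p) = adjoint B (dl p) := by
    intro p
    ext q
    rw [← inner_dl_left q, ← inner_dl_left q, adjoint_inner_right, adjoint_inner_right, h1]
  ext1 x
  ext p
  rw [← inner_dl_left p, ← inner_dl_left p, ← adjoint_inner_left, ← adjoint_inner_left, h2]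

/-- the trace is multiplicative on operators with independent supports -/
theorem tr_mul_of_supp {N M : Subgroup G} {S T : L2 Unit G →L[ℂ] L2 Unit G} (hSe : Equivar S)
    (hTe : Equivar T) (hS : SuppOn N S) (hT : SuppOn M T) (h : ∀ g ∈ N, g ∈ M → g = 1) :
    tr (S * T) = tr S * tr T := by
  rw [s2_tr, s2_tr, s2_tr]
  have h1 := s2_conv (T := T) hSe (1 : G)
  refine h1.unique ?_
  have h2 := hasSum_single (f := fun p : Unit × G => (S (dl ((), 1))) ((), p.2⁻¹ * 1) *
    (T (dl ((), (1 : G)))) p) ((), (1 : G)) (fun p hp => by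
      obtain ⟨u, g⟩ := p
      have hg : g ≠ 1 := fun hg => hp (by rw [hg])
      show (S (dl ((), 1))) ((), g⁻¹ * 1) * (T (dl ((), (1 : G)))) ((), g) = 0
      by_cases hN : g ∈ N
      · rw [hT g fun hM => hg (h g hN hM), mul_zero]
      · rw [hS (g⁻¹ * 1) (fun hN' => hN (by
          rw [mul_one] at hN'
          exact (N.inv_mem_iff).1 hN')), zero_mul])
  convert h2 using 1
  simp

/-- an operator supported on `N` commutes with the operators which commute with the right
translations by elements of `N` -/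
theorem comm_of_supp {N : Subgroup G} {S T : L2 Unit G →L[ℂ] L2 Unit G} (hSe : Equivar S)
    (hTe : Equivar T) (hS : SuppOn N S) (hT : ∀ n ∈ N, rt n * T = T * rt n) : S * T = T * S := by
  refine s2_ext (hSe.comp hTe) (hTe.comp hSe) ?_
  ext p
  obtain ⟨u, g⟩ := p
  have h1 := s2_conv (T := T) hSe g
  have h2 := s2_conv (T := S) hTe g
  have hc : ∀ n ∈ N, (T (dl ((), (1 : G)))) ((), g * n) = (T (dl ((), 1))) ((), n * g) := by
    intro n hn
    have h3 := congrArg (fun A : L2 Unit G →L[ℂ] L2 Unit G => (A (dl ((), 1))) ((), g)) (hT n hn)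
    have h4 : (rt n * T : L2 Unit G →L[ℂ] L2 Unit G) (dl ((), 1)) = rt n (T (dl ((), 1))) := rfl
    have h5 : (T * rt n : L2 Unit G →L[ℂ] L2 Unit G) (dl ((), 1)) = T (rt n (dl ((), 1))) := rfl
    have h6 : (dl ((), n⁻¹) : L2 Unit G) = lt n⁻¹ (dl ((), 1)) := by
      rw [lt_dl, mul_one]
    simp only [h4, h5] at h3
    rw [rt_dl, one_mul, h6, hTe, rt_apply, lt_apply, inv_inv] at h3
    exact h3
  let e : Unit × G ≃ Unit × G :=
    { toFun := fun p => (p.1, g * p.2⁻¹)
      invFun := fun p => (p.1, p.2⁻¹ * g)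
      left_inv := fun p => by
        obtain ⟨a, b⟩ := p
        simp
      right_inv := fun p => by
        obtain ⟨a, b⟩ := p
        simp }
  have h3 := (e.hasSum_iff).mpr h1
  refine h3.unique ?_
  convert h2 using 1
  funext p
  obtain ⟨v, h⟩ := p
  show (S (dl ((), 1))) ((), (g * h⁻¹)⁻¹ * g) * (T (dl ((), (1 : G)))) ((), g * h⁻¹) =
    (T (dl ((), 1))) ((), h⁻¹ * g) * (S (dl ((), (1 : G)))) ((), h)
  have e1 : (g * h⁻¹)⁻¹ * g = h := by group
  rw [e1, mul_comm]
  by_cases hN : h ∈ N
  · rw [hc h⁻¹ (N.inv_mem hN)]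
  · rw [hS h hN, mul_zero, mul_zero]

end Pool.Agent.AON
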